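import Pool.Agent.Helper59.HD.Link

/-!
# Contraction of a largest circuit in an indecomposable configuration
-/

namespace Pool.Agent.Helper59.HD

variable {V : Type} [AddCommGroup V] [Module ℝ V]

/-- The configuration `S` in `T` modulo `U` does not split as a direct sum. -/
def Indec (U T : Submodule ℝ V) (S : Set V) : Prop :=
  ∀ T1 T2 : Submodule ℝ V, T1 ⊔ T2 = T → T1 ⊓ T2 = U → (∀ f ∈ S, f ∈ T1 ∨ f ∈ T2) →
    T1 = U ∨ T2 = U

theorem nonloop {U : Submodule ℝ V} {g : V →₀ ℝ} (hg : Circ U g) (h2 : 2 ≤ g.support.card)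
    {y : V} (hy : g y ≠ 0) : y ∉ U := by
  classical
  intro hyU
  obtain ⟨t, ht⟩ := hg.2.2 (Finsupp.single y 1) (by rw [sm_single, one_smul]; exact hyU)
    (supp_sub_iff.2 (fun x hx => by
      rw [Finsupp.single_apply, if_neg]
      rintro rfl
      exact hy hx))
  obtain ⟨z, hz, hzy⟩ := Finset.exists_mem_ne (by omega : 1 < g.support.card) y
  rw [Finsupp.mem_support_iff] at hz
  have h1 := congrArg (fun f : V →₀ ℝ => f z) ht
  simp only [Finsupp.coe_smul, Pi.smul_apply, smul_eq_mul] at h1
  rw [Finsupp.single_apply, if_neg (Ne.symm hzy)] at h1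
  have ht0 : t = 0 := by
    rcases mul_eq_zero.1 h1.symm with h | h
    · exact h
    · exact absurd h hz
  have h2 := congrArg (fun f : V →₀ ℝ => f y) ht
  simp [ht0] at h2

/-- In an indecomposable configuration an element of a circuit and any other nonloop lie in a
common circuit. -/
theorem indec_link (U T : Submodule ℝ V) (S : Set V) (hT : U ⊔ spn S = T) (hI : Indec U T S)
    (c d : V) (hcU : c ∉ U) (hd : d ∈ S) (hdU : d ∉ U) (gC : V →₀ ℝ)
    (hC : Circ U gC) (hCS : ∀ y, gC y ≠ 0 → y ∈ S) (hCc : gC c ≠ 0) :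
    ∃ k, Circ U k ∧ (∀ y, k y ≠ 0 → y ∈ S) ∧ k c ≠ 0 ∧ k d ≠ 0 := by
  classical
  set A : V → Prop := fun y => ∃ k, Circ U k ∧ (∀ z, k z ≠ 0 → z ∈ S) ∧ k c ≠ 0 ∧ k y ≠ 0 with hA
  have hAcl : ∀ k0, Circ U k0 → (∀ z, k0 z ≠ 0 → z ∈ S) →
      (∀ z, k0 z ≠ 0 → A z) ∨ (∀ z, k0 z ≠ 0 → ¬ A z) := by
    intro k0 hk0 hk0S
    by_cases hcase : ∃ y, k0 y ≠ 0 ∧ A y
    · left
      obtain ⟨y, hy, k1, hk1, hk1S, hk1c, hk1y⟩ := hcase
      intro z hz
      obtain ⟨k2, hk2, hk2c, hk2z, hk2s⟩ := circ_trans U _ k1 k0 rfl hk1 hk0 c z y hk1c hz hk1y hy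
      refine ⟨k2, hk2, fun w hw => ?_, hk2c, hk2z⟩
      by_cases h1 : k1 w = 0
      · by_cases h2 : k0 w = 0
        · exact absurd (hk2s w h1 h2) hw
        · exact hk0S w h2
      · exact hk1S w h1
    · right
      push Not at hcase
      exact hcase
  by_contra hcon
  have hAd : ¬ A d := by
    rintro ⟨k, h1, h2, h3, h4⟩
    exact hcon ⟨k, h1, h2, h3, h4⟩
  set T1 : Submodule ℝ V := U ⊔ spn {y | y ∈ S ∧ A y} with hT1
  set T2 : Submodule ℝ V := U ⊔ spn {y | y ∈ S ∧ ¬ A y} with hT2
  have hsup : T1 ⊔ T2 = T := by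
    apply le_antisymm
    · rw [← hT]
      apply sup_le
      · apply sup_le le_sup_left
        refine le_trans ?_ le_sup_right
        rw [spn_eq_span, spn_eq_span]
        exact Submodule.span_mono (fun y hy => hy.1)
      · apply sup_le le_sup_left
        refine le_trans ?_ le_sup_right
        rw [spn_eq_span, spn_eq_span]
        exact Submodule.span_mono (fun y hy => hy.1)
    · rw [← hT]
      apply sup_le (le_sup_left.trans le_sup_left)
      rw [spn_eq_span, Submodule.span_le]
      intro y hy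
      by_cases hAy : A y
      · exact (le_sup_right.trans le_sup_left : spn {y | y ∈ S ∧ A y} ≤ T1 ⊔ T2)
          (subset_spn ⟨hy, hAy⟩)
      · exact (le_sup_right.trans le_sup_right : spn {y | y ∈ S ∧ ¬ A y} ≤ T1 ⊔ T2)
          (subset_spn ⟨hy, hAy⟩)
  have hinf : T1 ⊓ T2 = U := by
    apply le_antisymm
    · rintro x ⟨hx1, hx2⟩
      obtain ⟨u1, hu1, w1, hw1, h1⟩ := Submodule.mem_sup.1 hx1
      obtain ⟨u2, hu2, w2, hw2, h2⟩ := Submodule.mem_sup.1 hx2
      obtain ⟨a, ha, rfl⟩ := mem_spn.1 hw1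
      obtain ⟨b, hb, rfl⟩ := mem_spn.1 hw2
      have hab : sm (a - b) ∈ U := by
        rw [map_sub]
        have : sm a - sm b = u2 - u1 := by
          have h3 : u1 + sm a = u2 + sm b := by rw [h1, h2]
          have h4 : sm a = u2 + sm b - u1 := by rw [← h3]; abel
          rw [h4]
          abel
        rw [this]
        exact U.sub_mem hu2 hu1
      have hf : (a - b).filter A = a := by
        ext y
        rw [Finsupp.filter_apply]
        by_cases hAy : A y
        · rw [if_pos hAy, Finsupp.coe_sub, Pi.sub_apply]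
          have : b y = 0 := by
            by_contra hne
            exact (hb y hne).2 hAy
          rw [this, sub_zero]
        · rw [if_neg hAy]
          by_contra hne
          exact hAy (ha y (fun h0 => hne h0.symm)).2
      have hU := filter_dep U A S hAcl _ (a - b) rfl hab (fun y hy => by
        by_contra hyS
        apply hy
        rw [Finsupp.coe_sub, Pi.sub_apply]
        have e1 : a y = 0 := by
          by_contra hne
          exact hyS (ha y hne).1
        have e2 : b y = 0 := by
          by_contra hne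
          exact hyS (hb y hne).1
        rw [e1, e2, sub_zero])
      rw [hf] at hU
      rw [← h1]
      exact U.add_mem hu1 hU
    · exact le_inf le_sup_left le_sup_left
  rcases hI T1 T2 hsup hinf (fun f hf => by
    by_cases hAf : A f
    · exact Or.inl ((le_sup_right : spn {y | y ∈ S ∧ A y} ≤ T1) (subset_spn ⟨hf, hAf⟩))
    · exact Or.inr ((le_sup_right : spn {y | y ∈ S ∧ ¬ A y} ≤ T2) (subset_spn ⟨hf, hAf⟩))) with h | h
  · apply hcU
    rw [← h]
    exact (le_sup_right : spn {y | y ∈ S ∧ A y} ≤ T1)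
      (subset_spn ⟨hCS c hCc, gC, hC, hCS, hCc, hCc⟩)
  · apply hdU
    rw [← h]
    exact (le_sup_right : spn {y | y ∈ S ∧ ¬ A y} ≤ T2) (subset_spn ⟨hd, hAd⟩)

/-- Contracting a largest circuit of an indecomposable configuration shortens the circuits. -/
theorem contract (U T : Submodule ℝ V) (S : Set V) (hT : U ⊔ spn S = T) (hI : Indec U T S)
    (c : ℕ) (hmax : ∀ k, Circ U k → (∀ y, k y ≠ 0 → y ∈ S) → k.support.card ≤ c)
    (gC : V →₀ ℝ) (hC : Circ U gC) (hCS : ∀ y, gC y ≠ 0 → y ∈ S) (hCc : gC.support.card = c)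
    (hc2 : 2 ≤ c) (g : V →₀ ℝ) (hg : Circ (U ⊔ spn {y | gC y ≠ 0}) g)
    (hgS : ∀ y, g y ≠ 0 → y ∈ S) : g.support.card ≤ max 1 (c - 2) := by
  classical
  by_contra hlt
  push Not at hlt
  have hn2 : 2 ≤ g.support.card := by
    have := le_max_left 1 (c - 2)
    omega
  have hnc : c < g.support.card + 2 := by
    have := le_max_right 1 (c - 2)
    omega
  set T' : Submodule ℝ V := U ⊔ spn {y | gC y ≠ 0} with hT'
  have hUT' : U ≤ T' := le_sup_left
  have hof : ∀ x : V →₀ ℝ, (∀ y, gC y = 0 → x y = 0) → sm x ∈ T' := by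
    intro x hx
    apply (le_sup_right : spn {y | gC y ≠ 0} ≤ T')
    rw [mem_spn]
    exact ⟨x, fun y hy h0 => hy (hx y h0), rfl⟩
  have hdisj : ∀ y, gC y ≠ 0 → g y = 0 := by
    intro y hy
    by_contra hne
    apply nonloop hg hn2 hne
    exact (le_sup_right : spn {y | gC y ≠ 0} ≤ T') (subset_spn hy)
  obtain ⟨u, hu, w, hw, huw⟩ := Submodule.mem_sup.1 hg.2.1
  obtain ⟨x0, hx0, rfl⟩ := mem_spn.1 hw
  have hx0' : ∀ y, gC y = 0 → x0 y = 0 := fun y hy => by
    by_contra hne
    exact hx0 y hne hy
  have hgx : sm (g + -x0) ∈ U := by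
    rw [map_add, map_neg, ← huw]
    have : u + sm x0 + -sm x0 = u := by abel
    rw [this]
    exact hu
  by_cases hmul : ∃ t : ℝ, x0 = t • gC
  · -- `g` is itself a circuit modulo `U`, skew to `gC`
    obtain ⟨t, ht⟩ := hmul
    have hgU : sm g ∈ U := by
      have : g = (g + -x0) + t • gC := by rw [ht]; abel
      rw [this, map_add, map_smul]
      exact U.add_mem hgx (U.smul_mem _ hC.2.1)
    have hgc : Circ U g := ⟨hg.1, hgU, fun h hh hs => hg.2.2 h (hUT' hh) hs⟩
    have hskew : ∀ x y : V →₀ ℝ, (∀ z, gC z = 0 → x z = 0) → (∀ z, g z = 0 → y z = 0) →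
        sm x + sm y ∈ U → sm x ∈ U := by
      intro x y hx hy hxy
      have hyT : sm y ∈ T' := by
        have : sm y = (sm x + sm y) - sm x := by abel
        rw [this]
        exact T'.sub_mem (hUT' hxy) (hof x hx)
      obtain ⟨s, hs⟩ := hg.2.2 y hyT (supp_sub_iff.2 hy)
      have hyU : sm y ∈ U := by
        rw [hs, map_smul]
        exact U.smul_mem _ hgU
      have : sm x = (sm x + sm y) - sm y := by abel
      rw [this]
      exact U.sub_mem hxy hyU
    obtain ⟨a, ha⟩ := Finsupp.ne_iff.1 hC.1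
    obtain ⟨b, hb⟩ := Finsupp.ne_iff.1 hg.1
    simp only [Finsupp.coe_zero, Pi.zero_apply] at ha hb
    obtain ⟨k, hk, hkS, hka, hkb⟩ := indec_link U T S hT hI a b
      (nonloop hC (by omega) ha) (hgS b hb) (nonloop hgc hn2 hb) gC hC hCS ha
    obtain ⟨k', hk', hk'S, hcard⟩ := linking U S gC g hC hgc hCS hgS hdisj hskew
      ⟨k, hk, hkS, ⟨a, ha, hka⟩, ⟨b, hb, hkb⟩⟩
    have := hmax k' hk' hk'S
    omega
  · push Not at hmul
    obtain ⟨s, ⟨i, hi, hi0⟩, hs⟩ := ratio gC (-x0) (fun y hy => by simp [hx0' y hy]) (by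
      intro t ht
      apply hmul (-t)
      rw [neg_smul, ← ht, neg_neg])
    set x : V →₀ ℝ := -x0 + s • gC with hx
    have hx' : ∀ y, gC y = 0 → x y = 0 := fun y hy => by simp [hx, hx0' y hy, hy]
    have hcirc : Circ U (g + x) := by
      apply glue U T' hUT' g x hg
      · intro y hy
        apply hx'
        by_contra hne
        exact hy (hdisj y hne)
      · have : g + x = (g + -x0) + s • gC := by rw [hx]; abel
        rw [this, map_add, map_smul]
        exact U.add_mem hgx (U.smul_mem _ hC.2.1)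
      · intro h hh
        exact hof h (fun y hy => hh y (hx' y hy))
      · intro h hh hhU
        obtain ⟨t, ht⟩ := hC.2.2 h hhU (supp_sub_iff.2 (fun y hy => hh y (hx' y hy)))
        have h1 := hh i hi0
        rw [ht] at h1
        simp only [Finsupp.coe_smul, Pi.smul_apply, smul_eq_mul] at h1
        have ht0 : t = 0 := by
          rcases mul_eq_zero.1 h1 with h | h
          · exact h
          · exact absurd h hi
        rw [ht, ht0, zero_smul]
    have hS' : ∀ y, (g + x) y ≠ 0 → y ∈ S := by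
      intro y hy
      by_cases h1 : gC y = 0
      · apply hgS
        intro h0
        apply hy
        simp [h0, hx' y h1]
      · exact hCS y h1
    have hle := hmax _ hcirc hS'
    have hd1 : Disjoint g.support x.support := by
      rw [Finset.disjoint_left]
      intro y h1 h2
      rw [Finsupp.mem_support_iff] at h1 h2
      have hc : gC y ≠ 0 := fun h => h2 (hx' y h)
      exact h1 (hdisj y hc)
    have hsubs : g.support ∪ x.support ⊆ (g + x).support := by
      intro y hy
      rw [Finset.mem_union, Finsupp.mem_support_iff, Finsupp.mem_support_iff] at hy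
      rw [Finsupp.mem_support_iff, Finsupp.coe_add, Pi.add_apply]
      rcases hy with h | h
      · have hc : gC y = 0 := by
          by_contra hne
          exact h (hdisj y hne)
        rw [hx' y hc]
        simpa using h
      · have hc : gC y ≠ 0 := fun h' => h (hx' y h')
        rw [hdisj y hc]
        simpa using h
    have hcard := Finset.card_le_card hsubs
    rw [Finset.card_union_of_disjoint hd1] at hcard
    omega

end Pool.Agent.Helper59.HD
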