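import Pool.Agent.Helper59.HD.DefsB

/-!
# Forests of blocks give small Helly numbers for translates
-/

namespace Pool.Agent.Helper59.HD

theorem mem_path {m : ℕ} {le : Fin m → Fin m → Prop} {x y : Fin m} : y ∈ path le x ↔ le y x := by
  classical
  simp [path]

/-- Existence of the lowest element outside `D` on a path. -/
theorem exists_rootB {m : ℕ} {le : Fin m → Fin m → Prop} (H : Forest le) (D : Set (Fin m)) :
    ∀ (N : ℕ) (i : Fin m), ({j | le j i ∧ j ∉ D} : Set (Fin m)).ncard = N → i ∉ D →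
    ∃ ρ, le ρ i ∧ ρ ∉ D ∧ ∀ j, le j ρ → j ≠ ρ → j ∈ D := by
  intro N
  induction N using Nat.strong_induction_on with
  | _ N ih =>
    intro i hm hi
    by_cases hroot : ∀ j, le j i → j ≠ i → j ∈ D
    · exact ⟨i, H.refl i, hi, hroot⟩
    push Not at hroot
    obtain ⟨j, hji, hne, hjD⟩ := hroot
    have hlt : ({l | le l j ∧ l ∉ D} : Set (Fin m)).ncard < N := by
      rw [← hm]
      apply Set.ncard_lt_ncard _ (Set.toFinite _)
      refine ⟨fun l hl => ⟨H.trans _ _ _ hl.1 hji, hl.2⟩, fun hsub => ?_⟩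
      have h1 : i ∈ ({l | le l j ∧ l ∉ D} : Set (Fin m)) := hsub ⟨H.refl i, hi⟩
      exact hne (H.antisymm _ _ hji h1.1)
    obtain ⟨ρ, h1, h2, h3⟩ := ih _ hlt j rfl hjD
    exact ⟨ρ, H.trans _ _ _ h1 hji, h2, h3⟩

theorem rootB_unique {m : ℕ} {le : Fin m → Fin m → Prop} (H : Forest le) (D : Set (Fin m))
    {i ρ ρ' : Fin m} (h1 : le ρ i) (h2 : ρ ∉ D) (h3 : ∀ j, le j ρ → j ≠ ρ → j ∈ D)
    (h1' : le ρ' i) (h2' : ρ' ∉ D) (h3' : ∀ j, le j ρ' → j ≠ ρ' → j ∈ D) : ρ = ρ' := by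
  by_contra hne
  rcases H.chain i ρ ρ' h1 h1' with h | h
  · exact h2 (h3' ρ h hne)
  · exact h2' (h3 ρ' h (Ne.symm hne))

theorem convB_aux {n m r : ℕ} {le : Fin m → Fin m → Prop} (H : Forest le) (blk : Fin n → Fin m)
    (hprod : ∀ x, ∏ y ∈ path le x, (bdim blk y + 1) ≤ r + 1)
    {κ : Type} [Fintype κ] (A : κ → Set (Fin n → ℝ)) (hA : ∀ k, Convex ℝ (A k))
    (hP : ∀ k x, (∀ y, ∃ z ∈ A k, ∀ i, le (blk i) y → z i = x i) → x ∈ A k) :
    ∀ (N : ℕ) (ρ : Fin m) (a : Fin n → ℝ), ({y | le ρ y} : Set (Fin m)).ncard = N →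
    (∀ J : Finset κ, J.card * ∏ y ∈ (path le ρ).erase ρ, (bdim blk y + 1) ≤ r + 1 →
      ∃ x : Fin n → ℝ, ∀ k ∈ J, ∃ z ∈ A k, (∀ i, le (blk i) ρ → blk i ≠ ρ → z i = a i) ∧
        ∀ i, le ρ (blk i) → z i = x i) →
    ∃ x : Fin n → ℝ, ∀ k, ∃ z ∈ A k, (∀ i, le (blk i) ρ → blk i ≠ ρ → z i = a i) ∧
        ∀ i, le ρ (blk i) → z i = x i := by
  classical
  intro N
  induction N using Nat.strong_induction_on with
  | _ N ih =>
  intro ρ a hN hyp
  set P : ℕ := ∏ y ∈ (path le ρ).erase ρ, (bdim blk y + 1) with hPdef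
  set P' : ℕ := ∏ y ∈ path le ρ, (bdim blk y + 1) with hP'def
  have hPP' : P' = (bdim blk ρ + 1) * P := by
    rw [hP'def, hPdef]
    exact (Finset.mul_prod_erase (path le ρ) (fun y => bdim blk y + 1)
      (mem_path.2 (H.refl ρ))).symm
  have hP'r : P' ≤ r + 1 := hprod ρ
  have hPpos : 0 < P := Finset.prod_pos (fun _ _ => Nat.succ_pos _)
  have hP'pos : 0 < P' := Finset.prod_pos (fun _ _ => Nat.succ_pos _)
  -- the convex sets of possible values on the block `ρ`
  set I : Finset κ → Set ({i // blk i = ρ} → ℝ) := fun J => {t | ∃ x : Fin n → ℝ,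
    (∀ i : {i // blk i = ρ}, x i = t i) ∧ ∀ k ∈ J, ∃ z ∈ A k,
      (∀ i, le (blk i) ρ → blk i ≠ ρ → z i = a i) ∧ ∀ i, le ρ (blk i) → z i = x i} with hI
  have hIconv : ∀ J, Convex ℝ (I J) := by
    intro J t1 ht1 t2 ht2 α β hα hβ hαβ
    obtain ⟨x1, hx1, hz1⟩ := ht1
    obtain ⟨x2, hx2, hz2⟩ := ht2
    refine ⟨α • x1 + β • x2, fun i => ?_, fun k hk => ?_⟩
    · simp [hx1, hx2]
    · obtain ⟨z1, hz1A, hz1D, hz1r⟩ := hz1 k hk
      obtain ⟨z2, hz2A, hz2D, hz2r⟩ := hz2 k hk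
      refine ⟨α • z1 + β • z2, hA k hz1A hz2A hα hβ hαβ, fun i hi hi' => ?_, fun i hi => ?_⟩
      · simp only [Pi.add_apply, Pi.smul_apply, smul_eq_mul]
        rw [hz1D i hi hi', hz2D i hi hi', ← add_mul, hαβ, one_mul]
      · simp only [Pi.add_apply, Pi.smul_apply, smul_eq_mul]
        rw [hz1r i hi, hz2r i hi]
  have hfin : Module.finrank ℝ ({i // blk i = ρ} → ℝ) = bdim blk ρ := by
    rw [Module.finrank_fintype_fun_eq_card, Fintype.card_subtype]
    rfl
  have hτ : ∃ t, ∀ J : Finset κ, J.card * P' ≤ r + 1 → t ∈ I J := by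
    have hne : (⋂ J ∈ Finset.univ.filter (fun J : Finset κ => J.card * P' ≤ r + 1),
        I J).Nonempty := by
      apply Convex.helly_theorem' (𝕜 := ℝ) (fun J _ => hIconv J)
      intro S hS hSc
      rw [hfin] at hSc
      obtain ⟨x, hx⟩ := hyp (S.biUnion id) (by
        have h1 : (S.biUnion id).card ≤ S.card * ((r + 1) / P') := by
          apply Finset.card_biUnion_le_card_mul
          intro J hJ
          rw [Nat.le_div_iff_mul_le hP'pos]
          exact (Finset.mem_filter.1 (hS hJ)).2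
        calc (S.biUnion id).card * P ≤ (S.card * ((r + 1) / P')) * P := Nat.mul_le_mul_right _ h1
          _ ≤ ((bdim blk ρ + 1) * ((r + 1) / P')) * P :=
            Nat.mul_le_mul_right _ (Nat.mul_le_mul_right _ hSc)
          _ = ((r + 1) / P') * P' := by rw [hPP']; ring
          _ ≤ r + 1 := Nat.div_mul_le_self _ _)
      refine ⟨fun i => x i, Set.mem_iInter₂.2 (fun J hJ => ⟨x, fun i => rfl, fun k hk => ?_⟩)⟩
      exact hx k (Finset.mem_biUnion.2 ⟨J, hJ, hk⟩)
    obtain ⟨t, ht⟩ := hne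
    refine ⟨t, fun J hJ => ?_⟩
    exact Set.mem_iInter₂.1 ht J (Finset.mem_filter.2 ⟨Finset.mem_univ _, hJ⟩)
  obtain ⟨t, ht⟩ := hτ
  -- the set of blocks not strictly above `ρ`
  set D : Set (Fin m) := {y | ¬ (le ρ y ∧ y ≠ ρ)} with hD
  set a' : Fin n → ℝ := fun i => if h : blk i = ρ then t ⟨i, h⟩ else a i with ha'
  have hroot : ∀ y, ∃ c, y ∉ D → (le c y ∧ c ∉ D ∧ ∀ j, le j c → j ≠ c → j ∈ D) := by
    intro y
    by_cases hy : y ∉ D
    · obtain ⟨c, h1, h2, h3⟩ := exists_rootB H D _ y rfl hy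
      exact ⟨c, fun _ => ⟨h1, h2, h3⟩⟩
    · exact ⟨y, fun h' => absurd h' hy⟩
  choose rt hrt using hroot
  have hnotD : ∀ {y}, y ∉ D → le ρ y ∧ y ≠ ρ := fun {y} hy => by
    by_contra hcon
    exact hy hcon
  have hchild : ∀ c, c ∉ D → (∀ j, le j c → j ≠ c → j ∈ D) → ∀ j, (le j c ∧ j ≠ c) ↔ le j ρ := by
    intro c hc hcm j
    have hc' := hnotD hc
    constructor
    · rintro ⟨h1, h2⟩
      rcases H.chain c j ρ h1 hc'.1 with h3 | h3
      · exact h3
      · by_cases h4 : j = ρ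
        · rw [h4]
          exact H.refl ρ
        · exact absurd ⟨h3, h4⟩ (hcm j h1 h2)
    · intro h1
      refine ⟨H.trans _ _ _ h1 hc'.1, ?_⟩
      rintro rfl
      exact hc'.2 (H.antisymm _ _ h1 hc'.1)
  have hrec : ∀ c, ∃ x : Fin n → ℝ, c ∉ D → (∀ j, le j c → j ≠ c → j ∈ D) →
      ∀ k, ∃ z ∈ A k, (∀ i, le (blk i) ρ → z i = a' i) ∧ ∀ i, le c (blk i) → z i = x i := by
    intro c
    by_cases hc : c ∉ D ∧ (∀ j, le j c → j ≠ c → j ∈ D)
    · obtain ⟨hc, hcm⟩ := hc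
      have hc' := hnotD hc
      have hcc := hchild c hc hcm
      have hlt : ({y | le c y} : Set (Fin m)).ncard < N := by
        rw [← hN]
        apply Set.ncard_lt_ncard _ (Set.toFinite _)
        refine ⟨fun l hl => H.trans _ _ _ hc'.1 hl, fun hsub => ?_⟩
        have h1 : ρ ∈ ({y | le c y} : Set (Fin m)) := hsub (H.refl ρ)
        exact hc'.2 (H.antisymm _ _ h1 hc'.1)
      have hpe : (path le c).erase c = path le ρ := by
        ext j
        rw [Finset.mem_erase, mem_path, mem_path, ← hcc j]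
        exact And.comm
      obtain ⟨x, hx⟩ := ih _ hlt c a' rfl (by
        intro J hJ
        rw [hpe] at hJ
        obtain ⟨x, hx1, hx2⟩ := ht J hJ
        refine ⟨x, fun k hk => ?_⟩
        obtain ⟨z, hzA, hz1, hz2⟩ := hx2 k hk
        refine ⟨z, hzA, fun i hi hi' => ?_, fun i hi => hz2 i (H.trans _ _ _ hc'.1 hi)⟩
        have h1 := (hcc (blk i)).1 ⟨hi, hi'⟩
        rw [ha']
        by_cases h2 : blk i = ρ
        · simp only [dif_pos h2]
          rw [hz2 i (by rw [h2]; exact H.refl ρ)]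
          exact hx1 ⟨i, h2⟩
        · simp only [dif_neg h2]
          exact hz1 i h1 h2)
      refine ⟨x, fun _ _ k => ?_⟩
      obtain ⟨z, hzA, hz1, hz2⟩ := hx k
      refine ⟨z, hzA, fun i hi => ?_, hz2⟩
      have h1 := (hcc (blk i)).2 hi
      exact hz1 i h1.1 h1.2
    · refine ⟨0, fun h1 h2 => absurd ⟨h1, h2⟩ hc⟩
  choose X hX using hrec
  refine ⟨fun i => if h : blk i = ρ then t ⟨i, h⟩ else X (rt (blk i)) i, fun k => ?_⟩
  obtain ⟨x0, hx01, hx02⟩ := ht {k} (by rw [Finset.card_singleton, one_mul]; exact hP'r)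
  obtain ⟨z0, hz0A, hz01, hz02⟩ := hx02 k (Finset.mem_singleton_self k)
  refine ⟨fun i => if le ρ (blk i) then
    (if h : blk i = ρ then t ⟨i, h⟩ else X (rt (blk i)) i) else z0 i, ?_, ?_, ?_⟩
  · apply hP k
    intro y
    by_cases hy : le ρ y
    · by_cases hyρ : y = ρ
      · refine ⟨z0, hz0A, fun i hi => ?_⟩
        rw [hyρ] at hi
        by_cases h2 : blk i = ρ
        · rw [if_pos (by rw [h2]; exact H.refl ρ), dif_pos h2,
            hz02 i (by rw [h2]; exact H.refl ρ)]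
          exact hx01 ⟨i, h2⟩
        · rw [if_neg (fun h3 => h2 (H.antisymm _ _ hi h3))]
      · have hyD : y ∉ D := fun h' => h' ⟨hy, hyρ⟩
        obtain ⟨h1, h2, h3⟩ := hrt y hyD
        obtain ⟨z, hzA, hz1, hz2⟩ := hX (rt y) h2 h3 k
        refine ⟨z, hzA, fun i hi => ?_⟩
        by_cases h4 : le ρ (blk i)
        · rw [if_pos h4]
          by_cases h5 : blk i = ρ
          · rw [dif_pos h5, hz1 i (by rw [h5]; exact H.refl ρ), ha']
            simp only [dif_pos h5]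
          · rw [dif_neg h5]
            have h6 : blk i ∉ D := fun h' => h' ⟨h4, h5⟩
            obtain ⟨g1, g2, g3⟩ := hrt (blk i) h6
            have h7 : rt (blk i) = rt y :=
              rootB_unique H D (H.trans _ _ _ g1 hi) g2 g3 h1 h2 h3
            rw [h7]
            exact hz2 i (by rw [← h7]; exact g1)
        · rw [if_neg h4]
          have h5 : le (blk i) ρ := by
            rcases H.chain y (blk i) ρ hi hy with h6 | h6
            · exact h6
            · exact absurd h6 h4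
          have h6 : blk i ≠ ρ := fun h7 => h4 (by rw [h7]; exact H.refl ρ)
          rw [hz1 i h5, ha', hz01 i h5 h6]
          simp only [dif_neg h6]
    · refine ⟨z0, hz0A, fun i hi => ?_⟩
      rw [if_neg (fun h3 => hy (H.trans _ _ _ h3 hi))]
  · intro i hi hi'
    show (if le ρ (blk i) then _ else z0 i) = a i
    rw [if_neg (fun h3 => hi' (H.antisymm _ _ hi h3))]
    exact hz01 i hi hi'
  · intro i hi
    show (if le ρ (blk i) then _ else z0 i) = _
    rw [if_pos hi]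

/-- The Helly-type theorem for convex sets with a common block forest. -/
theorem convB {n m r : ℕ} {le : Fin m → Fin m → Prop} (H : Forest le) (blk : Fin n → Fin m)
    (hprod : ∀ x, ∏ y ∈ path le x, (bdim blk y + 1) ≤ r + 1)
    {κ : Type} [Fintype κ] (A : κ → Set (Fin n → ℝ)) (hA : ∀ k, Convex ℝ (A k))
    (hP : ∀ k x, (∀ y, ∃ z ∈ A k, ∀ i, le (blk i) y → z i = x i) → x ∈ A k)
    (hyp : ∀ J : Finset κ, J.card ≤ r + 1 → ∃ x : Fin n → ℝ, ∀ k ∈ J, x ∈ A k) :
    ∃ x : Fin n → ℝ, ∀ k, x ∈ A k := by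
  classical
  have hroot : ∀ y, ∃ c, le c y ∧ ∀ j, le j c → j = c := by
    intro y
    obtain ⟨c, h1, _, h3⟩ := exists_rootB H ∅ _ y rfl (Set.notMem_empty y)
    exact ⟨c, h1, fun j hj => by
      by_contra hne
      exact (h3 j hj hne).elim⟩
  choose rt hrt1 hrt2 using hroot
  have hx : ∀ ρ, ∃ x : Fin n → ℝ, (∀ j, le j ρ → j = ρ) →
      ∀ k, ∃ z ∈ A k, ∀ i, le ρ (blk i) → z i = x i := by
    intro ρ
    by_cases hρ : ∀ j, le j ρ → j = ρ
    · have hpe : (path le ρ).erase ρ = ∅ := by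
        ext j
        rw [Finset.mem_erase, mem_path]
        constructor
        · rintro ⟨h1, h2⟩
          exact absurd (hρ j h2) h1
        · intro h1
          exact absurd h1 (Finset.notMem_empty j)
      obtain ⟨x, hx⟩ := convB_aux H blk hprod A hA hP _ ρ 0 rfl (by
        intro J hJ
        rw [hpe, Finset.prod_empty, mul_one] at hJ
        obtain ⟨x, hx⟩ := hyp J hJ
        exact ⟨x, fun k hk => ⟨x, hx k hk, fun i hi hi' => absurd (hρ _ hi) hi', fun i _ => rfl⟩⟩)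
      refine ⟨x, fun _ k => ?_⟩
      obtain ⟨z, hz, _, hz2⟩ := hx k
      exact ⟨z, hz, hz2⟩
    · exact ⟨0, fun h' => absurd h' hρ⟩
  choose X hX using hx
  refine ⟨fun i => X (rt (blk i)) i, fun k => hP k _ (fun y => ?_)⟩
  obtain ⟨z, hz, hz2⟩ := hX (rt y) (hrt2 y) k
  refine ⟨z, hz, fun i hi => ?_⟩
  have h1 : rt (blk i) = rt y := by
    rcases H.chain y (rt (blk i)) (rt y) (H.trans _ _ _ (hrt1 _) hi) (hrt1 y) with h2 | h2
    · exact hrt2 y _ h2
    · exact (hrt2 (blk i) _ h2).symm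
  show z i = X (rt (blk i)) i
  rw [h1]
  exact hz2 i (by rw [← h1]; exact hrt1 _)

/-- Convex sets with a block forest all of whose root paths satisfy `∏ (d + 1) ≤ r + 1` have
property `Sz(r)`. -/
theorem sz_of_decomp {n m r : ℕ} {F : Set (EuclideanSpace ℝ (Fin n))} (hF : Convex ℝ F)
    (e : EuclideanSpace ℝ (Fin n) ≃ₗ[ℝ] (Fin n → ℝ)) (blk : Fin n → Fin m)
    (le : Fin m → Fin m → Prop) (H : Forest le) (hD : Decomp e blk le F)
    (hprod : ∀ x, ∏ y ∈ path le x, (bdim blk y + 1) ≤ r + 1) : Sz r F := by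
  intro s v hv
  obtain ⟨x, hx⟩ := convB H blk hprod (fun k : Fin s => {y : Fin n → ℝ | e.symm y - v k ∈ F}) (by
    intro k y1 hy1 y2 hy2 α β hα hβ hαβ
    have h1 := hF hy1 hy2 hα hβ hαβ
    have h2 : e.symm (α • y1 + β • y2) - v k =
        α • (e.symm y1 - v k) + β • (e.symm y2 - v k) := by
      have hv' : v k = α • v k + β • v k := by rw [← add_smul, hαβ, one_smul]
      conv_lhs => rw [hv']
      rw [map_add, map_smul, map_smul, smul_sub, smul_sub]
      abel
    show e.symm (α • y1 + β • y2) - v k ∈ F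
    rw [h2]
    exact h1) (by
    intro k y hy
    apply hD
    intro i
    obtain ⟨z, hz, hzj⟩ := hy i
    refine ⟨e.symm z - v k, hz, fun j hj => ?_⟩
    rw [map_sub, map_sub, LinearEquiv.apply_symm_apply, LinearEquiv.apply_symm_apply,
      Pi.sub_apply, Pi.sub_apply, hzj j hj])
    (fun J hJ => by
      obtain ⟨x, hx⟩ := hv J hJ
      refine ⟨e x, fun k hk => ?_⟩
      show e.symm (e x) - v k ∈ F
      rw [LinearEquiv.symm_apply_apply]
      exact hx k hk)
  exact ⟨e.symm x, hx⟩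

end Pool.Agent.Helper59.HD
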