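import Pool.Agent.Helper59.HD.Star

/-!
# Forests of blocks with bounded path products
-/

namespace Pool.Agent.Helper59.HD

variable {V : Type} [AddCommGroup V] [Module ℝ V]

theorem finrank_spn_le (s : Finset V) : Module.finrank ℝ (Submodule.span ℝ (s : Set V)) ≤ s.card :=
  finrank_span_finset_le_card s

/-- Indecomposable symmetric configurations of rank at least four with circuits of size at most
four. -/
theorem star_of_indec [FiniteDimensional ℝ V] (E : Set V) (hE : ∀ f ∈ E, -f ∈ E)
    (T : Submodule ℝ V) (hspan : Submodule.span ℝ {f | f ∈ E ∧ f ∈ T} = T)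
    (hI : Indec ⊥ T {f | f ∈ E ∧ f ∈ T}) (hmax : MaxFour {f | f ∈ E ∧ f ∈ T})
    (h4 : 4 ≤ Module.finrank ℝ T) : Star T {f | f ∈ E ∧ f ∈ T} := by
  classical
  have hspan' : ⊥ ⊔ spn {f | f ∈ E ∧ f ∈ T} = T := by rw [bot_sup_eq, spn_eq_span, hspan]
  have hTne : T ≠ ⊥ := by
    rintro rfl
    rw [finrank_bot] at h4
    omega
  obtain ⟨f, hfS, hf0⟩ : ∃ f ∈ {f | f ∈ E ∧ f ∈ T}, f ∉ (⊥ : Submodule ℝ V) := by
    by_contra hcon
    push Not at hcon
    apply hTne
    rw [eq_bot_iff]
    conv_lhs => rw [← hspan]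
    rw [Submodule.span_le]
    exact hcon
  obtain ⟨k2, hk2, hk2S, hk2c⟩ := pair_circ ⊥ f hf0
  have hk2S' : ∀ y, k2 y ≠ 0 → y ∈ {f | f ∈ E ∧ f ∈ T} := by
    intro y hy
    rcases hk2S y hy with rfl | rfl
    · exact hfS
    · exact ⟨hE f hfS.1, T.neg_mem hfS.2⟩
  set P : ℕ → Prop := fun m => ∃ k, Circ (⊥ : Submodule ℝ V) k ∧
    (∀ y, k y ≠ 0 → y ∈ {f | f ∈ E ∧ f ∈ T}) ∧ k.support.card = m with hP
  have hP2 : P 2 := ⟨k2, hk2, hk2S', hk2c⟩
  have hPc : ∀ m, P m → m ≤ 4 := by
    rintro m ⟨k, h1, h2, rfl⟩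
    exact hmax k h1 h2
  obtain ⟨gC, hC, hCS, hCc⟩ := Nat.findGreatest_spec (hPc 2 hP2) hP2
  have hbig : ∀ k, Circ ⊥ k → (∀ y, k y ≠ 0 → y ∈ {f | f ∈ E ∧ f ∈ T}) →
      k.support.card ≤ gC.support.card := by
    intro k h1 h2
    rw [hCc]
    exact Nat.le_findGreatest (hmax k h1 h2) ⟨k, h1, h2, rfl⟩
  have hc2 : 2 ≤ gC.support.card := by
    have := hbig k2 hk2 hk2S'
    omega
  have hcc : gC.support.card ≤ 4 := hmax gC hC hCS
  clear hCc
  set T' : Submodule ℝ V := ⊥ ⊔ spn {y | gC y ≠ 0} with hT'
  have hT'T : T' ≤ T := by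
    apply sup_le bot_le
    rw [spn_eq_span, Submodule.span_le]
    intro y hy
    exact (hCS y hy).2
  have hT'card : Module.finrank ℝ T' ≤ gC.support.card := by
    have : T' = Submodule.span ℝ ((gC.support : Finset V) : Set V) := by
      rw [hT', bot_sup_eq, spn_eq_span]
      congr 1
      ext y
      simp
    rw [this]
    exact finrank_spn_le _
  have hcontr := contract ⊥ T {f | f ∈ E ∧ f ∈ T} hspan' hI gC.support.card hbig gC hC hCS rfl hc2
  -- the largest circuit has four elements
  have hc4 : gC.support.card = 4 := by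
    by_contra hne
    have h3 : gC.support.card ≤ 3 := by omega
    obtain ⟨f', hf'S, hf'T⟩ : ∃ f ∈ {f | f ∈ E ∧ f ∈ T}, f ∉ T' := by
      by_contra hcon
      push Not at hcon
      have : T ≤ T' := by
        conv_lhs => rw [← hspan]
        rw [Submodule.span_le]
        exact hcon
      have := Submodule.finrank_mono this
      omega
    obtain ⟨k3, hk3, hk3S, hk3c⟩ := pair_circ T' f' hf'T
    have := hcontr k3 hk3 (by
      intro y hy
      rcases hk3S y hy with rfl | rfl
      · exact hf'S
      · exact ⟨hE f' hf'S.1, T.neg_mem hf'S.2⟩)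
    rw [hk3c] at this
    rcases max_choice 1 (gC.support.card - 2) with h' | h' <;> rw [h'] at this <;> omega
  obtain ⟨a, ha⟩ := quad_of_circ hC hCS hc4
  have hT'3 : Module.finrank ℝ T' ≤ 3 := by
    have h1 : T' = Submodule.span ℝ (({a 0, a 1, a 2} : Finset V) : Set V) := by
      apply le_antisymm
      · intro w hw
        obtain ⟨x, hx⟩ := ha.span w hw
        rw [hx, Fin.sum_univ_four, ha.sum4]
        have h0 : a 0 ∈ Submodule.span ℝ (({a 0, a 1, a 2} : Finset V) : Set V) :=
          Submodule.subset_span (by simp)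
        have h1 : a 1 ∈ Submodule.span ℝ (({a 0, a 1, a 2} : Finset V) : Set V) :=
          Submodule.subset_span (by simp)
        have h2 : a 2 ∈ Submodule.span ℝ (({a 0, a 1, a 2} : Finset V) : Set V) :=
          Submodule.subset_span (by simp)
        exact Submodule.add_mem _ (Submodule.add_mem _ (Submodule.add_mem _
          (Submodule.smul_mem _ _ h0) (Submodule.smul_mem _ _ h1)) (Submodule.smul_mem _ _ h2))
          (Submodule.smul_mem _ _ (Submodule.sub_mem _ (Submodule.sub_mem _
            (Submodule.neg_mem _ h0) h1) h2))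
      · rw [Submodule.span_le]
        intro y hy
        simp only [Finset.coe_insert, Finset.coe_singleton, Set.mem_insert_iff,
          Set.mem_singleton_iff] at hy
        rcases hy with rfl | rfl | rfl
        · exact ha.memT 0
        · exact ha.memT 1
        · exact ha.memT 2
    rw [h1]
    exact (finrank_spn_le _).trans Finset.card_le_three
  -- the structure modulo `T'`
  have hT'span : T' ⊔ spn {f | f ∈ E ∧ f ∈ T} = T := by
    apply le_antisymm
    · apply sup_le hT'T
      rw [spn_eq_span, Submodule.span_le]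
      intro y hy
      exact hy.2
    · conv_lhs => rw [← hspan']
      exact sup_le_sup_right bot_le _
  have hcontr2 : ∀ k, Circ T' k → (∀ y, k y ≠ 0 → y ∈ {f | f ∈ E ∧ f ∈ T}) →
      k.support.card ≤ 2 := by
    intro k hk hkS
    have := hcontr k hk hkS
    rw [hc4] at this
    exact this.trans (by norm_num)
  obtain ⟨ι, β, hι, hβ, b, blk, le, hle, hsz, hdrop, hind, hsp, hcov⟩ :=
    forest E hE _ T' T 2 hT'T rfl hT'span (by norm_num) hcontr2
  have hcov' : ∀ f ∈ {f | f ∈ E ∧ f ∈ T}, f ∈ T' ∨ ∃ j, f ∈ T' ⊔ Submodule.span ℝ {b j} := by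
    intro f hf
    rcases hcov f hf with h' | ⟨x, hx⟩
    · exact Or.inl h'
    · right
      have h1 := hsz x
      have h2 : (blk ⁻¹' {x}).ncard = 1 := by omega
      obtain ⟨j, hj⟩ := Set.ncard_eq_one.1 h2
      refine ⟨j, ?_⟩
      have h3 : {j | le (blk j) x} ⊆ {j} := by
        intro i hi
        have h4 : blk i = x := by
          by_contra hne
          have := hdrop _ _ hi hne
          have := hsz (blk i)
          omega
        rw [← hj]
        exact h4
      exact (sup_le_sup_left (Submodule.span_mono ((Set.image_mono h3).trans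
        (by rw [Set.image_singleton]))) T') hx
  have hj0 : Nonempty ι := by
    by_contra hcon
    rw [not_nonempty_iff] at hcon
    rw [Set.range_eq_empty, Submodule.span_empty, sup_bot_eq] at hsp
    rw [hsp] at hT'3
    omega
  obtain ⟨j0⟩ := hj0
  exact star_of_quad hmax ha (fun f hf => hf.2) hspan hI j0 b hind hsp hcov'

/-- A basis of `T` divided into blocks forming a rooted forest, such that all vectors of `S` are
supported on root paths; the product of the numbers (size + 1) along each path is at most `R`. -/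
def PForest (T : Submodule ℝ V) (S : Set V) (R : ℕ) : Prop :=
  ∃ (ι β : Type) (_ : Fintype ι) (_ : Fintype β) (b : ι → V) (blk : ι → β) (le : β → β → Prop),
    ((∀ i, le i i) ∧ (∀ i j, le i j → le j i → i = j) ∧ (∀ i j k, le i j → le j k → le i k) ∧
      (∀ i j k, le j i → le k i → le j k ∨ le k j)) ∧
    (∀ (x : β) (s : Finset β), (∀ y ∈ s, le y x) → ∏ y ∈ s, ((blk ⁻¹' {y}).ncard + 1) ≤ R) ∧
    (∀ c : ι → ℝ, ∑ i, c i • b i = 0 → c = 0) ∧ Submodule.span ℝ (Set.range b) = T ∧
    ∀ f ∈ S, f = 0 ∨ ∃ x, f ∈ Submodule.span ℝ (b '' {j | le (blk j) x})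

theorem pforest_star {T : Submodule ℝ V} {S : Set V} (h : Star T S) : PForest T S 4 := by
  classical
  obtain ⟨κ, hκ, d, e, hind, hspan, hcov⟩ := h
  refine ⟨Option κ, Option κ, inferInstance, inferInstance, fun o => o.elim d e, id,
    fun x y => x = none ∨ x = y, ⟨?_, ?_, ?_, ?_⟩, ?_, ?_, ?_, ?_⟩
  · intro i
    exact Or.inr rfl
  · intro i j h1 h2
    rcases h1 with h1 | h1
    · rcases h2 with h2 | h2
      · rw [h1, h2]
      · exact h2.symm
    · exact h1
  · rintro i j k (rfl | rfl) h2
    · exact Or.inl rfl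
    · exact h2
  · rintro i j k (rfl | rfl) h2
    · exact Or.inl (Or.inl rfl)
    · exact Or.inr h2
  · intro x s hs
    have h1 : ∀ y : Option κ, (id ⁻¹' {y} : Set (Option κ)).ncard = 1 := by
      intro y
      rw [Set.preimage_id, Set.ncard_singleton]
    have h2 : s ⊆ {none, x} := by
      intro y hy
      rcases hs y hy with rfl | rfl <;> simp
    simp only [h1]
    rw [Finset.prod_const]
    have h3 : s.card ≤ 2 := (Finset.card_le_card h2).trans Finset.card_le_two
    calc (1 + 1) ^ s.card ≤ (1 + 1) ^ 2 := Nat.pow_le_pow_right (by norm_num) h3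
      _ = 4 := by norm_num
  · intro c hc
    rw [Fintype.sum_option] at hc
    obtain ⟨h1, h2⟩ := hind (c none) (fun k => c (some k)) hc
    ext i
    rcases i with _ | i
    · exact h1
    · exact congrFun h2 i
  · rw [← hspan]
    congr 1
    ext v
    constructor
    · rintro ⟨o, rfl⟩
      rcases o with _ | o
      · exact Or.inl rfl
      · exact Or.inr ⟨o, rfl⟩
    · rintro (rfl | ⟨o, rfl⟩)
      · exact ⟨none, rfl⟩
      · exact ⟨some o, rfl⟩
  · intro f hf
    right
    obtain ⟨k, hk⟩ := hcov f hf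
    refine ⟨some k, Submodule.span_mono ?_ hk⟩
    rintro v (rfl | rfl)
    · exact ⟨none, Or.inl rfl, rfl⟩
    · exact ⟨some k, Or.inr rfl, rfl⟩

theorem pforest_single [FiniteDimensional ℝ V] {T : Submodule ℝ V} {S : Set V} {R : ℕ}
    (hS : ∀ f ∈ S, f ∈ T) (hR : Module.finrank ℝ T + 1 ≤ R) : PForest T S R := by
  classical
  set B := Module.finBasis ℝ T with hB
  refine ⟨Fin (Module.finrank ℝ T), Unit, inferInstance, inferInstance, fun i => (B i : V),
    fun _ => (), fun _ _ => True, ⟨fun _ => trivial, fun _ _ _ _ => rfl, fun _ _ _ _ _ => trivial,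
      fun _ _ _ _ _ => Or.inl trivial⟩, ?_, ?_, ?_, ?_⟩
  · intro x s _
    have h1 : s ⊆ {()} := fun y _ => by simp
    have h2 : ∀ y : Unit, ((fun _ => () : Fin (Module.finrank ℝ T) → Unit) ⁻¹' {y}).ncard =
        Module.finrank ℝ T := by
      intro y
      have : ((fun _ => () : Fin (Module.finrank ℝ T) → Unit) ⁻¹' {y}) = Set.univ := by
        ext i
        simp
      rw [this, Set.ncard_univ, Nat.card_eq_fintype_card, Fintype.card_fin]
    simp only [h2]
    rw [Finset.prod_const]
    have h3 : s.card ≤ 1 := (Finset.card_le_card h1).trans (by simp)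
    calc (Module.finrank ℝ T + 1) ^ s.card ≤ (Module.finrank ℝ T + 1) ^ 1 :=
          Nat.pow_le_pow_right (by omega) h3
      _ ≤ R := by rw [pow_one]; exact hR
  · intro c hc
    have h1 : ∑ i, c i • B i = 0 := by
      apply Subtype.ext
      rw [Submodule.coe_sum]
      simpa using hc
    ext i
    exact Fintype.linearIndependent_iff.1 B.linearIndependent c h1 i
  · have h1 : Set.range (fun i => (B i : V)) = T.subtype '' Set.range B := by
      rw [← Set.range_comp]
      rfl
    rw [h1, ← Submodule.map_span, B.span_eq, Submodule.map_top, Submodule.range_subtype]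
  · intro f hf
    right
    refine ⟨(), ?_⟩
    have h1 : (fun i => (B i : V)) '' {j | True} = T.subtype '' Set.range B := by
      rw [← Set.range_comp]
      ext v
      simp
    show f ∈ Submodule.span ℝ ((fun i => (B i : V)) '' {j | True})
    rw [h1, ← Submodule.map_span, B.span_eq, Submodule.map_top, Submodule.range_subtype]
    exact hS f hf

theorem pforest_sum {T1 T2 : Submodule ℝ V} {S : Set V} {R : ℕ} (hinf : T1 ⊓ T2 = ⊥)
    (hS : ∀ f ∈ S, f ∈ T1 ∨ f ∈ T2) (H1 : PForest T1 {f | f ∈ S ∧ f ∈ T1} R)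
    (H2 : PForest T2 {f | f ∈ S ∧ f ∈ T2} R) : PForest (T1 ⊔ T2) S R := by
  classical
  obtain ⟨ι1, β1, hι1, hβ1, b1, blk1, le1, ⟨r1, a1, t1, c1⟩, k1, i1, s1, e1⟩ := H1
  obtain ⟨ι2, β2, hι2, hβ2, b2, blk2, le2, ⟨r2, a2, t2, c2⟩, k2, i2, s2, e2⟩ := H2
  have hnl : ∀ x, (Sum.map blk1 blk2 ⁻¹' {Sum.inl x}).ncard = (blk1 ⁻¹' {x}).ncard := by
    intro x
    rw [← Set.ncard_image_of_injective (blk1 ⁻¹' {x}) (Sum.inl_injective (α := ι1) (β := ι2))]
    congr 1
    ext i
    rcases i with i | i
    · constructor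
      · intro hi
        exact ⟨i, Sum.inl_injective hi, rfl⟩
      · rintro ⟨j, hj, hji⟩
        rw [← hji]
        exact congrArg Sum.inl hj
    · constructor
      · intro hi
        exact absurd hi (by simp)
      · rintro ⟨j, _, hji⟩
        exact absurd hji (by simp)
  have hnr : ∀ x, (Sum.map blk1 blk2 ⁻¹' {Sum.inr x}).ncard = (blk2 ⁻¹' {x}).ncard := by
    intro x
    rw [← Set.ncard_image_of_injective (blk2 ⁻¹' {x}) (Sum.inr_injective (α := ι1) (β := ι2))]
    congr 1
    ext i
    rcases i with i | i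
    · constructor
      · intro hi
        exact absurd hi (by simp)
      · rintro ⟨j, _, hji⟩
        exact absurd hji (by simp)
    · constructor
      · intro hi
        exact ⟨i, Sum.inr_injective hi, rfl⟩
      · rintro ⟨j, hj, hji⟩
        rw [← hji]
        exact congrArg Sum.inr hj
  refine ⟨ι1 ⊕ ι2, β1 ⊕ β2, inferInstance, inferInstance, Sum.elim b1 b2, Sum.map blk1 blk2,
    sumLe le1 le2, ⟨?_, ?_, ?_, ?_⟩, ?_, ?_, ?_, ?_⟩
  · rintro (i | i)
    · exact r1 i
    · exact r2 i
  · rintro (i | i) (j | j) hij hji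
    · rw [a1 i j hij hji]
    · exact hij.elim
    · exact hij.elim
    · rw [a2 i j hij hji]
  · rintro (i | i) (j | j) (k | k) hij hjk
    · exact t1 i j k hij hjk
    · exact hjk.elim
    · exact hij.elim
    · exact hij.elim
    · exact hij.elim
    · exact hij.elim
    · exact hjk.elim
    · exact t2 i j k hij hjk
  · rintro (i | i) (j | j) (k | k) hij hjk
    · exact c1 i j k hij hjk
    · exact hjk.elim
    · exact hij.elim
    · exact hij.elim
    · exact hij.elim
    · exact hij.elim
    · exact hjk.elim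
    · exact c2 i j k hij hjk
  · intro x s hs
    rcases x with x | x
    · set s' : Finset β1 := Finset.univ.filter (fun y => Sum.inl y ∈ s) with hs'
      have h1 : s = s'.map ⟨Sum.inl, Sum.inl_injective⟩ := by
        ext y
        rcases y with y | y
        · simp [hs']
        · constructor
          · intro hy
            exact (hs _ hy).elim
          · intro hy
            simp at hy
      rw [h1, Finset.prod_map]
      simp only [Function.Embedding.coeFn_mk, hnl]
      apply k1 x s'
      intro y hy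
      exact hs _ (Finset.mem_filter.1 hy).2
    · set s' : Finset β2 := Finset.univ.filter (fun y => Sum.inr y ∈ s) with hs'
      have h1 : s = s'.map ⟨Sum.inr, Sum.inr_injective⟩ := by
        ext y
        rcases y with y | y
        · constructor
          · intro hy
            exact (hs _ hy).elim
          · intro hy
            simp at hy
        · simp [hs']
      rw [h1, Finset.prod_map]
      simp only [Function.Embedding.coeFn_mk, hnr]
      apply k2 x s'
      intro y hy
      exact hs _ (Finset.mem_filter.1 hy).2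
  · intro c hc
    rw [Fintype.sum_sum_type] at hc
    simp only [Sum.elim_inl, Sum.elim_inr] at hc
    have hm1 : ∑ i, c (Sum.inl i) • b1 i ∈ T1 := by
      rw [← s1]
      exact Submodule.sum_mem _ (fun i _ => Submodule.smul_mem _ _
        (Submodule.subset_span (Set.mem_range_self i)))
    have hm2 : ∑ i, c (Sum.inr i) • b2 i ∈ T2 := by
      rw [← s2]
      exact Submodule.sum_mem _ (fun i _ => Submodule.smul_mem _ _
        (Submodule.subset_span (Set.mem_range_self i)))
    have h1 : ∑ i, c (Sum.inl i) • b1 i = 0 := by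
      have : ∑ i, c (Sum.inl i) • b1 i ∈ T1 ⊓ T2 := by
        refine ⟨hm1, ?_⟩
        have : ∑ i, c (Sum.inl i) • b1 i = -∑ i, c (Sum.inr i) • b2 i :=
          eq_neg_of_add_eq_zero_left hc
        rw [this]
        exact T2.neg_mem hm2
      rw [hinf] at this
      exact (Submodule.mem_bot ℝ).1 this
    rw [h1, zero_add] at hc
    have g1 := i1 _ h1
    have g2 := i2 _ hc
    ext i
    rcases i with i | i
    · exact congrFun g1 i
    · exact congrFun g2 i
  · rw [Set.Sum.elim_range, Submodule.span_union, s1, s2]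
  · intro f hf
    rcases hS f hf with h' | h'
    · rcases e1 f ⟨hf, h'⟩ with h0 | ⟨x, hx⟩
      · exact Or.inl h0
      · right
        refine ⟨Sum.inl x, Submodule.span_mono ?_ hx⟩
        rintro _ ⟨j, hj, rfl⟩
        exact ⟨Sum.inl j, hj, rfl⟩
    · rcases e2 f ⟨hf, h'⟩ with h0 | ⟨x, hx⟩
      · exact Or.inl h0
      · right
        refine ⟨Sum.inr x, Submodule.span_mono ?_ hx⟩
        rintro _ ⟨j, hj, rfl⟩
        exact ⟨Sum.inr j, hj, rfl⟩

/-- Symmetric configurations with circuits of size at most four. -/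
theorem pforest_four [FiniteDimensional ℝ V] (E : Set V) (hE : ∀ f ∈ E, -f ∈ E) : ∀ (n : ℕ)
    (T : Submodule ℝ V), Module.finrank ℝ T = n → Submodule.span ℝ {f | f ∈ E ∧ f ∈ T} = T →
    MaxFour {f | f ∈ E ∧ f ∈ T} → PForest T {f | f ∈ E ∧ f ∈ T} 4 := by
  classical
  intro n
  induction n using Nat.strong_induction_on with
  | _ n ih =>
    intro T hn hspan hmax
    by_cases hsmall : Module.finrank ℝ T ≤ 3
    · exact pforest_single (fun f hf => hf.2) (by omega)
    by_cases hI : Indec ⊥ T {f | f ∈ E ∧ f ∈ T}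
    · exact pforest_star (star_of_indec E hE T hspan hI hmax (by omega))
    · unfold Indec at hI
      push Not at hI
      obtain ⟨T1, T2, hsup, hinf, hcov, h1U, h2U⟩ := hI
      have hT1T : T1 ≤ T := by rw [← hsup]; exact le_sup_left
      have hT2T : T2 ≤ T := by rw [← hsup]; exact le_sup_right
      have hT1ne : T1 ≠ T := by
        rintro rfl
        apply h2U
        rw [← hinf]
        exact (inf_eq_right.2 hT2T).symm
      have hT2ne : T2 ≠ T := by
        rintro rfl
        apply h1U
        rw [← hinf]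
        exact (inf_eq_left.2 hT1T).symm
      have f1 : Module.finrank ℝ T1 < Module.finrank ℝ T :=
        Submodule.finrank_lt_finrank_of_lt (lt_of_le_of_ne hT1T hT1ne)
      have f2 : Module.finrank ℝ T2 < Module.finrank ℝ T :=
        Submodule.finrank_lt_finrank_of_lt (lt_of_le_of_ne hT2T hT2ne)
      have hcover : T ≤ Submodule.span ℝ {f | f ∈ E ∧ f ∈ T1} ⊔
          Submodule.span ℝ {f | f ∈ E ∧ f ∈ T2} := by
        conv_lhs => rw [← hspan]
        rw [Submodule.span_le]
        intro f hf
        rcases hcov f hf with h | h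
        · exact (le_sup_left : Submodule.span ℝ {f | f ∈ E ∧ f ∈ T1} ≤ _)
            (Submodule.subset_span ⟨hf.1, h⟩)
        · exact (le_sup_right : Submodule.span ℝ {f | f ∈ E ∧ f ∈ T2} ≤ _)
            (Submodule.subset_span ⟨hf.1, h⟩)
      have hle1 : Submodule.span ℝ {f | f ∈ E ∧ f ∈ T1} ≤ T1 := by
        rw [Submodule.span_le]
        intro y hy
        exact hy.2
      have hle2 : Submodule.span ℝ {f | f ∈ E ∧ f ∈ T2} ≤ T2 := by
        rw [Submodule.span_le]
        intro y hy
        exact hy.2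
      have hsp1 : Submodule.span ℝ {f | f ∈ E ∧ f ∈ T1} = T1 := by
        apply le_antisymm hle1
        intro x hx
        obtain ⟨a, ha, b, hb, hab⟩ := Submodule.mem_sup.1 (hcover (hT1T hx))
        have hb0 : b = 0 := by
          have : b ∈ T1 ⊓ T2 := by
            refine ⟨?_, hle2 hb⟩
            have : b = x - a := by rw [← hab]; abel
            rw [this]
            exact T1.sub_mem hx (hle1 ha)
          rw [hinf] at this
          exact (Submodule.mem_bot ℝ).1 this
        rw [← hab, hb0, add_zero]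
        exact ha
      have hsp2 : Submodule.span ℝ {f | f ∈ E ∧ f ∈ T2} = T2 := by
        apply le_antisymm hle2
        intro x hx
        obtain ⟨a, ha, b, hb, hab⟩ := Submodule.mem_sup.1 (hcover (hT2T hx))
        have ha0 : a = 0 := by
          have : a ∈ T1 ⊓ T2 := by
            refine ⟨hle1 ha, ?_⟩
            have : a = x - b := by rw [← hab]; abel
            rw [this]
            exact T2.sub_mem hx (hle2 hb)
          rw [hinf] at this
          exact (Submodule.mem_bot ℝ).1 this
        rw [← hab, ha0, zero_add]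
        exact hb
      have H1 := ih _ (by omega) T1 rfl hsp1 (fun k hk hkS =>
        hmax k hk (fun y hy => ⟨(hkS y hy).1, hT1T (hkS y hy).2⟩))
      have H2 := ih _ (by omega) T2 rfl hsp2 (fun k hk hkS =>
        hmax k hk (fun y hy => ⟨(hkS y hy).1, hT2T (hkS y hy).2⟩))
      rw [← hsup] at hcov ⊢
      have e1 : {f | f ∈ {f | f ∈ E ∧ f ∈ T1 ⊔ T2} ∧ f ∈ T1} = {f | f ∈ E ∧ f ∈ T1} := by
        ext f
        constructor
        · rintro ⟨⟨h1, _⟩, h2⟩
          exact ⟨h1, h2⟩
        · rintro ⟨h1, h2⟩
          exact ⟨⟨h1, (le_sup_left : T1 ≤ T1 ⊔ T2) h2⟩, h2⟩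
      have e2 : {f | f ∈ {f | f ∈ E ∧ f ∈ T1 ⊔ T2} ∧ f ∈ T2} = {f | f ∈ E ∧ f ∈ T2} := by
        ext f
        constructor
        · rintro ⟨⟨h1, _⟩, h2⟩
          exact ⟨h1, h2⟩
        · rintro ⟨h1, h2⟩
          exact ⟨⟨h1, (le_sup_right : T2 ≤ T1 ⊔ T2) h2⟩, h2⟩
      apply pforest_sum hinf hcov
      · rw [e1]
        exact H1
      · rw [e2]
        exact H2

end Pool.Agent.Helper59.HD
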