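import Pool.Agent.Helper59.HD.MainB
import Pool.Agent.Helper59.HD.ConvB
import Pool.Agent.Helper59.HD.PForest

/-!
# Classification of centrally symmetric convex bodies with property `Sz(r)`, `r ≤ 3`
-/

open scoped RealInnerProductSpace Topology

namespace Pool.Agent.Helper59.HD

/-- From a basis adapted to the smooth normals to coordinates. -/
theorem decomp_of_basis {n : ℕ} {F : Set (EuclideanSpace ℝ (Fin n))} (h : SymBody F) {ι β : Type}
    [Fintype ι] [Fintype β] (b : ι → EuclideanSpace ℝ (Fin n)) (blk : ι → β)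
    (le : β → β → Prop) (h1 : ∀ i, le i i) (h2 : ∀ i j, le i j → le j i → i = j)
    (h3 : ∀ i j k, le i j → le j k → le i k) (h4 : ∀ i j k, le j i → le k i → le j k ∨ le k j)
    (hind : ∀ c : ι → ℝ, ∑ i, c i • b i = 0 → c = 0)
    (hsp : Submodule.span ℝ (Set.range b) = ⊤)
    (hcov : ∀ g ∈ Nrm F, g = 0 ∨ ∃ x, g ∈ Submodule.span ℝ (b '' {j | le (blk j) x})) :
    ∃ (m : ℕ) (e : EuclideanSpace ℝ (Fin n) ≃ₗ[ℝ] (Fin n → ℝ)) (blk' : Fin n → Fin m)
      (le' : Fin m → Fin m → Prop) (τ : Fin m ≃ β), Forest le' ∧ Decomp e blk' le' F ∧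
      (∀ x, bdim blk' x = (blk ⁻¹' {τ x}).ncard) ∧ ∀ x y, le' x y ↔ le (τ x) (τ y) := by
  classical
  have hli : LinearIndependent ℝ b := Fintype.linearIndependent_iff.2 (fun c hc i =>
    congrFun (hind c hc) i)
  have hcard : Fintype.card ι = n := by
    have := Module.finrank_eq_card_basis (Module.Basis.mk hli hsp.ge)
    rw [finrank_euclideanSpace_fin] at this
    exact this.symm
  set σ : Fin n ≃ ι := (Fintype.equivFinOfCardEq hcard).symm with hσ
  set L : EuclideanSpace ℝ (Fin n) →ₗ[ℝ] (Fin n → ℝ) :=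
    { toFun := fun x i => ⟪b (σ i), x⟫
      map_add' := fun x y => by
        ext i
        simp [inner_add_right]
      map_smul' := fun t x => by
        ext i
        simp [inner_smul_right] } with hL
  have hLapp : ∀ x i, L x i = ⟪b (σ i), x⟫ := fun x i => rfl
  have hperp : ∀ x, (∀ i, ⟪b (σ i), x⟫ = 0) → x = 0 := by
    intro x hx
    have h9 : x ∈ (Submodule.span ℝ (Set.range b))ᗮ := by
      rw [Submodule.mem_orthogonal]
      intro u hu
      refine Submodule.span_induction (p := fun u _ => ⟪u, x⟫ = 0) ?_ ?_ ?_ ?_ hu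
      · rintro _ ⟨i, rfl⟩
        have := hx (σ.symm i)
        rwa [Equiv.apply_symm_apply] at this
      · exact inner_zero_left _
      · intro u v _ _ hu hv
        rw [inner_add_left, hu, hv, add_zero]
      · intro a u _ hu
        rw [inner_smul_left, hu, mul_zero]
    rw [hsp, Submodule.top_orthogonal_eq_bot] at h9
    exact (Submodule.mem_bot ℝ).1 h9
  have hinj : Function.Injective L := by
    intro x y hxy
    have : x - y = 0 := hperp _ (fun i => by
      have := congrFun hxy i
      rw [hLapp, hLapp] at this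
      rw [inner_sub_right, this, sub_self])
    exact sub_eq_zero.1 this
  set e : EuclideanSpace ℝ (Fin n) ≃ₗ[ℝ] (Fin n → ℝ) := L.linearEquivOfInjective hinj (by
    rw [finrank_euclideanSpace_fin, Module.finrank_fin_fun]) with he
  have heapp : ∀ x i, e x i = ⟪b (σ i), x⟫ := fun x i => rfl
  set m := Fintype.card β with hm
  set τ : Fin m ≃ β := (Fintype.equivFin β).symm with hτ
  refine ⟨m, e, fun i => τ.symm (blk (σ i)), fun x y => le (τ x) (τ y), τ,
    ⟨fun x => h1 _, fun x y hxy hyx => τ.injective (h2 _ _ hxy hyx),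
      fun x y z hxy hyz => h3 _ _ _ hxy hyz, fun x y z hyx hzx => h4 _ _ _ hyx hzx⟩, ?_, ?_,
    fun x y => Iff.rfl⟩
  · intro x hx
    rw [h.mem_iff]
    by_contra hcon
    push Not at hcon
    obtain ⟨g, hg, hg1⟩ := exists_nrm h x hcon
    rcases hcov g hg with hgb | ⟨i, hi⟩
    · rw [hgb, inner_zero_left] at hg1
      linarith
    · obtain ⟨z, hz, hzj⟩ := hx (τ.symm i)
      have h10 : ⟪g, z - x⟫ = 0 := by
        refine Submodule.span_induction (p := fun u _ => ⟪u, z - x⟫ = 0) ?_ ?_ ?_ ?_ hi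
        · rintro _ ⟨j, hj, rfl⟩
          have h11 := hzj (σ.symm j) (by
            show le (τ (τ.symm (blk (σ (σ.symm j))))) (τ (τ.symm i))
            rw [Equiv.apply_symm_apply, Equiv.apply_symm_apply, Equiv.apply_symm_apply]
            exact hj)
          rw [heapp, heapp, Equiv.apply_symm_apply] at h11
          rw [inner_sub_right, h11, sub_self]
        · exact inner_zero_left _
        · intro u v _ _ hu hv
          rw [inner_add_left, hu, hv, add_zero]
        · intro a u _ hu
          rw [inner_smul_left, hu, mul_zero]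
      rw [inner_sub_right] at h10
      have h12 := nrm_le h hg z
      have h13 := (h.mem_iff z).1 hz
      linarith
  · intro x
    have h9 : (blk ⁻¹' {τ x}) = σ '' {i | τ.symm (blk (σ i)) = x} := by
      ext j
      constructor
      · intro hj
        refine ⟨σ.symm j, ?_, σ.apply_symm_apply j⟩
        show τ.symm (blk (σ (σ.symm j))) = x
        rw [σ.apply_symm_apply, Equiv.symm_apply_eq]
        exact hj
      · rintro ⟨i, hi, rfl⟩
        show blk (σ i) = τ x
        rw [← Equiv.symm_apply_eq]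
        exact hi
    rw [h9, Set.ncard_image_of_injective _ σ.injective]
    unfold bdim
    rw [← Set.ncard_coe_finset]
    congr 1
    ext i
    simp

/-- Necessity for `r = 3`, bodies symmetric about the origin. -/
theorem product_three {n : ℕ} {F : Set (EuclideanSpace ℝ (Fin n))} (h : SymBody F)
    (hSz : Sz 3 F) :
    ∃ (m : ℕ) (e : EuclideanSpace ℝ (Fin n) ≃ₗ[ℝ] (Fin n → ℝ)) (blk : Fin n → Fin m)
      (le : Fin m → Fin m → Prop), Forest le ∧ Decomp e blk le F ∧
      ∀ x, ∏ y ∈ path le x, (bdim blk y + 1) ≤ 3 + 1 := by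
  classical
  have htop : {f | f ∈ Nrm F ∧ f ∈ (⊤ : Submodule ℝ (EuclideanSpace ℝ (Fin n)))} = Nrm F := by
    ext f
    exact ⟨fun hf => hf.1, fun hf => ⟨hf, trivial⟩⟩
  obtain ⟨ι, β, hι, hβ, b, blk, le, ⟨h1, h2, h3, h4⟩, hprod, hind, hsp, hcov⟩ :=
    pforest_four (Nrm F) (fun f hf => nrm_neg h hf) _ ⊤ rfl (by rw [htop]; exact nrm_span h) (by
      intro k hk hkS
      exact circ_le h (by norm_num) hSz k hk (fun y hy => (hkS y hy).1))
  rw [htop] at hcov
  obtain ⟨m, e, blk', le', τ, hF, hD, hb, hl⟩ :=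
    decomp_of_basis h b blk le h1 h2 h3 h4 hind hsp hcov
  refine ⟨m, e, blk', le', hF, hD, fun x => ?_⟩
  have h5 := hprod (τ x) ((path le' x).map τ.toEmbedding) (by
    intro y hy
    obtain ⟨y', hy', rfl⟩ := Finset.mem_map.1 hy
    exact (hl _ _).1 (mem_path.1 hy'))
  rw [Finset.prod_map] at h5
  calc ∏ y ∈ path le' x, (bdim blk' y + 1) =
      ∏ y ∈ path le' x, ((blk ⁻¹' {τ.toEmbedding y}).ncard + 1) := by
        exact Finset.prod_congr rfl (fun y _ => by rw [hb y]; rfl)
    _ ≤ 3 + 1 := h5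

/-- Necessity for `r ≤ 3`. -/
theorem product_le_three {n r : ℕ} (hr : 1 ≤ r) (hr3 : r ≤ 3)
    {F : Set (EuclideanSpace ℝ (Fin n))} (h : SymBody F) (hSz : Sz r F) :
    ∃ (m : ℕ) (e : EuclideanSpace ℝ (Fin n) ≃ₗ[ℝ] (Fin n → ℝ)) (blk : Fin n → Fin m)
      (le : Fin m → Fin m → Prop), Forest le ∧ Decomp e blk le F ∧
      ∀ x, ∏ y ∈ path le x, (bdim blk y + 1) ≤ r + 1 := by
  classical
  by_cases h3 : r = 3
  · subst h3
    exact product_three h hSz
  · obtain ⟨m, e, blk, le, hF, hD, hb, hdrop⟩ := decomp_of_symBody hr h hSz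
    refine ⟨m, e, blk, le, hF, hD, fun x => ?_⟩
    have h4 : path le x = {x} := by
      ext y
      rw [mem_path, Finset.mem_singleton]
      constructor
      · intro hy
        by_contra hne
        have h5 := hdrop y x hy hne
        have h6 := (hb x).1
        have h7 := (hb y).2
        omega
      · rintro rfl
        exact hF.refl y
    rw [h4, Finset.prod_singleton]
    have := (hb x).2
    omega

end Pool.Agent.Helper59.HD
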