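import Pool.Agent.Helper59.HD.Link

/-!
# Circuits given by families of vectors
-/

namespace Pool.Agent.Helper59.HD

variable {V : Type} [AddCommGroup V] [Module ℝ V]

/-- The scalar multiples of the elements of `S`. -/
def Gs (S : Set V) : Set V := {v | ∃ f ∈ S, ∃ t : ℝ, v = t • f}

theorem Gs.smul {S : Set V} {v : V} (hv : v ∈ Gs S) (t : ℝ) : t • v ∈ Gs S := by
  obtain ⟨f, hf, s, rfl⟩ := hv
  exact ⟨f, hf, t * s, by rw [smul_smul]⟩

theorem Gs.of {S : Set V} {v : V} (hv : v ∈ S) : v ∈ Gs S := ⟨v, hv, 1, by rw [one_smul]⟩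

/-- The formal combination of a family. -/
noncomputable def fc {ι : Type} [Fintype ι] (f : ι → V) (a : ι → ℝ) : V →₀ ℝ :=
  ∑ i, Finsupp.single (f i) (a i)

theorem sm_fc {ι : Type} [Fintype ι] (f : ι → V) (a : ι → ℝ) : sm (fc f a) = ∑ i, a i • f i := by
  unfold fc
  rw [map_sum]
  exact Finset.sum_congr rfl (fun i _ => sm_single _ _)

omit [Module ℝ V] in
theorem fc_val {ι : Type} [Fintype ι] {f : ι → V} (hf : Function.Injective f) (a : ι → ℝ) (i : ι) :
    fc f a (f i) = a i := by
  classical
  unfold fc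
  rw [Finsupp.finsetSum_apply, Finset.sum_eq_single i]
  · rw [Finsupp.single_eq_same]
  · intro j _ hji
    rw [Finsupp.single_apply, if_neg]
    intro h'
    exact hji (hf h')
  · intro h'
    exact absurd (Finset.mem_univ i) h'

omit [Module ℝ V] in
theorem fc_out {ι : Type} [Fintype ι] (f : ι → V) (a : ι → ℝ) (y : V) (hy : ∀ i, f i ≠ y) :
    fc f a y = 0 := by
  classical
  unfold fc
  rw [Finsupp.finsetSum_apply]
  apply Finset.sum_eq_zero
  intro i _
  rw [Finsupp.single_apply, if_neg (hy i)]

/-- A family with exactly one relation up to multiples, all of whose coefficients are nonzero, is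
not longer than the circuits. -/
theorem circ_fam {S : Set V} {c : ℕ} (hc : 2 ≤ c)
    (hmax : ∀ k : V →₀ ℝ, Circ ⊥ k → (∀ y, k y ≠ 0 → y ∈ S) → k.support.card ≤ c)
    {ι : Type} [Fintype ι] (v : ι → V) (hv : ∀ i, v i ∈ Gs S) (x : ι → ℝ) (hx : ∀ i, x i ≠ 0)
    (hrel : ∑ i, x i • v i = 0)
    (hmin : ∀ y : ι → ℝ, ∑ i, y i • v i = 0 → ∃ t : ℝ, y = t • x) : Fintype.card ι ≤ c := by
  classical
  by_contra hlt
  push Not at hlt
  choose f hfS t ht using hv
  have h3 : 3 ≤ Fintype.card ι := by omega
  have hother : ∀ i j : ι, ∃ l, l ≠ i ∧ l ≠ j := by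
    intro i j
    have h4 : (({i, j} : Finset ι)).card < (Finset.univ : Finset ι).card := by
      have := Finset.card_le_two (a := i) (b := j)
      rw [Finset.card_univ]
      omega
    obtain ⟨l, _, hl⟩ := Finset.exists_mem_notMem_of_card_lt_card h4
    rw [Finset.mem_insert, Finset.mem_singleton, not_or] at hl
    exact ⟨l, hl.1, hl.2⟩
  have ht0 : ∀ i, t i ≠ 0 := by
    intro i h0
    obtain ⟨s, hs⟩ := hmin (Pi.single i 1) (by
      rw [Finset.sum_eq_single i]
      · rw [ht i, h0, zero_smul, smul_zero]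
      · intro j _ hji
        rw [Pi.single_eq_of_ne hji, zero_smul]
      · intro h'
        exact absurd (Finset.mem_univ i) h')
    obtain ⟨l, hl, _⟩ := hother i i
    have h5 := congrFun hs l
    rw [Pi.single_eq_of_ne hl, Pi.smul_apply, smul_eq_mul] at h5
    have hs0 : s = 0 := by
      rcases mul_eq_zero.1 h5.symm with h | h
      · exact h
      · exact absurd h (hx l)
    have h6 := congrFun hs i
    rw [Pi.single_eq_same, hs0, zero_smul] at h6
    exact one_ne_zero h6
  have hinj : Function.Injective f := by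
    intro i j hij
    by_contra hne
    obtain ⟨s, hs⟩ := hmin (Pi.single i (t i)⁻¹ - Pi.single j (t j)⁻¹) (by
      have h5 : ∑ l, (Pi.single i (t i)⁻¹ - Pi.single j (t j)⁻¹ : ι → ℝ) l • v l =
          ∑ l, (Pi.single i (t i)⁻¹ : ι → ℝ) l • v l - ∑ l, (Pi.single j (t j)⁻¹ : ι → ℝ) l • v l := by
        rw [← Finset.sum_sub_distrib]
        exact Finset.sum_congr rfl (fun l _ => by rw [Pi.sub_apply, sub_smul])
      have h6 : ∀ i, ∑ l, (Pi.single i (t i)⁻¹ : ι → ℝ) l • v l = f i := by
        intro i
        rw [Finset.sum_eq_single i]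
        · rw [Pi.single_eq_same, ht i, smul_smul, inv_mul_cancel₀ (ht0 i), one_smul]
        · intro j _ hji
          rw [Pi.single_eq_of_ne hji, zero_smul]
        · intro h'
          exact absurd (Finset.mem_univ i) h'
      rw [h5, h6, h6, hij, sub_self])
    obtain ⟨l, hl1, hl2⟩ := hother i j
    have h5 := congrFun hs l
    rw [Pi.sub_apply, Pi.single_eq_of_ne hl1, Pi.single_eq_of_ne hl2, sub_self, Pi.smul_apply,
      smul_eq_mul] at h5
    have hs0 : s = 0 := by
      rcases mul_eq_zero.1 h5.symm with h | h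
      · exact h
      · exact absurd h (hx l)
    have h6 := congrFun hs i
    rw [Pi.sub_apply, Pi.single_eq_same, Pi.single_eq_of_ne hne, hs0, zero_smul, sub_zero] at h6
    exact inv_ne_zero (ht0 i) h6
  have hkey : ∀ y : ι → ℝ, ∑ i, (y i * t i) • f i = ∑ i, y i • v i := by
    intro y
    exact Finset.sum_congr rfl (fun i _ => by rw [ht i, smul_smul])
  have hcirc : Circ ⊥ (fc f (fun i => x i * t i)) := by
    refine ⟨?_, ?_, ?_⟩
    · intro h0
      have hne : Nonempty ι := Fintype.card_pos_iff.1 (by omega)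
      obtain ⟨i⟩ := hne
      have h5 := fc_val hinj (fun i => x i * t i) i
      rw [h0] at h5
      exact mul_ne_zero (hx i) (ht0 i) h5.symm
    · rw [Submodule.mem_bot, sm_fc, hkey]
      exact hrel
    · intro h hh hsub
      rw [supp_sub_iff] at hsub
      have hout : ∀ y, (∀ i, f i ≠ y) → h y = 0 := fun y hy => hsub y (fc_out f _ y hy)
      have hh' : h = fc f (fun i => h (f i)) := by
        ext y
        by_cases hy : ∃ i, f i = y
        · obtain ⟨i, rfl⟩ := hy
          rw [fc_val hinj]
        · push Not at hy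
          rw [hout y hy, fc_out f _ y hy]
      have hsm : ∑ i, (h (f i) * (t i)⁻¹) • v i = 0 := by
        rw [← hkey]
        rw [Submodule.mem_bot, hh', sm_fc] at hh
        rw [← hh]
        refine Finset.sum_congr rfl (fun i _ => ?_)
        rw [mul_assoc, inv_mul_cancel₀ (ht0 i), mul_one]
      obtain ⟨s, hs⟩ := hmin _ hsm
      refine ⟨s, ?_⟩
      ext y
      by_cases hy : ∃ i, f i = y
      · obtain ⟨i, rfl⟩ := hy
        rw [Finsupp.smul_apply, fc_val hinj, smul_eq_mul]
        have h5 := congrFun hs i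
        rw [Pi.smul_apply, smul_eq_mul] at h5
        have h6 : h (f i) = (h (f i) * (t i)⁻¹) * t i := by
          rw [mul_assoc, inv_mul_cancel₀ (ht0 i), mul_one]
        rw [h6, h5]
        ring
      · push Not at hy
        rw [hout y hy, Finsupp.smul_apply, fc_out f _ y hy, smul_zero]
  have hcard : (fc f (fun i => x i * t i)).support = Finset.univ.map ⟨f, hinj⟩ := by
    ext y
    rw [Finsupp.mem_support_iff, Finset.mem_map]
    constructor
    · intro hy
      by_contra hcon
      apply hy
      apply fc_out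
      intro i hi
      exact hcon ⟨i, Finset.mem_univ i, hi⟩
    · rintro ⟨i, _, rfl⟩
      rw [Function.Embedding.coeFn_mk, fc_val hinj]
      exact mul_ne_zero (hx i) (ht0 i)
  have h7 := hmax _ hcirc (by
    intro y hy
    by_contra hcon
    apply hy
    apply fc_out
    rintro i rfl
    exact hcon (hfS i))
  rw [hcard, Finset.card_map, Finset.card_univ] at h7
  omega

end Pool.Agent.Helper59.HD
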