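import Mathlib

/-!
# Definitions for MP_541d70_co (Helly numbers of translates of a convex body)
-/

namespace Pool.Agent.Helper59.HD

/-- Property `Sz(r)`: a finite family of translates `F + v j` of `F`, every at most `r + 1` of
which have a common point, has a common point. -/
def Sz {Y : Type} [AddCommGroup Y] (r : ℕ) (F : Set Y) : Prop :=
  ∀ (s : ℕ) (v : Fin s → Y), (∀ J : Finset (Fin s), J.card ≤ r + 1 → ∃ x, ∀ j ∈ J, x - v j ∈ F) →
    ∃ x, ∀ j, x - v j ∈ F

theorem Sz.fin {Y : Type} [AddCommGroup Y] {r : ℕ} {F : Set Y} (h : Sz r F) {ι : Type} [Fintype ι]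
    (v : ι → Y) (hv : ∀ J : Finset ι, J.card ≤ r + 1 → ∃ x, ∀ j ∈ J, x - v j ∈ F) :
    ∃ x, ∀ j, x - v j ∈ F := by
  classical
  obtain ⟨x, hx⟩ := h (Fintype.card ι) (fun i => v ((Fintype.equivFin ι).symm i)) (fun J hJ => by
    obtain ⟨x, hx⟩ := hv (J.map (Fintype.equivFin ι).symm.toEmbedding) (by
      rw [Finset.card_map]
      exact hJ)
    exact ⟨x, fun j hj => hx _ (Finset.mem_map_of_mem _ hj)⟩)
  refine ⟨x, fun j => ?_⟩
  have := hx (Fintype.equivFin ι j)
  rwa [Equiv.symm_apply_apply] at this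

end Pool.Agent.Helper59.HD
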