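import Pool.Agent.Helper59.HD.Defs

/-!
# Anti-blocking bodies with property `Sz(r)` (MP_541d70_co)
-/

namespace Pool.Agent.Helper59.HD.Anti

open Pool.Agent.Helper59.HD

/-- The vector obtained from `x` by replacing the coordinates outside `S` by zero. -/
noncomputable def restr {n : ℕ} (S : Finset (Fin n)) (x : EuclideanSpace ℝ (Fin n)) :
    EuclideanSpace ℝ (Fin n) :=
  WithLp.toLp 2 (fun i => if i ∈ S then x i else 0)

theorem restr_apply {n : ℕ} (S : Finset (Fin n)) (x : EuclideanSpace ℝ (Fin n)) (i : Fin n) :
    restr S x i = if i ∈ S then x i else 0 := rfl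

/-- Characterisation of `Sz(r)` for anti-blocking sets: `P` has `Sz(r)` if and only if it is
determined by its sections (projections) by the coordinate subspaces of dimension at most `r`. -/
theorem main {n r : ℕ} (P : Set (EuclideanSpace ℝ (Fin n)))
    (hpos : ∀ x ∈ P, ∀ i, 0 ≤ x i)
    (hdown : ∀ x ∈ P, ∀ y : EuclideanSpace ℝ (Fin n), (∀ i, 0 ≤ y i ∧ y i ≤ x i) → y ∈ P) :
    Sz r P ↔ ∀ x : EuclideanSpace ℝ (Fin n), (∀ i, 0 ≤ x i) →
      (∀ S : Finset (Fin n), S.card ≤ r → restr S x ∈ P) → x ∈ P := by
  classical
  constructor
  · intro hSz x hx hS
    set v : Option (Fin n) → EuclideanSpace ℝ (Fin n) := fun o =>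
      match o with
      | none => 0
      | some j => restr {j} x with hv
    obtain ⟨y, hy⟩ := hSz.fin v (fun J hJ => by
      set S : Finset (Fin n) := Finset.univ.filter (fun j => some j ∈ J) with hSdef
      have hmem : ∀ j, j ∈ S ↔ some j ∈ J := fun j => by simp [hSdef]
      have hSJ : (S.map Function.Embedding.some) ⊆ J := by
        intro o ho
        obtain ⟨j, hj, rfl⟩ := Finset.mem_map.1 ho
        exact (hmem j).1 hj
      have hScard : S.card ≤ J.card := by
        have := Finset.card_le_card hSJ
        rwa [Finset.card_map] at this
      refine ⟨restr S x, fun o ho => ?_⟩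
      cases o with
      | none =>
        have hlt : S.card < J.card := by
          have h1 : (S.map Function.Embedding.some) ⊂ J := by
            refine ⟨hSJ, fun hsub => ?_⟩
            obtain ⟨j, _, hj⟩ := Finset.mem_map.1 (hsub ho)
            cases hj
          have := Finset.card_lt_card h1
          rwa [Finset.card_map] at this
        have h2 : restr S x - v none = restr S x := by
          rw [hv]
          simp
        rw [h2]
        exact hS S (by omega)
      | some j =>
        have hjS : j ∈ S := (hmem j).2 ho
        have h2 : restr S x - v (some j) = restr (S.erase j) x := by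
          ext i
          simp only [hv, PiLp.sub_apply, restr_apply, Finset.mem_erase, Finset.mem_singleton]
          by_cases hij : i = j
          · subst hij
            simp [hjS]
          · simp [hij]
        rw [h2]
        apply hS
        rw [Finset.card_erase_of_mem hjS]
        omega)
    have h0 : y ∈ P := by
      have := hy none
      rw [hv] at this
      simpa using this
    apply hdown y h0
    intro i
    refine ⟨hx i, ?_⟩
    have := hpos _ (hy (some i)) i
    simp only [hv, PiLp.sub_apply, restr_apply, Finset.mem_singleton, if_true] at this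
    linarith
  · intro H s v hJ
    rcases isEmpty_or_nonempty (Fin s) with hs | hs
    · exact ⟨0, fun j => (hs.false j).elim⟩
    have hmax : ∀ i : Fin n, ∃ k : Fin s, ∀ l, v l i ≤ v k i := fun i =>
      Finite.exists_max (fun l => v l i)
    choose κ hκ using hmax
    refine ⟨WithLp.toLp 2 (fun i => v (κ i) i), fun k => ?_⟩
    apply H
    · intro i
      have := hκ i k
      simp only [PiLp.sub_apply]
      linarith
    · intro S hS
      obtain ⟨z, hz⟩ := hJ (insert k (S.image κ)) (by
        have h1 := Finset.card_insert_le k (S.image κ)
        have h2 := Finset.card_image_le (s := S) (f := κ)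
        omega)
      apply hdown _ (hz k (Finset.mem_insert_self _ _))
      intro i
      have h1 := hpos _ (hz k (Finset.mem_insert_self _ _)) i
      rw [restr_apply]
      by_cases hi : i ∈ S
      · have h2 := hpos _ (hz (κ i) (Finset.mem_insert_of_mem (Finset.mem_image_of_mem κ hi))) i
        have h3 := hκ i k
        simp only [PiLp.sub_apply] at h1 h2 ⊢
        rw [if_pos hi]
        constructor <;> linarith
      · rw [if_neg hi]
        exact ⟨le_refl 0, h1⟩

end Pool.Agent.Helper59.HD.Anti
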