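import Mathlib

/-!
# Linear circuits modulo a subspace

Elementary facts about minimal linear dependences of vectors modulo a subspace, used for the
structure theorem for centrally symmetric convex bodies with property `Sz(r)`.
-/

namespace Pool.Agent.Helper59.HD

variable {V : Type} [AddCommGroup V] [Module ℝ V]

/-- The vector sum of a formal real combination of vectors. -/
noncomputable def sm : (V →₀ ℝ) →ₗ[ℝ] V := Finsupp.linearCombination ℝ (id : V → V)

/-- `g` is a circuit modulo the subspace `U`: a minimal nonzero dependence modulo `U`. -/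
def Circ (U : Submodule ℝ V) (g : V →₀ ℝ) : Prop :=
  g ≠ 0 ∧ sm g ∈ U ∧ ∀ h : V →₀ ℝ, sm h ∈ U → h.support ⊆ g.support → ∃ t : ℝ, h = t • g

omit [AddCommGroup V] [Module ℝ V] in
theorem supp_sub_iff {g h : V →₀ ℝ} : h.support ⊆ g.support ↔ ∀ x, g x = 0 → h x = 0 := by
  constructor
  · intro H x hx
    by_contra hne
    have := H (Finsupp.mem_support_iff.2 hne)
    exact (Finsupp.mem_support_iff.1 this) hx
  · intro H x hx
    rw [Finsupp.mem_support_iff] at hx ⊢
    exact fun h0 => hx (H x h0)

/-- Every element of the support of a dependence lies in a circuit inside the support. -/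
theorem exists_circ (U : Submodule ℝ V) : ∀ (n : ℕ) (g : V →₀ ℝ), g.support.card = n →
    sm g ∈ U → ∀ v, g v ≠ 0 → ∃ k, Circ U k ∧ k v ≠ 0 ∧ ∀ x, g x = 0 → k x = 0 := by
  intro n
  induction n using Nat.strong_induction_on with
  | _ n ih =>
    intro g hn hg v hv
    by_cases hc : Circ U g
    · exact ⟨g, hc, hv, fun x hx => hx⟩
    have hg0 : g ≠ 0 := by
      rintro rfl
      exact hv rfl
    unfold Circ at hc
    push Not at hc
    obtain ⟨h, hhU, hsub, hne⟩ := hc hg0 hg
    rw [supp_sub_iff] at hsub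
    set h' : V →₀ ℝ := h - (h v / g v) • g with hh'
    have hh'0 : h' ≠ 0 := by
      intro h0
      exact hne (h v / g v) (sub_eq_zero.1 h0)
    obtain ⟨w, hw⟩ := Finsupp.ne_iff.1 hh'0
    simp only [Finsupp.coe_zero, Pi.zero_apply] at hw
    have hh'v : h' v = 0 := by
      simp only [hh', Finsupp.coe_sub, Finsupp.coe_smul, Pi.sub_apply, Pi.smul_apply, smul_eq_mul]
      field_simp
      ring
    have hh'sub : ∀ x, g x = 0 → h' x = 0 := by
      intro x hx
      simp [hh', hx, hsub x hx]
    have hgw : g w ≠ 0 := fun h0 => hw (hh'sub w h0)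
    set g' : V →₀ ℝ := g - (g w / h' w) • h' with hg'
    have hg'v : g' v ≠ 0 := by
      simp [hg', hh'v, hv]
    have hg'w : g' w = 0 := by
      simp only [hg', Finsupp.coe_sub, Finsupp.coe_smul, Pi.sub_apply, Pi.smul_apply, smul_eq_mul]
      field_simp
      ring
    have hg'sub : ∀ x, g x = 0 → g' x = 0 := by
      intro x hx
      simp [hg', hx, hh'sub x hx]
    have hg'U : sm g' ∈ U := by
      rw [hg', map_sub, map_smul, hh', map_sub, map_smul]
      exact U.sub_mem hg (U.smul_mem _ (U.sub_mem hhU (U.smul_mem _ hg)))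
    have hlt : g'.support.card < n := by
      rw [← hn]
      apply Finset.card_lt_card
      refine ⟨supp_sub_iff.2 hg'sub, fun H => ?_⟩
      have := H (Finsupp.mem_support_iff.2 hgw)
      exact (Finsupp.mem_support_iff.1 this) hg'w
    obtain ⟨k, hk, hkv, hksub⟩ := ih _ hlt g' rfl hg'U v hg'v
    exact ⟨k, hk, hkv, fun x hx => hksub x (hg'sub x hx)⟩

/-- If every circuit in `E` lies in `A` or misses `A`, then the `A`-part of a dependence in `E`
is a dependence. -/
theorem filter_dep (U : Submodule ℝ V) (A : V → Prop) [DecidablePred A] (E : Set V)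
    (hA : ∀ k, Circ U k → (∀ x, k x ≠ 0 → x ∈ E) →
      (∀ x, k x ≠ 0 → A x) ∨ (∀ x, k x ≠ 0 → ¬ A x)) :
    ∀ (n : ℕ) (g : V →₀ ℝ), g.support.card = n → sm g ∈ U → (∀ x, g x ≠ 0 → x ∈ E) →
      sm (g.filter A) ∈ U := by
  intro n
  induction n using Nat.strong_induction_on with
  | _ n ih =>
    intro g hn hg hE
    by_cases hg0 : g = 0
    · have h0 : g.filter A = 0 := by
        rw [Finsupp.filter_eq_zero_iff]
        intro x _
        rw [hg0]
        rfl
      rw [h0, map_zero]
      exact U.zero_mem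
    obtain ⟨v, hv⟩ := Finsupp.ne_iff.1 hg0
    simp only [Finsupp.coe_zero, Pi.zero_apply] at hv
    obtain ⟨k, hk, hkv, hksub⟩ := exists_circ U _ g rfl hg v hv
    set g' : V →₀ ℝ := g - (g v / k v) • k with hg'
    have hg'v : g' v = 0 := by
      simp only [hg', Finsupp.coe_sub, Finsupp.coe_smul, Pi.sub_apply, Pi.smul_apply, smul_eq_mul]
      field_simp
      ring
    have hg'sub : ∀ x, g x = 0 → g' x = 0 := by
      intro x hx
      simp [hg', hx, hksub x hx]
    have hlt : g'.support.card < n := by
      rw [← hn]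
      apply Finset.card_lt_card
      refine ⟨supp_sub_iff.2 hg'sub, fun H => ?_⟩
      have := H (Finsupp.mem_support_iff.2 hv)
      exact (Finsupp.mem_support_iff.1 this) hg'v
    have hg'U : sm g' ∈ U := by
      rw [hg', map_sub, map_smul]
      exact U.sub_mem hg (U.smul_mem _ hk.2.1)
    have h1 := ih _ hlt g' rfl hg'U (fun x hx => hE x (fun h0 => hx (hg'sub x h0)))
    have h2 : sm (k.filter A) ∈ U := by
      rcases hA k hk (fun x hx => hE x (fun h0 => hx (hksub x h0))) with h | h
      · have : k.filter A = k := by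
          rw [Finsupp.filter_eq_self_iff]
          exact h
        rw [this]
        exact hk.2.1
      · have : k.filter A = 0 := by
          rw [Finsupp.filter_eq_zero_iff]
          intro x hx
          by_contra hne
          exact h x hne hx
        rw [this]
        simp
    have hgg : g = g' + (g v / k v) • k := by
      rw [hg']
      simp
    have : g.filter A = g'.filter A + (g v / k v) • k.filter A := by
      conv_lhs => rw [hgg]
      rw [Finsupp.filter_add, Finsupp.filter_smul]
    rw [this, map_add, map_smul]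
    exact U.add_mem h1 (U.smul_mem _ h2)

open scoped Classical in
/-- Two circuits that meet: elements of them lie in a common circuit inside the union. -/
theorem circ_trans (U : Submodule ℝ V) : ∀ (n : ℕ) (k1 k2 : V →₀ ℝ),
    (k1.support ∪ k2.support).card = n → Circ U k1 → Circ U k2 → ∀ a c b, k1 a ≠ 0 → k2 c ≠ 0 →
    k1 b ≠ 0 → k2 b ≠ 0 →
    ∃ k, Circ U k ∧ k a ≠ 0 ∧ k c ≠ 0 ∧ ∀ x, k1 x = 0 → k2 x = 0 → k x = 0 := by
  intro n
  induction n using Nat.strong_induction_on with
  | _ n ih =>
    intro k1 k2 hn h1 h2 a c b ha hc hb1 hb2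
    by_cases hac : k1 c ≠ 0
    · exact ⟨k1, h1, ha, hac, fun x hx _ => hx⟩
    by_cases hca : k2 a ≠ 0
    · exact ⟨k2, h2, hca, hc, fun x _ hx => hx⟩
    push Not at hac hca
    -- elimination of `b`
    set h : V →₀ ℝ := (k2 b) • k1 - (k1 b) • k2 with hh
    have hhU : sm h ∈ U := by
      rw [hh, map_sub, map_smul, map_smul]
      exact U.sub_mem (U.smul_mem _ h1.2.1) (U.smul_mem _ h2.2.1)
    have hhb : h b = 0 := by
      simp only [hh, Finsupp.coe_sub, Finsupp.coe_smul, Pi.sub_apply, Pi.smul_apply, smul_eq_mul]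
      ring
    have hha : h a ≠ 0 := by
      simp [hh, hca, ha, hb2]
    have hhc : h c ≠ 0 := by
      simp [hh, hac, hc, hb1]
    have hhsub : ∀ x, k1 x = 0 → k2 x = 0 → h x = 0 := by
      intro x hx1 hx2
      simp [hh, hx1, hx2]
    obtain ⟨K3, hK3, hK3c, hK3sub⟩ := exists_circ U _ h rfl hhU c hhc
    obtain ⟨K4, hK4, hK4a, hK4sub⟩ := exists_circ U _ h rfl hhU a hha
    have hK3s : ∀ x, k1 x = 0 → k2 x = 0 → K3 x = 0 := fun x hx1 hx2 => hK3sub x (hhsub x hx1 hx2)
    have hK4s : ∀ x, k1 x = 0 → k2 x = 0 → K4 x = 0 := fun x hx1 hx2 => hK4sub x (hhsub x hx1 hx2)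
    have hK3b : K3 b = 0 := hK3sub b hhb
    have hK4b : K4 b = 0 := hK4sub b hhb
    -- `K3` is not inside `k2`
    have hex3 : ∃ b', K3 b' ≠ 0 ∧ k2 b' = 0 := by
      by_contra hcon
      push Not at hcon
      obtain ⟨t, ht⟩ := h2.2.2 K3 hK3.2.1 (supp_sub_iff.2 (fun x hx => by
        by_contra hne
        exact hcon x hne hx))
      have ht0 : t = 0 := by
        have := congrArg (fun f : V →₀ ℝ => f b) ht
        simp only [Finsupp.coe_smul, Pi.smul_apply, smul_eq_mul, hK3b] at this
        rcases mul_eq_zero.1 this.symm with h | h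
        · exact h
        · exact absurd h hb2
      apply hK3c
      rw [ht, ht0]
      simp
    have hex4 : ∃ b', K4 b' ≠ 0 ∧ k1 b' = 0 := by
      by_contra hcon
      push Not at hcon
      obtain ⟨t, ht⟩ := h1.2.2 K4 hK4.2.1 (supp_sub_iff.2 (fun x hx => by
        by_contra hne
        exact hcon x hne hx))
      have ht0 : t = 0 := by
        have := congrArg (fun f : V →₀ ℝ => f b) ht
        simp only [Finsupp.coe_smul, Pi.smul_apply, smul_eq_mul, hK4b] at this
        rcases mul_eq_zero.1 this.symm with h | h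
        · exact h
        · exact absurd h hb1
      apply hK4a
      rw [ht, ht0]
      simp
    obtain ⟨b3, hb3, hb3'⟩ := hex3
    obtain ⟨b4, hb4, hb4'⟩ := hex4
    have hb3k1 : k1 b3 ≠ 0 := fun h0 => hb3 (hK3s b3 h0 hb3')
    have hb4k2 : k2 b4 ≠ 0 := fun h0 => hb4 (hK4s b4 hb4' h0)
    -- first attempt: the pair `(k1, K3)`
    by_cases hs3 : (k1.support ∪ K3.support).card < n
    · obtain ⟨k, hk, hka, hkc, hks⟩ := ih _ hs3 k1 K3 rfl h1 hK3 a c b3 ha hK3c hb3k1 hb3
      exact ⟨k, hk, hka, hkc, fun x hx1 hx2 => hks x hx1 (hK3s x hx1 hx2)⟩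
    by_cases hs4 : (K4.support ∪ k2.support).card < n
    · obtain ⟨k, hk, hka, hkc, hks⟩ := ih _ hs4 K4 k2 rfl hK4 h2 a c b4 hK4a hc hb4 hb4k2
      exact ⟨k, hk, hka, hkc, fun x hx1 hx2 => hks x (hK4s x hx1 hx2) hx2⟩
    -- now `K4` contains `k1 \ k2`
    have hsub4 : K4.support ∪ k2.support ⊆ k1.support ∪ k2.support := by
      intro x hx
      rw [Finset.mem_union, Finsupp.mem_support_iff, Finsupp.mem_support_iff] at hx ⊢
      by_contra hcon
      push Not at hcon
      rcases hx with hx | hx
      · exact hx (hK4s x hcon.1 hcon.2)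
      · exact hx hcon.2
    have heq4 : K4.support ∪ k2.support = k1.support ∪ k2.support :=
      Finset.eq_of_subset_of_card_le hsub4 (by omega)
    have hb3K4 : K4 b3 ≠ 0 := by
      have : b3 ∈ K4.support ∪ k2.support := by
        rw [heq4, Finset.mem_union, Finsupp.mem_support_iff]
        exact Or.inl hb3k1
      rw [Finset.mem_union, Finsupp.mem_support_iff, Finsupp.mem_support_iff] at this
      rcases this with h | h
      · exact h
      · exact absurd hb3' h
    have hlt : (K4.support ∪ K3.support).card < n := by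
      rw [← hn]
      apply Finset.card_lt_card
      refine ⟨?_, fun H => ?_⟩
      · intro x hx
        rw [Finset.mem_union, Finsupp.mem_support_iff, Finsupp.mem_support_iff] at hx ⊢
        by_contra hcon
        push Not at hcon
        rcases hx with hx | hx
        · exact hx (hK4s x hcon.1 hcon.2)
        · exact hx (hK3s x hcon.1 hcon.2)
      · have : b ∈ K4.support ∪ K3.support := H (by
          rw [Finset.mem_union, Finsupp.mem_support_iff]
          exact Or.inl hb1)
        rw [Finset.mem_union, Finsupp.mem_support_iff, Finsupp.mem_support_iff] at this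
        rcases this with h | h
        · exact h hK4b
        · exact h hK3b
    obtain ⟨k, hk, hka, hkc, hks⟩ := ih _ hlt K4 K3 rfl hK4 hK3 a c b3 hK4a hK3c hb3K4 hb3
    exact ⟨k, hk, hka, hkc, fun x hx1 hx2 => hks x (hK4s x hx1 hx2) (hK3s x hx1 hx2)⟩

end Pool.Agent.Helper59.HD
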