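import Pool.Agent.Helper59.HD.Defs

/-!
# Definitions for MP_541d70_co: forests of blocks of coordinates
-/

namespace Pool.Agent.Helper59.HD

/-- `le` is a rooted forest order on `m` blocks (`le y x`: the block `y` lies on the path from the
block `x` to its root): a partial order in which the elements below each element form a chain. -/
structure Forest {m : ℕ} (le : Fin m → Fin m → Prop) : Prop where
  refl : ∀ x, le x x
  antisymm : ∀ x y, le x y → le y x → x = y
  trans : ∀ x y z, le x y → le y z → le x z
  chain : ∀ x y z, le y x → le z x → le y z ∨ le z y

/-- The number of coordinates in the block `x`. -/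
def bdim {n m : ℕ} (blk : Fin n → Fin m) (x : Fin m) : ℕ :=
  (Finset.univ.filter (fun i => blk i = x)).card

/-- In the linear coordinates `e`, divided into blocks by `blk`, the set `F` is the intersection of
the cylinders over its projections to the coordinates of the blocks of the root paths: a point
belongs to `F` as soon as for every block `y` it agrees with some point of `F` on all coordinates in
the blocks `x` with `le x y`. -/
def Decomp {n m : ℕ} (e : EuclideanSpace ℝ (Fin n) ≃ₗ[ℝ] (Fin n → ℝ)) (blk : Fin n → Fin m)
    (le : Fin m → Fin m → Prop) (F : Set (EuclideanSpace ℝ (Fin n))) : Prop :=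
  ∀ x, (∀ y, ∃ z ∈ F, ∀ i, le (blk i) y → e z i = e x i) → x ∈ F

open Classical in
/-- The blocks on the path from the block `x` to its root, `x` included. -/
noncomputable def path {m : ℕ} (le : Fin m → Fin m → Prop) (x : Fin m) : Finset (Fin m) :=
  Finset.univ.filter fun y => le y x

end Pool.Agent.Helper59.HD
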