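import Pool.Agent.Helper59.HD.Contr

/-!
# Forest structure of symmetric configurations with short circuits
-/

namespace Pool.Agent.Helper59.HD

variable {V : Type} [AddCommGroup V] [Module ℝ V]

/-- A basis of `T` modulo `U` whose index set is divided into blocks forming a rooted forest, such
that all vectors of `S` are supported on root paths modulo `U`; the blocks have size at most `c - 1`
and the sizes drop by at least two at each step away from the root. -/
def HasForest (U T : Submodule ℝ V) (S : Set V) (c : ℕ) : Prop :=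
  ∃ (ι β : Type) (_ : Fintype ι) (_ : Fintype β) (b : ι → V) (blk : ι → β) (le : β → β → Prop),
    ((∀ i, le i i) ∧ (∀ i j, le i j → le j i → i = j) ∧ (∀ i j k, le i j → le j k → le i k) ∧
      (∀ i j k, le j i → le k i → le j k ∨ le k j)) ∧
    (∀ x, 1 ≤ (blk ⁻¹' {x}).ncard ∧ (blk ⁻¹' {x}).ncard + 1 ≤ c) ∧
    (∀ x y, le x y → x ≠ y → (blk ⁻¹' {y}).ncard + 2 ≤ (blk ⁻¹' {x}).ncard) ∧
    (∀ c : ι → ℝ, ∑ i, c i • b i ∈ U → c = 0) ∧
    (U ⊔ Submodule.span ℝ (Set.range b) = T) ∧
    (∀ f ∈ S, f ∈ U ∨ ∃ x, f ∈ U ⊔ Submodule.span ℝ (b '' {j | le (blk j) x}))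

theorem HasForest.mono {U T : Submodule ℝ V} {S : Set V} {h h' : ℕ} (H : HasForest U T S h)
    (hh : h ≤ h') : HasForest U T S h' := by
  obtain ⟨ι, β, hι, hβ, b, blk, le, h1, h2, h3, h4, h5, h6⟩ := H
  exact ⟨ι, β, hι, hβ, b, blk, le, h1, fun x => ⟨(h2 x).1, (h2 x).2.trans hh⟩, h3, h4, h5, h6⟩

theorem forest_self (U : Submodule ℝ V) (S : Set V) (hS : ∀ f ∈ S, f ∈ U) :
    HasForest U U S 0 := by
  refine ⟨Fin 0, Fin 0, inferInstance, inferInstance, fun i => i.elim0, fun i => i,
    fun _ _ => True, ⟨fun i => i.elim0, fun i => i.elim0, fun i => i.elim0, fun i => i.elim0⟩,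
    fun i => i.elim0, fun i => i.elim0, ?_, ?_, ?_⟩
  · intro c _
    ext i
    exact i.elim0
  · rw [Set.range_eq_empty, Submodule.span_empty, sup_bot_eq]
  · intro f hf
    exact Or.inl (hS f hf)

/-- Disjoint union of two orders. -/
def sumLe {ι1 ι2 : Type} (le1 : ι1 → ι1 → Prop) (le2 : ι2 → ι2 → Prop) : ι1 ⊕ ι2 → ι1 ⊕ ι2 → Prop
  | Sum.inl a, Sum.inl b => le1 a b
  | Sum.inr a, Sum.inr b => le2 a b
  | Sum.inl _, Sum.inr _ => False
  | Sum.inr _, Sum.inl _ => False

/-- A new root below everything. -/
def optLe {β : Type} (le2 : β → β → Prop) : Option β → Option β → Prop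
  | none, _ => True
  | some _, none => False
  | some a, some b => le2 a b

theorem forest_sum (U T1 T2 : Submodule ℝ V) (S : Set V) (h : ℕ) (hinf : T1 ⊓ T2 = U)
    (hS : ∀ f ∈ S, f ∈ T1 ∨ f ∈ T2) (H1 : HasForest U T1 {f | f ∈ S ∧ f ∈ T1} h)
    (H2 : HasForest U T2 {f | f ∈ S ∧ f ∈ T2} h) : HasForest U (T1 ⊔ T2) S h := by
  classical
  obtain ⟨ι1, β1, hι1, hβ1, b1, blk1, le1, ⟨r1, a1, t1, c1⟩, k1, l1, i1, s1, e1⟩ := H1
  obtain ⟨ι2, β2, hι2, hβ2, b2, blk2, le2, ⟨r2, a2, t2, c2⟩, k2, l2, i2, s2, e2⟩ := H2
  have hUT1 : U ≤ T1 := by rw [← hinf]; exact inf_le_left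
  have hUT2 : U ≤ T2 := by rw [← hinf]; exact inf_le_right
  have hnl : ∀ x, (Sum.map blk1 blk2 ⁻¹' {Sum.inl x}).ncard = (blk1 ⁻¹' {x}).ncard := by
    intro x
    rw [← Set.ncard_image_of_injective (blk1 ⁻¹' {x}) (Sum.inl_injective (α := ι1) (β := ι2))]
    congr 1
    ext i
    rcases i with i | i
    · constructor
      · intro hi
        exact ⟨i, Sum.inl_injective hi, rfl⟩
      · rintro ⟨j, hj, hji⟩
        rw [← hji]
        exact congrArg Sum.inl hj
    · constructor
      · intro hi
        exact absurd hi (by simp)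
      · rintro ⟨j, _, hji⟩
        exact absurd hji (by simp)
  have hnr : ∀ x, (Sum.map blk1 blk2 ⁻¹' {Sum.inr x}).ncard = (blk2 ⁻¹' {x}).ncard := by
    intro x
    rw [← Set.ncard_image_of_injective (blk2 ⁻¹' {x}) (Sum.inr_injective (α := ι1) (β := ι2))]
    congr 1
    ext i
    rcases i with i | i
    · constructor
      · intro hi
        exact absurd hi (by simp)
      · rintro ⟨j, _, hji⟩
        exact absurd hji (by simp)
    · constructor
      · intro hi
        exact ⟨i, Sum.inr_injective hi, rfl⟩
      · rintro ⟨j, hj, hji⟩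
        rw [← hji]
        exact congrArg Sum.inr hj
  refine ⟨ι1 ⊕ ι2, β1 ⊕ β2, inferInstance, inferInstance, Sum.elim b1 b2, Sum.map blk1 blk2,
    sumLe le1 le2, ⟨?_, ?_, ?_, ?_⟩, ?_, ?_, ?_, ?_, ?_⟩
  · rintro (i | i)
    · exact r1 i
    · exact r2 i
  · rintro (i | i) (j | j) hij hji
    · rw [a1 i j hij hji]
    · exact hij.elim
    · exact hij.elim
    · rw [a2 i j hij hji]
  · rintro (i | i) (j | j) (k | k) hij hjk
    · exact t1 i j k hij hjk
    · exact hjk.elim
    · exact hij.elim
    · exact hij.elim
    · exact hij.elim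
    · exact hij.elim
    · exact hjk.elim
    · exact t2 i j k hij hjk
  · rintro (i | i) (j | j) (k | k) hij hjk
    · exact c1 i j k hij hjk
    · exact hjk.elim
    · exact hij.elim
    · exact hij.elim
    · exact hij.elim
    · exact hij.elim
    · exact hjk.elim
    · exact c2 i j k hij hjk
  · rintro (x | x)
    · rw [hnl]
      exact k1 x
    · rw [hnr]
      exact k2 x
  · rintro (x | x) (y | y) hxy hne
    · rw [hnl, hnl]
      exact l1 x y hxy (fun h' => hne (congrArg Sum.inl h'))
    · exact hxy.elim
    · exact hxy.elim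
    · rw [hnr, hnr]
      exact l2 x y hxy (fun h' => hne (congrArg Sum.inr h'))
  · intro c hc
    rw [Fintype.sum_sum_type] at hc
    simp only [Sum.elim_inl, Sum.elim_inr] at hc
    have m1 : ∑ i, c (Sum.inl i) • b1 i ∈ T1 := by
      apply Submodule.sum_mem
      intro i _
      apply Submodule.smul_mem
      rw [← s1]
      exact (le_sup_right : _ ≤ U ⊔ Submodule.span ℝ (Set.range b1))
        (Submodule.subset_span (Set.mem_range_self i))
    have m2 : ∑ i, c (Sum.inr i) • b2 i ∈ T2 := by
      apply Submodule.sum_mem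
      intro i _
      apply Submodule.smul_mem
      rw [← s2]
      exact (le_sup_right : _ ≤ U ⊔ Submodule.span ℝ (Set.range b2))
        (Submodule.subset_span (Set.mem_range_self i))
    have m2' : ∑ i, c (Sum.inr i) • b2 i ∈ U := by
      rw [← hinf]
      refine ⟨?_, m2⟩
      have : ∑ i, c (Sum.inr i) • b2 i = (∑ i, c (Sum.inl i) • b1 i +
          ∑ i, c (Sum.inr i) • b2 i) - ∑ i, c (Sum.inl i) • b1 i := by abel
      rw [this]
      exact T1.sub_mem (hUT1 hc) m1
    have m1' : ∑ i, c (Sum.inl i) • b1 i ∈ U := by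
      have : ∑ i, c (Sum.inl i) • b1 i = (∑ i, c (Sum.inl i) • b1 i +
          ∑ i, c (Sum.inr i) • b2 i) - ∑ i, c (Sum.inr i) • b2 i := by abel
      rw [this]
      exact U.sub_mem hc m2'
    have z1 := i1 _ m1'
    have z2 := i2 _ m2'
    ext (i | i)
    · exact congrFun z1 i
    · exact congrFun z2 i
  · rw [← s1, ← s2, Set.Sum.elim_range, Submodule.span_union]
    apply le_antisymm
    · apply sup_le
      · exact le_sup_left.trans le_sup_left
      · exact sup_le (le_sup_right.trans le_sup_left) (le_sup_right.trans le_sup_right)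
    · apply sup_le
      · exact sup_le le_sup_left (le_sup_left.trans le_sup_right)
      · exact sup_le le_sup_left (le_sup_right.trans le_sup_right)
  · intro f hf
    rcases hS f hf with h | h
    · rcases e1 f ⟨hf, h⟩ with h' | ⟨i, hi⟩
      · exact Or.inl h'
      · refine Or.inr ⟨Sum.inl i, ?_⟩
        refine (sup_le_sup_left (Submodule.span_mono ?_) U) hi
        rintro _ ⟨j, hj, rfl⟩
        exact ⟨Sum.inl j, hj, rfl⟩
    · rcases e2 f ⟨hf, h⟩ with h' | ⟨i, hi⟩
      · exact Or.inl h'
      · refine Or.inr ⟨Sum.inr i, ?_⟩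
        refine (sup_le_sup_left (Submodule.span_mono ?_) U) hi
        rintro _ ⟨j, hj, rfl⟩
        exact ⟨Sum.inr j, hj, rfl⟩

theorem forest_chain (U T' T : Submodule ℝ V) (S : Set V) (m h : ℕ) (hm : 0 < m)
    (hh : h ≤ max 1 (m - 1)) (b0 : Fin m → V)
    (hind : ∀ c : Fin m → ℝ, ∑ i, c i • b0 i ∈ U → c = 0)
    (hspan : U ⊔ Submodule.span ℝ (Set.range b0) = T') (H : HasForest T' T S h) :
    HasForest U T S (m + 1) := by
  classical
  obtain ⟨ι2, β2, hι2, hβ2, b2, blk2, le2, ⟨r2, a2, t2, c2⟩, k2, l2, i2, s2, e2⟩ := H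
  have hUT' : U ≤ T' := by rw [← hspan]; exact le_sup_left
  set blk : Fin m ⊕ ι2 → Option β2 := Sum.elim (fun _ => none) (fun i => some (blk2 i)) with hblk
  have hn0 : (blk ⁻¹' {none}).ncard = m := by
    have : blk ⁻¹' {none} = Set.range (Sum.inl : Fin m → Fin m ⊕ ι2) := by
      ext i
      rcases i with i | i
      · exact ⟨fun _ => ⟨i, rfl⟩, fun _ => rfl⟩
      · constructor
        · intro hi
          have hi' : some (blk2 i) = none := hi
          cases hi'
        · rintro ⟨j, hj⟩
          cases hj
    rw [this, ← Set.image_univ, Set.ncard_image_of_injective _ Sum.inl_injective,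
      Set.ncard_univ, Nat.card_eq_fintype_card, Fintype.card_fin]
  have hns : ∀ x, (blk ⁻¹' {some x}).ncard = (blk2 ⁻¹' {x}).ncard := by
    intro x
    rw [← Set.ncard_image_of_injective (blk2 ⁻¹' {x}) (Sum.inr_injective (α := Fin m) (β := ι2))]
    congr 1
    ext i
    rcases i with i | i
    · constructor
      · intro hi
        have hi' : (none : Option β2) = some x := hi
        cases hi'
      · rintro ⟨j, _, hji⟩
        cases hji
    · constructor
      · intro hi
        have hi' : some (blk2 i) = some x := hi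
        exact ⟨i, Option.some_injective _ hi', rfl⟩
      · rintro ⟨j, hj, hji⟩
        rw [← hji]
        exact congrArg some hj
  have hinner : ∀ x, (blk2 ⁻¹' {x}).ncard + 2 ≤ m := by
    intro x
    have h1 := k2 x
    have h2 : h = max 1 (m - 1) ∨ h < max 1 (m - 1) := by omega
    have h3 := le_max_left 1 (m - 1)
    rcases max_choice 1 (m - 1) with h4 | h4
    · rw [h4] at hh
      omega
    · rw [h4] at hh
      omega
  refine ⟨Fin m ⊕ ι2, Option β2, inferInstance, inferInstance, Sum.elim b0 b2, blk, optLe le2,
    ⟨?_, ?_, ?_, ?_⟩, ?_, ?_, ?_, ?_, ?_⟩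
  · rintro (_ | i)
    · trivial
    · exact r2 i
  · rintro (_ | i) (_ | j) hij hji
    · rfl
    · exact hji.elim
    · exact hij.elim
    · rw [a2 i j hij hji]
  · rintro (_ | i) (_ | j) (_ | k) hij hjk
    · trivial
    · trivial
    · trivial
    · trivial
    · exact hij.elim
    · exact hij.elim
    · exact hjk.elim
    · exact t2 i j k hij hjk
  · rintro (_ | i) (_ | j) (_ | k) hij hjk
    · exact Or.inl trivial
    · exact hjk.elim
    · exact hij.elim
    · exact hij.elim
    · exact Or.inl trivial
    · exact Or.inl trivial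
    · exact Or.inr trivial
    · exact c2 i j k hij hjk
  · rintro (_ | x)
    · rw [hn0]
      omega
    · rw [hns]
      have := hinner x
      have := (k2 x).1
      omega
  · rintro (_ | x) (_ | y) hxy hne
    · exact absurd rfl hne
    · rw [hn0, hns]
      exact hinner y
    · exact hxy.elim
    · rw [hns, hns]
      exact l2 x y hxy (fun h' => hne (congrArg some h'))
  · intro c hc
    rw [Fintype.sum_sum_type] at hc
    simp only [Sum.elim_inl, Sum.elim_inr] at hc
    have m1 : ∑ i, c (Sum.inl i) • b0 i ∈ T' := by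
      apply Submodule.sum_mem
      intro i _
      apply Submodule.smul_mem
      rw [← hspan]
      exact (le_sup_right : _ ≤ U ⊔ Submodule.span ℝ (Set.range b0))
        (Submodule.subset_span (Set.mem_range_self i))
    have m2 : ∑ i, c (Sum.inr i) • b2 i ∈ T' := by
      have : ∑ i, c (Sum.inr i) • b2 i = (∑ i, c (Sum.inl i) • b0 i +
          ∑ i, c (Sum.inr i) • b2 i) - ∑ i, c (Sum.inl i) • b0 i := by abel
      rw [this]
      exact T'.sub_mem (hUT' hc) m1
    have z2 := i2 _ m2
    have z2' : ∑ i, c (Sum.inr i) • b2 i = 0 := by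
      apply Finset.sum_eq_zero
      intro i _
      have : c (Sum.inr i) = 0 := congrFun z2 i
      rw [this, zero_smul]
    rw [z2', add_zero] at hc
    have z1 := hind _ hc
    ext (i | i)
    · exact congrFun z1 i
    · exact congrFun z2 i
  · rw [Set.Sum.elim_range, Submodule.span_union, ← sup_assoc, hspan, s2]
  · intro f hf
    rcases e2 f hf with h | ⟨x, hx⟩
    · right
      refine ⟨none, ?_⟩
      rw [← hspan] at h
      refine (sup_le_sup_left (Submodule.span_mono ?_) U) h
      rintro _ ⟨j, rfl⟩
      exact ⟨Sum.inl j, trivial, rfl⟩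
    · right
      refine ⟨some x, ?_⟩
      rw [← hspan, sup_assoc] at hx
      refine (sup_le_sup_left ?_ U) hx
      apply sup_le
      · apply Submodule.span_mono
        rintro _ ⟨j, rfl⟩
        exact ⟨Sum.inl j, trivial, rfl⟩
      · apply Submodule.span_mono
        rintro _ ⟨j, hj, rfl⟩
        exact ⟨Sum.inr j, hj, rfl⟩

/-- An opposite pair of nonloops is a circuit. -/
theorem pair_circ (U : Submodule ℝ V) (f : V) (hf : f ∉ U) :
    ∃ k, Circ U k ∧ (∀ y, k y ≠ 0 → y = f ∨ y = -f) ∧ k.support.card = 2 := by
  classical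
  have hf0 : f ≠ 0 := by
    rintro rfl
    exact hf U.zero_mem
  have hne : f ≠ -f := by
    intro h
    apply hf0
    have h2 : (2 : ℝ) • f = 0 := by
      rw [two_smul]
      nth_rewrite 2 [h]
      exact add_neg_cancel f
    rcases smul_eq_zero.1 h2 with h3 | h3
    · norm_num at h3
    · exact h3
  set k : V →₀ ℝ := Finsupp.single f 1 + Finsupp.single (-f) 1 with hk
  have hkf : k f = 1 := by
    rw [hk, Finsupp.add_apply, Finsupp.single_eq_same, Finsupp.single_apply,
      if_neg (Ne.symm hne), add_zero]
  have hknf : k (-f) = 1 := by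
    rw [hk, Finsupp.add_apply, Finsupp.single_eq_same, Finsupp.single_apply, if_neg hne,
      zero_add]
  have hk0 : ∀ y, k y ≠ 0 → y = f ∨ y = -f := by
    intro y hy
    by_contra hcon
    push Not at hcon
    apply hy
    rw [hk, Finsupp.add_apply, Finsupp.single_apply, Finsupp.single_apply,
      if_neg (Ne.symm hcon.1), if_neg (Ne.symm hcon.2), add_zero]
  refine ⟨k, ⟨?_, ?_, ?_⟩, hk0, ?_⟩
  · intro h0
    rw [h0] at hkf
    simp at hkf
  · rw [hk, map_add, sm_single, sm_single, one_smul, one_smul, add_neg_cancel]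
    exact U.zero_mem
  · intro h hU hsub
    rw [supp_sub_iff] at hsub
    have hh : h = Finsupp.single f (h f) + Finsupp.single (-f) (h (-f)) := by
      ext y
      rw [Finsupp.add_apply]
      by_cases h1 : y = f
      · subst h1
        rw [Finsupp.single_eq_same, Finsupp.single_apply, if_neg (Ne.symm hne), add_zero]
      · by_cases h2 : y = -f
        · subst h2
          rw [Finsupp.single_eq_same, Finsupp.single_apply, if_neg hne, zero_add]
        · rw [Finsupp.single_apply, Finsupp.single_apply, if_neg (Ne.symm h1),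
            if_neg (Ne.symm h2), add_zero]
          apply hsub
          by_contra h3
          rcases hk0 y h3 with h4 | h4
          · exact h1 h4
          · exact h2 h4
    have hsm : sm h = (h f - h (-f)) • f := by
      conv_lhs => rw [hh]
      rw [map_add, sm_single, sm_single, smul_neg, sub_smul, sub_eq_add_neg]
    have heq : h f = h (-f) := by
      by_contra hcon
      apply hf
      have h1 : h f - h (-f) ≠ 0 := sub_ne_zero.2 hcon
      have h2 : f = (h f - h (-f))⁻¹ • ((h f - h (-f)) • f) := by
        rw [smul_smul, inv_mul_cancel₀ h1, one_smul]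
      rw [h2, ← hsm]
      exact U.smul_mem _ hU
    refine ⟨h f, ?_⟩
    conv_lhs => rw [hh]
    rw [hk, smul_add, Finsupp.smul_single, Finsupp.smul_single, smul_eq_mul, mul_one, ← heq]
  · have : k.support = {f, -f} := by
      ext y
      rw [Finsupp.mem_support_iff, Finset.mem_insert, Finset.mem_singleton]
      constructor
      · exact hk0 y
      · rintro (rfl | rfl)
        · rw [hkf]
          norm_num
        · rw [hknf]
          norm_num
    rw [this, Finset.card_pair hne]

/-- Forest structure of a symmetric configuration all of whose circuits have at most `c`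
elements. -/
theorem forest [FiniteDimensional ℝ V] (E : Set V) (hE : ∀ f ∈ E, -f ∈ E) : ∀ (n : ℕ)
    (U T : Submodule ℝ V) (c : ℕ), U ≤ T → Module.finrank ℝ T - Module.finrank ℝ U = n →
    U ⊔ spn {f | f ∈ E ∧ f ∈ T} = T → 1 ≤ c →
    (∀ k, Circ U k → (∀ y, k y ≠ 0 → y ∈ {f | f ∈ E ∧ f ∈ T}) → k.support.card ≤ c) →
    HasForest U T {f | f ∈ E ∧ f ∈ T} c := by
  classical
  intro n
  induction n using Nat.strong_induction_on with
  | _ n ih =>
    intro U T c hUT hn hspan hc hmax
    by_cases hUTeq : U = T
    · subst hUTeq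
      exact (forest_self U _ (fun f hf => hf.2)).mono (Nat.zero_le _)
    have hlt : U < T := lt_of_le_of_ne hUT hUTeq
    have hfr : Module.finrank ℝ U < Module.finrank ℝ T := Submodule.finrank_lt_finrank_of_lt hlt
    by_cases hI : Indec U T {f | f ∈ E ∧ f ∈ T}
    · -- a nonloop
      obtain ⟨f, hfS, hfU⟩ : ∃ f ∈ {f | f ∈ E ∧ f ∈ T}, f ∉ U := by
        by_contra hcon
        push Not at hcon
        apply hUTeq
        apply le_antisymm hUT
        rw [← hspan]
        apply sup_le le_rfl
        rw [spn_eq_span, Submodule.span_le]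
        exact hcon
      obtain ⟨k2, hk2, hk2S, hk2c⟩ := pair_circ U f hfU
      have hk2S' : ∀ y, k2 y ≠ 0 → y ∈ {f | f ∈ E ∧ f ∈ T} := by
        intro y hy
        rcases hk2S y hy with rfl | rfl
        · exact hfS
        · exact ⟨hE f hfS.1, T.neg_mem hfS.2⟩
      -- a largest circuit
      set P : ℕ → Prop := fun m => ∃ k, Circ U k ∧
        (∀ y, k y ≠ 0 → y ∈ {f | f ∈ E ∧ f ∈ T}) ∧ k.support.card = m with hP
      have hP2 : P 2 := ⟨k2, hk2, hk2S', hk2c⟩
      have hPc : ∀ m, P m → m ≤ c := by
        rintro m ⟨k, h1, h2, rfl⟩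
        exact hmax k h1 h2
      obtain ⟨gC, hC, hCS, hCc⟩ := Nat.findGreatest_spec (hPc 2 hP2) hP2
      have hbig : ∀ k, Circ U k → (∀ y, k y ≠ 0 → y ∈ {f | f ∈ E ∧ f ∈ T}) →
          k.support.card ≤ gC.support.card := by
        intro k h1 h2
        rw [hCc]
        exact Nat.le_findGreatest (hmax k h1 h2) ⟨k, h1, h2, rfl⟩
      have hc2 : 2 ≤ gC.support.card := by
        have := hbig k2 hk2 hk2S'
        omega
      have hcc : gC.support.card ≤ c := hmax gC hC hCS
      clear hCc
      set T' : Submodule ℝ V := U ⊔ spn {y | gC y ≠ 0} with hT'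
      have hUT' : U ≤ T' := le_sup_left
      have hT'T : T' ≤ T := by
        apply sup_le hUT
        rw [spn_eq_span, Submodule.span_le]
        intro y hy
        exact (hCS y hy).2
      obtain ⟨c0, hc0⟩ := Finsupp.ne_iff.1 hC.1
      simp only [Finsupp.coe_zero, Pi.zero_apply] at hc0
      have hc0U : c0 ∉ U := nonloop hC hc2 hc0
      have hUT'lt : U < T' := by
        refine lt_of_le_of_ne hUT' ?_
        intro h
        apply hc0U
        rw [h]
        exact (le_sup_right : spn {y | gC y ≠ 0} ≤ T') (subset_spn hc0)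
      have hfr' : Module.finrank ℝ U < Module.finrank ℝ T' :=
        Submodule.finrank_lt_finrank_of_lt hUT'lt
      have hfr'' : Module.finrank ℝ T' ≤ Module.finrank ℝ T := Submodule.finrank_mono hT'T
      have hIH := ih (Module.finrank ℝ T - Module.finrank ℝ T') (by omega) T' T
        (max 1 (gC.support.card - 2)) hT'T rfl (by
          apply le_antisymm
          · apply sup_le hT'T
            rw [spn_eq_span, Submodule.span_le]
            intro y hy
            exact hy.2
          · conv_lhs => rw [← hspan]
            exact sup_le_sup_right hUT' _) (le_max_left _ _)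
        (fun k hk hkS => contract U T {f | f ∈ E ∧ f ∈ T} hspan hI gC.support.card hbig gC hC hCS
          rfl hc2 k hk hkS)
      -- the chain
      set F : Finset V := gC.support.erase c0 with hF
      have hFc : F.card = gC.support.card - 1 :=
        Finset.card_erase_of_mem (Finsupp.mem_support_iff.2 hc0)
      set e : Fin (gC.support.card - 1) ≃ F := (Fintype.equivFinOfCardEq (by
        rw [Fintype.card_coe, hFc])).symm with he
      set b0 : Fin (gC.support.card - 1) → V := fun i => (e i : V) with hb0
      have hb0inj : Function.Injective b0 := fun i j hij => e.injective (Subtype.ext hij)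
      have hb0mem : ∀ i, gC (b0 i) ≠ 0 ∧ b0 i ≠ c0 := by
        intro i
        have h1 := Finset.mem_erase.1 (e i).2
        exact ⟨Finsupp.mem_support_iff.1 h1.2, h1.1⟩
      have hb0sur : ∀ y, gC y ≠ 0 → y ≠ c0 → ∃ i, b0 i = y := by
        intro y h1 h2
        have hyF : y ∈ F := by
          rw [hF, Finset.mem_erase, Finsupp.mem_support_iff]
          exact ⟨h2, h1⟩
        refine ⟨e.symm ⟨y, hyF⟩, ?_⟩
        rw [hb0]
        simp
      have hch := forest_chain U T' T {f | f ∈ E ∧ f ∈ T} (gC.support.card - 1)
        (max 1 (gC.support.card - 2)) (by omega) (by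
          have : gC.support.card - 1 - 1 = gC.support.card - 2 := by omega
          rw [this]) b0 (by
          intro a ha
          set h : V →₀ ℝ := ∑ i, Finsupp.single (b0 i) (a i) with hh
          have hsm : sm h = ∑ i, a i • b0 i := by
            rw [hh, map_sum]
            apply Finset.sum_congr rfl
            intro i _
            rw [sm_single]
          have hval : ∀ i, h (b0 i) = a i := by
            intro i
            rw [hh, Finsupp.finsetSum_apply, Finset.sum_eq_single i]
            · rw [Finsupp.single_eq_same]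
            · intro j _ hji
              rw [Finsupp.single_apply, if_neg]
              intro h'
              exact hji (hb0inj h')
            · intro h'
              exact absurd (Finset.mem_univ i) h'
          have hout : ∀ y, (∀ i, b0 i ≠ y) → h y = 0 := by
            intro y hy
            rw [hh, Finsupp.finsetSum_apply]
            apply Finset.sum_eq_zero
            intro i _
            rw [Finsupp.single_apply, if_neg (hy i)]
          obtain ⟨t, ht⟩ := hC.2.2 h (by rw [hsm]; exact ha) (supp_sub_iff.2 (fun y hy =>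
            hout y (fun i hi => (hb0mem i).1 (by rw [hi]; exact hy))))
          have h0 : h c0 = 0 := hout c0 (fun i hi => (hb0mem i).2 hi)
          have ht0 : t = 0 := by
            rw [ht] at h0
            simp only [Finsupp.coe_smul, Pi.smul_apply, smul_eq_mul] at h0
            rcases mul_eq_zero.1 h0 with h' | h'
            · exact h'
            · exact absurd h' hc0
          ext i
          rw [← hval i, ht, ht0]
          simp) (by
          apply le_antisymm
          · apply sup_le hUT'
            rw [Submodule.span_le]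
            rintro _ ⟨i, rfl⟩
            exact (le_sup_right : spn {y | gC y ≠ 0} ≤ T') (subset_spn (hb0mem i).1)
          · apply sup_le le_sup_left
            rw [spn_eq_span, Submodule.span_le]
            have hothers : ∀ y, gC y ≠ 0 → y ≠ c0 →
                y ∈ U ⊔ Submodule.span ℝ (Set.range b0) := by
              intro y h1 h2
              obtain ⟨i, rfl⟩ := hb0sur y h1 h2
              exact (le_sup_right : _ ≤ U ⊔ Submodule.span ℝ (Set.range b0))
                (Submodule.subset_span (Set.mem_range_self i))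
            intro y hy
            by_cases hyc : y = c0
            · subst hyc
              have hrest : sm (gC.erase y) ∈ U ⊔ Submodule.span ℝ (Set.range b0) := by
                unfold sm
                rw [Finsupp.linearCombination_apply, Finsupp.sum]
                apply Submodule.sum_mem
                intro z hz
                rw [Finsupp.support_erase, Finset.mem_erase, Finsupp.mem_support_iff] at hz
                exact Submodule.smul_mem _ _ (hothers z hz.2 hz.1)
              have hsplit : sm gC = gC y • y + sm (gC.erase y) := by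
                conv_lhs => rw [← Finsupp.single_add_erase y gC]
                rw [map_add, sm_single]
              have h3 : gC y • y ∈ U ⊔ Submodule.span ℝ (Set.range b0) := by
                have : gC y • y = sm gC - sm (gC.erase y) := by
                  rw [hsplit]
                  abel
                rw [this]
                exact Submodule.sub_mem _ ((le_sup_left : U ≤ _) hC.2.1) hrest
              have h4 : y = (gC y)⁻¹ • (gC y • y) := by
                rw [smul_smul, inv_mul_cancel₀ hy, one_smul]
              rw [h4]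
              exact Submodule.smul_mem _ _ h3
            · exact hothers y hy hyc) hIH
      exact hch.mono (by omega)
    · -- decomposable
      unfold Indec at hI
      push Not at hI
      obtain ⟨T1, T2, hsup, hinf, hcov, h1U, h2U⟩ := hI
      have hUT1 : U ≤ T1 := by rw [← hinf]; exact inf_le_left
      have hUT2 : U ≤ T2 := by rw [← hinf]; exact inf_le_right
      have hT1T : T1 ≤ T := by rw [← hsup]; exact le_sup_left
      have hT2T : T2 ≤ T := by rw [← hsup]; exact le_sup_right
      have hT1ne : T1 ≠ T := by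
        rintro rfl
        apply h2U
        rw [← hinf]
        exact (inf_eq_right.2 hT2T).symm
      have hT2ne : T2 ≠ T := by
        rintro rfl
        apply h1U
        rw [← hinf]
        exact (inf_eq_left.2 hT1T).symm
      have f1 : Module.finrank ℝ T1 < Module.finrank ℝ T :=
        Submodule.finrank_lt_finrank_of_lt (lt_of_le_of_ne hT1T hT1ne)
      have f2 : Module.finrank ℝ T2 < Module.finrank ℝ T :=
        Submodule.finrank_lt_finrank_of_lt (lt_of_le_of_ne hT2T hT2ne)
      have hcover : T ≤ (U ⊔ spn {f | f ∈ E ∧ f ∈ T1}) ⊔ (U ⊔ spn {f | f ∈ E ∧ f ∈ T2}) := by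
        conv_lhs => rw [← hspan]
        apply sup_le (le_sup_left.trans le_sup_left)
        rw [spn_eq_span, Submodule.span_le]
        intro f hf
        rcases hcov f hf with h | h
        · exact (le_sup_right.trans le_sup_left : spn {f | f ∈ E ∧ f ∈ T1} ≤ _)
            (subset_spn ⟨hf.1, h⟩)
        · exact (le_sup_right.trans le_sup_right : spn {f | f ∈ E ∧ f ∈ T2} ≤ _)
            (subset_spn ⟨hf.1, h⟩)
      have hle1 : U ⊔ spn {f | f ∈ E ∧ f ∈ T1} ≤ T1 := by
        apply sup_le hUT1
        rw [spn_eq_span, Submodule.span_le]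
        intro y hy
        exact hy.2
      have hle2 : U ⊔ spn {f | f ∈ E ∧ f ∈ T2} ≤ T2 := by
        apply sup_le hUT2
        rw [spn_eq_span, Submodule.span_le]
        intro y hy
        exact hy.2
      have hsp1 : U ⊔ spn {f | f ∈ E ∧ f ∈ T1} = T1 := by
        apply le_antisymm hle1
        intro x hx
        obtain ⟨a, ha, b, hb, hab⟩ := Submodule.mem_sup.1 (hcover (hT1T hx))
        have hbU : b ∈ U := by
          rw [← hinf]
          refine ⟨?_, hle2 hb⟩
          have : b = x - a := by rw [← hab]; abel
          rw [this]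
          exact T1.sub_mem hx (hle1 ha)
        rw [← hab]
        exact Submodule.add_mem _ ha ((le_sup_left : U ≤ _) hbU)
      have hsp2 : U ⊔ spn {f | f ∈ E ∧ f ∈ T2} = T2 := by
        apply le_antisymm hle2
        intro x hx
        obtain ⟨a, ha, b, hb, hab⟩ := Submodule.mem_sup.1 (hcover (hT2T hx))
        have haU : a ∈ U := by
          rw [← hinf]
          refine ⟨hle1 ha, ?_⟩
          have : a = x - b := by rw [← hab]; abel
          rw [this]
          exact T2.sub_mem hx (hle2 hb)
        rw [← hab]
        exact Submodule.add_mem _ ((le_sup_left : U ≤ _) haU) hb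
      have H1 := ih _ (by omega) U T1 c hUT1 rfl hsp1 hc (fun k hk hkS =>
        hmax k hk (fun y hy => ⟨(hkS y hy).1, hT1T (hkS y hy).2⟩))
      have H2 := ih _ (by omega) U T2 c hUT2 rfl hsp2 hc (fun k hk hkS =>
        hmax k hk (fun y hy => ⟨(hkS y hy).1, hT2T (hkS y hy).2⟩))
      rw [← hsup] at hcov ⊢
      have e1 : {f | f ∈ {f | f ∈ E ∧ f ∈ T1 ⊔ T2} ∧ f ∈ T1} = {f | f ∈ E ∧ f ∈ T1} := by
        ext f
        constructor
        · rintro ⟨⟨h1, _⟩, h2⟩
          exact ⟨h1, h2⟩
        · rintro ⟨h1, h2⟩
          exact ⟨⟨h1, (le_sup_left : T1 ≤ T1 ⊔ T2) h2⟩, h2⟩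
      have e2 : {f | f ∈ {f | f ∈ E ∧ f ∈ T1 ⊔ T2} ∧ f ∈ T2} = {f | f ∈ E ∧ f ∈ T2} := by
        ext f
        constructor
        · rintro ⟨⟨h1, _⟩, h2⟩
          exact ⟨h1, h2⟩
        · rintro ⟨h1, h2⟩
          exact ⟨⟨h1, (le_sup_right : T2 ≤ T1 ⊔ T2) h2⟩, h2⟩
      apply forest_sum U T1 T2 _ _ hinf hcov
      · rw [e1]
        exact H1
      · rw [e2]
        exact H2

end Pool.Agent.Helper59.HD
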