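import Pool.Agent.Helper59.HD.ForestB
import Pool.Agent.Helper59.HD.Defs

/-!
# Smooth normals of a symmetric convex body and property `Sz(r)`
-/

open scoped RealInnerProductSpace Topology

namespace Pool.Agent.Helper59.HD

variable {X : Type} [NormedAddCommGroup X] [InnerProductSpace ℝ X] [FiniteDimensional ℝ X]

/-- Smooth normals: derivatives of the gauge at points of differentiability. -/
def Nrm (F : Set X) : Set X :=
  {g | ∃ y, gauge F y = 1 ∧ ∃ L : X →L[ℝ] ℝ, HasFDerivAt (gauge F) L y ∧ ∀ z, L z = ⟪g, z⟫}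

/-- A derivative of the gauge at a point of positive gauge is a smooth normal. -/
theorem nrm_of (F : Set X) (g y : X) (hy : 0 < gauge F y) (L : X →L[ℝ] ℝ)
    (hL : HasFDerivAt (gauge F) L y) (hg : ∀ z, L z = ⟪g, z⟫) : g ∈ Nrm F := by
  set t : ℝ := gauge F y with ht
  refine ⟨t⁻¹ • y, ?_, L, ?_, hg⟩
  · rw [gauge_smul_of_nonneg (inv_nonneg.2 hy.le), smul_eq_mul, ← ht, inv_mul_cancel₀ hy.ne']
  · have h1 : HasFDerivAt (fun z : X => t • z) (t • ContinuousLinearMap.id ℝ X) (t⁻¹ • y) :=
      (hasFDerivAt_id (t⁻¹ • y)).const_smul t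
    have h2 : HasFDerivAt (gauge F) L (t • (t⁻¹ • y)) := by
      rw [smul_smul, mul_inv_cancel₀ hy.ne', one_smul]
      exact hL
    have h3 := (h2.comp (t⁻¹ • y) h1).const_smul t⁻¹
    have e1 : (t⁻¹ • (gauge F ∘ fun z : X => t • z)) = gauge F := by
      ext z
      simp only [Pi.smul_apply, Function.comp_apply, smul_eq_mul]
      rw [gauge_smul_of_nonneg hy.le, smul_eq_mul, ← mul_assoc, inv_mul_cancel₀ hy.ne', one_mul]
    have e2 : t⁻¹ • (L.comp (t • ContinuousLinearMap.id ℝ X)) = L := by
      ext z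
      simp only [smul_apply, ContinuousLinearMap.comp_apply,
        ContinuousLinearMap.id_apply, map_smul, smul_eq_mul]
      rw [← mul_assoc, inv_mul_cancel₀ hy.ne', one_mul]
    rw [e1, e2] at h3
    exact h3

theorem dir_le (F : Set X) (g y : X) (L : X →L[ℝ] ℝ) (hL : HasFDerivAt (gauge F) L y)
    (hg : ∀ z, L z = ⟪g, z⟫) (w : X) (c : ℝ)
    (h : ∀ᶠ t : ℝ in 𝓝[>] 0, gauge F (y + t • w) ≤ gauge F y + t * c) : ⟪g, w⟫ ≤ c := by
  have h1 := (hL.hasLineDerivAt w).tendsto_slope_zero_right
  rw [hg w] at h1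
  apply le_of_tendsto h1
  filter_upwards [h, self_mem_nhdsWithin] with t ht ht0
  have ht0 : 0 < t := ht0
  rw [smul_eq_mul, inv_mul_le_iff₀ ht0]
  linarith

theorem dir_lt (F : Set X) (g y : X) (L : X →L[ℝ] ℝ) (hL : HasFDerivAt (gauge F) L y)
    (hg : ∀ z, L z = ⟪g, z⟫) (w : X) (hw : ⟪g, w⟫ < 0) :
    ∀ᶠ t : ℝ in 𝓝[>] 0, gauge F (y + t • w) < gauge F y := by
  have h1 := (hL.hasLineDerivAt w).tendsto_slope_zero_right
  rw [hg w] at h1
  filter_upwards [h1.eventually (gt_mem_nhds hw), self_mem_nhdsWithin] with t ht ht0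
  have ht0 : 0 < t := ht0
  rw [smul_eq_mul, inv_mul_lt_iff₀ ht0, mul_zero] at ht
  linarith

/-- The standing hypotheses: a convex body symmetric about the origin. -/
structure SymBody (F : Set X) : Prop where
  compact : IsCompact F
  convex : Convex ℝ F
  nhds : F ∈ 𝓝 (0 : X)
  symm : ∀ x ∈ F, -x ∈ F

theorem SymBody.mem_iff {F : Set X} (h : SymBody F) (x : X) : x ∈ F ↔ gauge F x ≤ 1 := by
  rw [gauge_le_one_iff_mem_closure h.convex h.nhds, h.compact.isClosed.closure_eq]

theorem SymBody.add_le {F : Set X} (h : SymBody F) (x y : X) :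
    gauge F (x + y) ≤ gauge F x + gauge F y :=
  gauge_add_le h.convex (absorbent_nhds_zero h.nhds) x y

theorem nrm_le {F : Set X} (h : SymBody F) {g : X} (hg : g ∈ Nrm F) (z : X) :
    ⟪g, z⟫ ≤ gauge F z := by
  obtain ⟨y, _, L, hL, hLg⟩ := hg
  apply dir_le F g y L hL hLg z
  filter_upwards [self_mem_nhdsWithin] with t ht0
  have ht0 : 0 < t := ht0
  refine (h.add_le y (t • z)).trans ?_
  rw [gauge_smul_of_nonneg ht0.le, smul_eq_mul]

theorem nrm_euler {F : Set X} (g y : X) (hy : gauge F y = 1)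
    (L : X →L[ℝ] ℝ) (hL : HasFDerivAt (gauge F) L y) (hLg : ∀ z, L z = ⟪g, z⟫) :
    1 ≤ ⟪g, y⟫ := by
  have h1 : ⟪g, -y⟫ ≤ -1 := by
    apply dir_le F g y L hL hLg (-y)
    have h2 : ∀ᶠ t : ℝ in 𝓝[>] 0, t < 1 :=
      (gt_mem_nhds (zero_lt_one : (0 : ℝ) < 1)).filter_mono nhdsWithin_le_nhds
    filter_upwards [h2] with t ht
    have e : y + t • (-y) = (1 - t) • y := by
      rw [sub_smul, one_smul, smul_neg, sub_eq_add_neg]
    rw [e, gauge_smul_of_nonneg (by linarith), smul_eq_mul, hy]
    linarith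
  rw [inner_neg_right] at h1
  linarith

theorem nrm_neg {F : Set X} (h : SymBody F) {g : X} (hg : g ∈ Nrm F) : -g ∈ Nrm F := by
  obtain ⟨y, hy, L, hL, hLg⟩ := hg
  refine ⟨-y, by rw [gauge_neg h.symm, hy], L.comp (-ContinuousLinearMap.id ℝ X), ?_, ?_⟩
  · have h1 : HasFDerivAt (fun z : X => -z) (-ContinuousLinearMap.id ℝ X) (-y) :=
      (hasFDerivAt_id (-y)).neg
    have h2 : HasFDerivAt (gauge F) L (-(-y)) := by
      rw [neg_neg]
      exact hL
    have h3 := h2.comp (-y) h1
    have e1 : (gauge F ∘ fun z : X => -z) = gauge F := by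
      ext z
      exact gauge_neg h.symm z
    rw [e1] at h3
    exact h3
  · intro z
    simp [hLg]

/-- The smooth normals determine the body. -/
theorem exists_nrm {F : Set X} (h : SymBody F) (x : X) (hx : 1 < gauge F x) :
    ∃ g ∈ Nrm F, 1 < ⟪g, x⟫ := by
  borelize X
  obtain ⟨K, hK⟩ := h.convex.lipschitz_gauge h.nhds
  have hd : Dense {y : X | DifferentiableAt ℝ (gauge F) y} :=
    MeasureTheory.Measure.dense_of_ae (μ := MeasureTheory.Measure.addHaar)
      hK.ae_differentiableAt
  have hc : Continuous (fun y => gauge F y - gauge F (y - x)) :=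
    hK.continuous.sub (hK.continuous.comp (continuous_id.sub continuous_const))
  have ho : IsOpen {y | 1 < gauge F y - gauge F (y - x)} := isOpen_lt continuous_const hc
  obtain ⟨y, hy1, hy2⟩ := hd.exists_mem_open ho ⟨x, by
    show 1 < gauge F x - gauge F (x - x)
    rw [sub_self, gauge_zero, sub_zero]
    exact hx⟩
  have hy2 : 1 < gauge F y - gauge F (y - x) := hy2
  have hpos : 0 < gauge F y := by
    have := gauge_nonneg (s := F) (y - x)
    linarith
  set g : X := (InnerProductSpace.toDual ℝ X).symm (fderiv ℝ (gauge F) y) with hg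
  have hgz : ∀ z, fderiv ℝ (gauge F) y z = ⟪g, z⟫ := by
    intro z
    rw [hg, InnerProductSpace.toDual_symm_apply]
  have hgN : g ∈ Nrm F := nrm_of F g y hpos _ hy1.hasFDerivAt hgz
  refine ⟨g, hgN, ?_⟩
  -- Euler at `y`
  have h1 : ⟪g, -y⟫ ≤ -gauge F y := by
    apply dir_le F g y _ hy1.hasFDerivAt hgz (-y)
    have h2 : ∀ᶠ t : ℝ in 𝓝[>] 0, t < 1 :=
      (gt_mem_nhds (zero_lt_one : (0 : ℝ) < 1)).filter_mono nhdsWithin_le_nhds
    filter_upwards [h2] with t ht
    have e : y + t • (-y) = (1 - t) • y := by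
      rw [sub_smul, one_smul, smul_neg, sub_eq_add_neg]
    rw [e, gauge_smul_of_nonneg (by linarith), smul_eq_mul]
    linarith
  have h3 := nrm_le h hgN (y - x)
  rw [inner_neg_right] at h1
  rw [inner_sub_right] at h3
  linarith

/-- The smooth normals span the space. -/
theorem nrm_span {F : Set X} (h : SymBody F) : Submodule.span ℝ (Nrm F) = ⊤ := by
  rw [← Submodule.orthogonal_eq_bot_iff, Submodule.eq_bot_iff]
  intro x hx
  by_contra hx0
  have hall : ∀ t : ℝ, t • x ∈ F := by
    intro t
    rw [h.mem_iff]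
    by_contra hcon
    push Not at hcon
    obtain ⟨g, hg, hg1⟩ := exists_nrm h (t • x) hcon
    have : ⟪g, x⟫ = 0 := (Submodule.mem_orthogonal _ _).1 hx g (Submodule.subset_span hg)
    rw [inner_smul_right, this, mul_zero] at hg1
    linarith
  obtain ⟨R, hR⟩ := h.compact.isBounded.subset_closedBall 0
  have h1 := hR (hall ((|R| + 1) / ‖x‖))
  rw [Metric.mem_closedBall, dist_zero_right, norm_smul, Real.norm_eq_abs, abs_div,
    abs_norm, div_mul_cancel₀ _ (norm_ne_zero_iff.2 hx0)] at h1
  have h2 := le_abs_self R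
  have h3 : |(|R| + 1)| = |R| + 1 := abs_of_nonneg (by positivity)
  rw [h3] at h1
  linarith

/-- Prescribing the inner products with linearly independent vectors. -/
theorem prescribe {ι : Type} (v : ι → X) (hv : LinearIndependent ℝ v) (c : ι → ℝ) :
    ∃ w : X, ∀ i, ⟪v i, w⟫ = c i := by
  obtain ⟨φ, hφ⟩ := LinearMap.exists_extend ((Module.Basis.span hv).constr ℝ c)
  refine ⟨(InnerProductSpace.toDual ℝ X).symm φ.toContinuousLinearMap, fun i => ?_⟩
  rw [real_inner_comm, InnerProductSpace.toDual_symm_apply]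
  change φ (v i) = c i
  have h1 : φ (v i) = (φ ∘ₗ (Submodule.span ℝ (Set.range v)).subtype)
      (Module.Basis.span hv i) := by
    simp [Module.Basis.span_apply]
  rw [h1, hφ, Module.Basis.constr_basis]

/-- Circuits of smooth normals of a body with `Sz(r)` have at most `r + 1` elements. -/
theorem circ_le {F : Set X} (h : SymBody F) {r : ℕ} (hr : 1 ≤ r) (hSz : Sz r F) (k : X →₀ ℝ)
    (hk : Circ ⊥ k) (hkN : ∀ y, k y ≠ 0 → y ∈ Nrm F) : k.support.card ≤ r + 1 := by
  classical
  by_contra hlt
  push Not at hlt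
  -- signed normals
  set f : k.support → X := fun i => if 0 < k i then (i : X) else -(i : X) with hf
  have hfN : ∀ i, f i ∈ Nrm F := by
    intro i
    have hi := hkN i (Finsupp.mem_support_iff.1 i.2)
    rw [hf]
    simp only
    split_ifs
    · exact hi
    · exact nrm_neg h hi
  have hfk : ∀ i : k.support, |k i| • f i = k i • (i : X) := by
    intro i
    rw [hf]
    simp only
    split_ifs with h0
    · rw [abs_of_pos h0]
    · rw [abs_of_nonpos (not_lt.1 h0), smul_neg, neg_smul, neg_neg]
  have hsum : ∑ i : k.support, |k i| • f i = 0 := by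
    simp only [hfk]
    have h1 : sm k = 0 := by
      have := hk.2.1
      rwa [Submodule.mem_bot] at this
    unfold sm at h1
    rw [Finsupp.linearCombination_apply, Finsupp.sum] at h1
    rw [← h1, ← Finset.sum_coe_sort k.support]
    rfl
  choose y hy L hL hLg using hfN
  have hEuler : ∀ i, 1 ≤ ⟪f i, y i⟫ := fun i => nrm_euler (f i) (y i) (hy i) (L i) (hL i) (hLg i)
  -- the vectors `w i0`
  have hw : ∀ i0 : k.support, ∃ w : X, ∀ i : k.support, i ≠ i0 → ⟪f i, w⟫ < 0 := by
    intro i0
    have hli : LinearIndependent ℝ (fun i : {i : k.support // i ≠ i0} => ((i : k.support) : X)) := by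
      rw [linearIndependent_iff]
      intro l hl
      have hinj : Function.Injective (fun i : {i : k.support // i ≠ i0} => ((i : k.support) : X)) :=
        fun a b hab => Subtype.ext (Subtype.ext hab)
      set g : X →₀ ℝ := Finsupp.mapDomain
        (fun i : {i : k.support // i ≠ i0} => ((i : k.support) : X)) l with hg
      have hgout : ∀ z : X, (∀ i : {i : k.support // i ≠ i0}, ((i : k.support) : X) ≠ z) →
          g z = 0 := by
        intro z hz
        rw [hg]
        apply Finsupp.mapDomain_of_notMem_range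
        rintro ⟨i, hi⟩
        exact hz i hi
      have hsg : sm g = 0 := by
        unfold sm
        rw [hg, Finsupp.linearCombination_mapDomain]
        exact hl
      obtain ⟨t, ht⟩ := hk.2.2 g (by rw [hsg]; exact Submodule.zero_mem _)
        (supp_sub_iff.2 (fun z hz => hgout z (fun i hi => by
          have := Finsupp.mem_support_iff.1 (i : k.support).2
          rw [hi] at this
          exact this hz)))
      have h0 : g (i0 : X) = 0 := hgout _ (fun i hi => i.2 (Subtype.ext hi))
      have ht0 : t = 0 := by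
        rw [ht] at h0
        simp only [Finsupp.coe_smul, Pi.smul_apply, smul_eq_mul] at h0
        rcases mul_eq_zero.1 h0 with h' | h'
        · exact h'
        · exact absurd h' (Finsupp.mem_support_iff.1 i0.2)
      have hg0 : g = 0 := by rw [ht, ht0, zero_smul]
      apply Finsupp.mapDomain_injective hinj
      rw [← hg, hg0, Finsupp.mapDomain_zero]
    obtain ⟨w, hw⟩ := prescribe _ hli (fun i => if 0 < k (i : k.support) then -1 else 1)
    refine ⟨w, fun i hi => ?_⟩
    have h1 := hw ⟨i, hi⟩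
    simp only at h1
    rw [hf]
    simp only
    by_cases h0 : 0 < k (i : X)
    · rw [if_pos h0] at h1 ⊢
      rw [h1]
      norm_num
    · rw [if_neg h0] at h1 ⊢
      rw [inner_neg_left, h1]
      norm_num
  choose w hw using hw
  -- a common small parameter
  have hev : ∀ᶠ s : ℝ in 𝓝[>] 0, ∀ i0 i : k.support, i ≠ i0 → gauge F (y i + s • w i0) < 1 := by
    rw [Filter.eventually_all]
    intro i0
    rw [Filter.eventually_all]
    intro i
    by_cases hi : i ≠ i0
    · filter_upwards [dir_lt F (f i) (y i) (L i) (hL i) (hLg i) (w i0) (hw i0 i hi)] with s hs _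
      rw [hy i] at hs
      exact hs
    · exact Filter.Eventually.of_forall (fun s hi' => absurd hi' hi)
  obtain ⟨s, hs, -⟩ := (hev.and self_mem_nhdsWithin).exists
  have hcont := (continuous_gauge h.convex h.nhds)
  have hev2 : ∀ᶠ ε : ℝ in 𝓝[>] 0, ∀ i0 i : k.support, i ≠ i0 →
      gauge F ((1 + ε) • y i + s • w i0) < 1 := by
    rw [Filter.eventually_all]
    intro i0
    rw [Filter.eventually_all]
    intro i
    by_cases hi : i ≠ i0
    · have hc : Continuous (fun ε : ℝ => gauge F ((1 + ε) • y i + s • w i0)) :=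
        hcont.comp (by fun_prop)
      have h0 : gauge F ((1 + (0 : ℝ)) • y i + s • w i0) < 1 := by
        rw [add_zero, one_smul]
        exact hs i0 i hi
      have h1 := (hc.tendsto 0).eventually (gt_mem_nhds h0)
      filter_upwards [h1.filter_mono nhdsWithin_le_nhds] with ε hε _
      exact hε
    · exact Filter.Eventually.of_forall (fun s hi' => absurd hi' hi)
  obtain ⟨ε, hε, hε0⟩ := (hev2.and self_mem_nhdsWithin).exists
  have hε0 : 0 < ε := hε0
  obtain ⟨x, hx⟩ := hSz.fin (fun i : k.support => -((1 + ε) • y i)) (by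
    intro J hJ
    have hex : ∃ i0, i0 ∉ J := by
      by_contra hcon
      push Not at hcon
      have h1 : J = Finset.univ := Finset.eq_univ_iff_forall.2 hcon
      rw [h1, Finset.card_univ, Fintype.card_coe] at hJ
      omega
    obtain ⟨i0, hi0⟩ := hex
    refine ⟨s • w i0, fun i hi => ?_⟩
    rw [h.mem_iff, sub_neg_eq_add, add_comm]
    exact (hε i0 i (fun h' => hi0 (h' ▸ hi))).le)
  -- contradiction
  have hneg : ∀ i : k.support, ⟪f i, x⟫ ≤ -ε := by
    intro i
    have h1 := hx i
    rw [h.mem_iff, sub_neg_eq_add] at h1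
    have h2 := nrm_le h (⟨y i, hy i, L i, hL i, hLg i⟩ : f i ∈ Nrm F) (x + (1 + ε) • y i)
    rw [inner_add_right, inner_smul_right] at h2
    have h3 := hEuler i
    nlinarith
  have hz : ∑ i : k.support, |k i| * ⟪f i, x⟫ = 0 := by
    have : ⟪∑ i : k.support, |k i| • f i, x⟫ = 0 := by rw [hsum, inner_zero_left]
    rw [sum_inner] at this
    simpa [inner_smul_left] using this
  have hlt2 : ∑ i : k.support, |k i| * ⟪f i, x⟫ < 0 := by
    apply Finset.sum_neg
    · intro i _
      have h1 : 0 < |k i| := abs_pos.2 (Finsupp.mem_support_iff.1 i.2)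
      have h2 := hneg i
      nlinarith
    · have : 0 < k.support.card := by omega
      obtain ⟨i, hi⟩ := Finset.card_pos.1 this
      exact ⟨⟨i, hi⟩, Finset.mem_univ _⟩
  linarith

end Pool.Agent.Helper59.HD
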