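import Pool.Agent.Helper59.HD.Circ

/-!
# Linking two skew circuits, and contraction of a largest circuit
-/

namespace Pool.Agent.Helper59.HD

variable {V : Type} [AddCommGroup V] [Module ℝ V]

/-- Span of a set of vectors, through formal combinations. -/
noncomputable def spn (s : Set V) : Submodule ℝ V := (Finsupp.supported ℝ ℝ s).map sm

theorem mem_spn {s : Set V} {v : V} :
    v ∈ spn s ↔ ∃ x : V →₀ ℝ, (∀ y, x y ≠ 0 → y ∈ s) ∧ sm x = v := by
  unfold spn
  rw [Submodule.mem_map]
  constructor
  · rintro ⟨x, hx, rfl⟩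
    rw [Finsupp.mem_supported] at hx
    exact ⟨x, fun y hy => hx (Finset.mem_coe.2 (Finsupp.mem_support_iff.2 hy)), rfl⟩
  · rintro ⟨x, hx, rfl⟩
    refine ⟨x, ?_, rfl⟩
    rw [Finsupp.mem_supported]
    intro y hy
    exact hx y (Finsupp.mem_support_iff.1 (Finset.mem_coe.1 hy))

theorem sm_single (v : V) (a : ℝ) : sm (Finsupp.single v a) = a • v := by
  unfold sm
  simp

theorem subset_spn {s : Set V} {v : V} (hv : v ∈ s) : v ∈ spn s := by
  classical
  rw [mem_spn]
  refine ⟨Finsupp.single v 1, fun y hy => ?_, by rw [sm_single, one_smul]⟩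
  by_contra hne
  apply hy
  rw [Finsupp.single_apply, if_neg]
  rintro rfl
  exact hne hv

theorem spn_eq_span (s : Set V) : spn s = Submodule.span ℝ s := by
  apply le_antisymm
  · intro v hv
    obtain ⟨x, hx, rfl⟩ := mem_spn.1 hv
    unfold sm
    rw [Finsupp.linearCombination_apply, Finsupp.sum]
    apply Submodule.sum_mem
    intro y hy
    exact Submodule.smul_mem _ _ (Submodule.subset_span (hx y (Finsupp.mem_support_iff.1 hy)))
  · rw [Submodule.span_le]
    intro v hv
    exact subset_spn hv

omit [AddCommGroup V] [Module ℝ V] in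
/-- Ratio lemma: adding a suitable multiple of `gC` kills something but keeps half. -/
theorem ratio (gC kC : V →₀ ℝ) (hsub : ∀ x, gC x = 0 → kC x = 0) (hne : ∀ t : ℝ, kC ≠ t • gC) :
    ∃ s : ℝ, (∃ i, gC i ≠ 0 ∧ (kC + s • gC) i = 0) ∧
      gC.support.card ≤ 2 * (kC + s • gC).support.card := by
  classical
  have hg0 : gC ≠ 0 := by
    rintro rfl
    apply hne 0
    ext x
    rw [hsub x rfl]
    simp
  obtain ⟨i, hi⟩ := Finsupp.ne_iff.1 hg0
  simp only [Finsupp.coe_zero, Pi.zero_apply] at hi
  obtain ⟨j, hj⟩ := Finsupp.ne_iff.1 (hne (kC i / gC i))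
  simp only [Finsupp.coe_smul, Pi.smul_apply, smul_eq_mul] at hj
  have hgj : gC j ≠ 0 := by
    intro h0
    apply hj
    rw [h0, hsub j h0, mul_zero]
  set s1 : ℝ := -(kC i / gC i) with hs1
  set s2 : ℝ := -(kC j / gC j) with hs2
  have hs12 : s1 ≠ s2 := by
    intro h
    apply hj
    have : kC i / gC i = kC j / gC j := by
      rw [hs1, hs2] at h
      exact neg_injective h
    rw [this]
    field_simp
  have hcov : gC.support ⊆ (kC + s1 • gC).support ∪ (kC + s2 • gC).support := by
    intro l hl
    rw [Finset.mem_union, Finsupp.mem_support_iff, Finsupp.mem_support_iff]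
    rw [Finsupp.mem_support_iff] at hl
    by_contra hcon
    push Not at hcon
    obtain ⟨h1, h2⟩ := hcon
    simp only [Finsupp.coe_add, Finsupp.coe_smul, Pi.add_apply, Pi.smul_apply,
      smul_eq_mul] at h1 h2
    have : (s1 - s2) * gC l = 0 := by linarith
    rcases mul_eq_zero.1 this with h | h
    · exact hs12 (sub_eq_zero.1 h)
    · exact hl h
  have hcard := (Finset.card_le_card hcov).trans (Finset.card_union_le _ _)
  rcases le_total (kC + s1 • gC).support.card (kC + s2 • gC).support.card with h | h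
  · refine ⟨s2, ⟨j, hgj, ?_⟩, by omega⟩
    simp only [hs2, Finsupp.coe_add, Finsupp.coe_smul, Pi.add_apply, Pi.smul_apply, smul_eq_mul]
    field_simp
    ring
  · refine ⟨s1, ⟨i, hi, ?_⟩, by omega⟩
    simp only [hs1, Finsupp.coe_add, Finsupp.coe_smul, Pi.add_apply, Pi.smul_apply, smul_eq_mul]
    field_simp
    ring

/-- Lifting a circuit modulo `W` to a circuit modulo `U`. -/
theorem glue (U W : Submodule ℝ V) (hUW : U ≤ W) (gP x : V →₀ ℝ) (hP : Circ W gP)
    (hdisj : ∀ y, gP y ≠ 0 → x y = 0) (hsum : sm (gP + x) ∈ U)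
    (h1 : ∀ h : V →₀ ℝ, (∀ y, x y = 0 → h y = 0) → sm h ∈ W)
    (h2 : ∀ h : V →₀ ℝ, (∀ y, x y = 0 → h y = 0) → sm h ∈ U → h = 0) :
    Circ U (gP + x) := by
  classical
  refine ⟨?_, hsum, ?_⟩
  · intro h0
    apply hP.1
    ext y
    by_contra hy
    have := congrArg (fun f : V →₀ ℝ => f y) h0
    simp only [Finsupp.coe_add, Pi.add_apply, hdisj y hy, add_zero, Finsupp.coe_zero,
      Pi.zero_apply] at this
    exact hy (by simpa using this)
  · intro h hU hsub
    rw [supp_sub_iff] at hsub
    set hp : V →₀ ℝ := h.filter (fun y => gP y ≠ 0) with hhp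
    have hpapp : ∀ y, hp y = if gP y ≠ 0 then h y else 0 := fun y => by
      rw [hhp, Finsupp.filter_apply]
    have hxsub : ∀ y, x y = 0 → (h - hp) y = 0 := by
      intro y hy
      rw [Finsupp.coe_sub, Pi.sub_apply, hpapp]
      by_cases hg : gP y ≠ 0
      · rw [if_pos hg, sub_self]
      · rw [if_neg hg, sub_zero]
        push Not at hg
        exact hsub y (by simp [hg, hy])
    have hpW : sm hp ∈ W := by
      have : hp = h - (h - hp) := by abel
      rw [this, map_sub]
      exact W.sub_mem (hUW hU) (h1 _ hxsub)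
    obtain ⟨t, ht⟩ := hP.2.2 hp hpW (supp_sub_iff.2 (fun y hy => by
      rw [hpapp, if_neg]
      push Not
      exact hy))
    refine ⟨t, ?_⟩
    have hz : h - t • (gP + x) = 0 := by
      apply h2
      · intro y hy
        have := hxsub y hy
        rw [ht] at this
        simp only [Finsupp.coe_sub, Finsupp.coe_smul, Pi.sub_apply, Pi.smul_apply, smul_eq_mul,
          Finsupp.coe_add, Pi.add_apply] at this ⊢
        rw [hy, add_zero]
        exact this
      · rw [map_sub, map_smul]
        exact U.sub_mem hU (U.smul_mem _ hsum)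
    exact sub_eq_zero.1 hz

/-- Linking lemma: two skew circuits met by a common circuit produce a long circuit. -/
theorem linking (U : Submodule ℝ V) (S : Set V) (gC gD : V →₀ ℝ) (hC : Circ U gC)
    (hD : Circ U gD) (hCS : ∀ y, gC y ≠ 0 → y ∈ S) (hDS : ∀ y, gD y ≠ 0 → y ∈ S)
    (hdisj : ∀ y, gC y ≠ 0 → gD y = 0)
    (hskew : ∀ x y : V →₀ ℝ, (∀ z, gC z = 0 → x z = 0) → (∀ z, gD z = 0 → y z = 0) →
      sm x + sm y ∈ U → sm x ∈ U)
    (hlink : ∃ k, Circ U k ∧ (∀ y, k y ≠ 0 → y ∈ S) ∧ (∃ a, gC a ≠ 0 ∧ k a ≠ 0) ∧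
      ∃ b, gD b ≠ 0 ∧ k b ≠ 0) :
    ∃ k, Circ U k ∧ (∀ y, k y ≠ 0 → y ∈ S) ∧
      gC.support.card + gD.support.card + 2 ≤ 2 * k.support.card := by
  classical
  -- choose a linking circuit with the smallest part outside `C ∪ D`
  have hex : ∃ m : ℕ, ∃ k, Circ U k ∧ (∀ y, k y ≠ 0 → y ∈ S) ∧ (∃ a, gC a ≠ 0 ∧ k a ≠ 0) ∧
      (∃ b, gD b ≠ 0 ∧ k b ≠ 0) ∧
      (k.support.filter (fun y => gC y = 0 ∧ gD y = 0)).card = m := by
    obtain ⟨k, h1, h2, h3, h4⟩ := hlink
    exact ⟨_, k, h1, h2, h3, h4, rfl⟩
  obtain ⟨k, hk, hkS, ⟨a, hCa, hka⟩, ⟨b, hDb, hkb⟩, hm⟩ := Nat.find_spec hex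
  have hmin : ∀ k', Circ U k' → (∀ y, k' y ≠ 0 → y ∈ S) → (∃ a, gC a ≠ 0 ∧ k' a ≠ 0) →
      (∃ b, gD b ≠ 0 ∧ k' b ≠ 0) → (k.support.filter (fun y => gC y = 0 ∧ gD y = 0)).card ≤
      (k'.support.filter (fun y => gC y = 0 ∧ gD y = 0)).card := by
    intro k' h1 h2 h3 h4
    rw [hm]
    exact Nat.find_min' hex ⟨k', h1, h2, h3, h4, rfl⟩
  clear hm hex
  have hCb : gC b = 0 := by
    by_contra h
    exact hDb (hdisj b h)
  have hDa : gD a = 0 := hdisj a hCa
  set kC : V →₀ ℝ := k.filter (fun y => gC y ≠ 0) with hkC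
  set kD : V →₀ ℝ := k.filter (fun y => gD y ≠ 0) with hkD
  set kP : V →₀ ℝ := k.filter (fun y => gC y = 0 ∧ gD y = 0) with hkP
  have hkCapp : ∀ y, kC y = if gC y ≠ 0 then k y else 0 := fun y => by
    rw [hkC, Finsupp.filter_apply]
  have hkDapp : ∀ y, kD y = if gD y ≠ 0 then k y else 0 := fun y => by
    rw [hkD, Finsupp.filter_apply]
  have hkPapp : ∀ y, kP y = if gC y = 0 ∧ gD y = 0 then k y else 0 := fun y => by
    rw [hkP, Finsupp.filter_apply]
  have hkC0 : ∀ y, gC y = 0 → kC y = 0 := fun y hy => by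
    rw [hkCapp, if_neg]
    push Not
    exact hy
  have hkD0 : ∀ y, gD y = 0 → kD y = 0 := fun y hy => by
    rw [hkDapp, if_neg]
    push Not
    exact hy
  have hksum : k = kP + (kC + kD) := by
    ext y
    simp only [Finsupp.coe_add, Pi.add_apply]
    rw [hkCapp, hkDapp, hkPapp]
    by_cases h1 : gC y = 0
    · by_cases h2 : gD y = 0
      · simp [h1, h2]
      · simp [h1, h2]
    · have h2 := hdisj y h1
      simp [h1, h2]
  -- the decomposition lemma for dependences avoiding some outside element
  have hdec : ∀ p, kP p ≠ 0 → ∀ x : V →₀ ℝ, sm x ∈ U →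
      (∀ y, gC y = 0 → gD y = 0 → (kP y = 0 ∨ y = p) → x y = 0) →
      ∃ x1 x2 : V →₀ ℝ, x = x1 + x2 ∧ (∀ y, gD y ≠ 0 → x1 y = 0) ∧ (∀ y, gC y ≠ 0 → x2 y = 0) ∧
        (∀ y, x y = 0 → x1 y = 0) ∧ sm x1 ∈ U := by
    intro p hp x hx hxs
    have hpC : gC p = 0 ∧ gD p = 0 := by
      by_contra hcon
      apply hp
      rw [hkPapp, if_neg hcon]
    set S' : Set V := {y | gC y ≠ 0 ∨ gD y ≠ 0 ∨ (kP y ≠ 0 ∧ y ≠ p)} with hS'
    have hS'S : ∀ y, y ∈ S' → y ∈ S := by
      rintro y (h | h | ⟨h, -⟩)
      · exact hCS y h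
      · exact hDS y h
      · apply hkS
        intro h0
        apply h
        rw [hkPapp, h0]
        simp
    set A : V → Prop := fun y => gC y ≠ 0 ∨
      ∃ k0, Circ U k0 ∧ (∀ z, k0 z ≠ 0 → z ∈ S') ∧ k0 y ≠ 0 ∧ ∃ a, gC a ≠ 0 ∧ k0 a ≠ 0 with hA
    have hAD : ∀ z, gD z ≠ 0 → ¬ A z := by
      intro z hz hAz
      rcases hAz with h | ⟨k0, hk0, hk0S, hk0z, hk0C⟩
      · exact hz (hdisj z h)
      · have hle := hmin k0 hk0 (fun y hy => hS'S y (hk0S y hy)) hk0C ⟨z, hz, hk0z⟩
        have hlt : (k0.support.filter (fun y => gC y = 0 ∧ gD y = 0)).card <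
            (k.support.filter (fun y => gC y = 0 ∧ gD y = 0)).card := by
          apply Finset.card_lt_card
          refine ⟨?_, fun H => ?_⟩
          · intro y hy
            rw [Finset.mem_filter, Finsupp.mem_support_iff] at hy ⊢
            refine ⟨?_, hy.2⟩
            rcases hk0S y hy.1 with h | h | ⟨h, -⟩
            · exact absurd hy.2.1 h
            · exact absurd hy.2.2 h
            · intro h0
              apply h
              rw [hkPapp, h0]
              simp
          · have hpm : p ∈ k.support.filter (fun y => gC y = 0 ∧ gD y = 0) := by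
              rw [Finset.mem_filter, Finsupp.mem_support_iff]
              refine ⟨fun h0 => hp ?_, hpC⟩
              rw [hkPapp, h0]
              simp
            have := H hpm
            rw [Finset.mem_filter, Finsupp.mem_support_iff] at this
            rcases hk0S p this.1 with h | h | ⟨-, h⟩
            · exact h hpC.1
            · exact h hpC.2
            · exact h rfl
        omega
    have hAcl : ∀ k0, Circ U k0 → (∀ z, k0 z ≠ 0 → z ∈ S') →
        (∀ z, k0 z ≠ 0 → A z) ∨ (∀ z, k0 z ≠ 0 → ¬ A z) := by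
      intro k0 hk0 hk0S
      by_cases hcase : ∃ y, k0 y ≠ 0 ∧ A y
      · left
        obtain ⟨y, hy, hAy⟩ := hcase
        intro z hz
        rcases hAy with h | ⟨k1, hk1, hk1S, hk1y, ⟨a1, ha1, hk1a⟩⟩
        · exact Or.inr ⟨k0, hk0, hk0S, hz, y, h, hy⟩
        · obtain ⟨k2, hk2, hk2a, hk2z, hk2s⟩ :=
            circ_trans U _ k1 k0 rfl hk1 hk0 a1 z y hk1a hz hk1y hy
          refine Or.inr ⟨k2, hk2, fun w hw => ?_, hk2z, a1, ha1, hk2a⟩
          by_cases h1 : k1 w = 0
          · by_cases h2 : k0 w = 0
            · exact absurd (hk2s w h1 h2) hw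
            · exact hk0S w h2
          · exact hk1S w h1
      · right
        push Not at hcase
        exact hcase
    refine ⟨x.filter A, x - x.filter A, by abel, ?_, ?_, ?_, ?_⟩
    · intro y hy
      rw [Finsupp.filter_apply, if_neg (hAD y hy)]
    · intro y hy
      rw [Finsupp.coe_sub, Pi.sub_apply, Finsupp.filter_apply, if_pos (Or.inl hy), sub_self]
    · intro y hy
      rw [Finsupp.filter_apply, hy]
      simp
    · apply filter_dep U A S' hAcl _ x rfl hx
      intro y hy
      by_contra hcon
      apply hy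
      have hcon : ¬ (gC y ≠ 0 ∨ gD y ≠ 0 ∨ (kP y ≠ 0 ∧ y ≠ p)) := hcon
      push Not at hcon
      apply hxs y hcon.1 hcon.2.1
      by_cases h : kP y = 0
      · exact Or.inl h
      · exact Or.inr (hcon.2.2 h)
  -- the ambient contraction
  set W : Submodule ℝ V := U ⊔ (spn {y | gC y ≠ 0} ⊔ spn {y | gD y ≠ 0}) with hW
  have hUW : U ≤ W := le_sup_left
  have hWof : ∀ x : V →₀ ℝ, (∀ y, gC y = 0 → gD y = 0 → x y = 0) → sm x ∈ W := by
    intro x hx
    have hx2 : x = x.filter (fun y => gC y ≠ 0) + (x - x.filter (fun y => gC y ≠ 0)) := by abel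
    rw [hx2, map_add]
    apply W.add_mem
    · apply (le_sup_left.trans le_sup_right : spn {y | gC y ≠ 0} ≤ W)
      rw [mem_spn]
      refine ⟨_, fun y hy => ?_, rfl⟩
      rw [Finsupp.filter_apply] at hy
      by_contra hcon
      have hcon' : ¬ (gC y ≠ 0) := hcon
      rw [if_neg hcon'] at hy
      exact hy rfl
    · apply (le_sup_right.trans le_sup_right : spn {y | gD y ≠ 0} ≤ W)
      rw [mem_spn]
      refine ⟨_, fun y hy => ?_, rfl⟩
      rw [Finsupp.coe_sub, Pi.sub_apply, Finsupp.filter_apply] at hy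
      by_contra hcon
      have hcon : ¬ (gD y ≠ 0) := hcon
      push Not at hcon
      by_cases h : gC y ≠ 0
      · rw [if_pos h, sub_self] at hy
        exact hy rfl
      · rw [if_neg h, sub_zero] at hy
        push Not at h
        exact hy (hx y h hcon)
  -- the part `kP` is a circuit modulo `W`
  have hPcirc : Circ W kP := by
    refine ⟨?_, ?_, ?_⟩
    · intro h0
      have hU : sm kC ∈ U := by
        apply hskew kC kD hkC0 hkD0
        rw [← map_add]
        have : k = kC + kD := by rw [hksum, h0, zero_add]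
        rw [← this]
        exact hk.2.1
      obtain ⟨t, ht⟩ := hk.2.2 kC hU (supp_sub_iff.2 (fun y hy => by
        rw [hkCapp, hy]
        simp))
      have htb : t * k b = 0 := by
        have := congrArg (fun f : V →₀ ℝ => f b) ht
        simp only [Finsupp.coe_smul, Pi.smul_apply, smul_eq_mul, hkC0 b hCb] at this
        exact this.symm
      have ht0 : t = 0 := by
        rcases mul_eq_zero.1 htb with h | h
        · exact h
        · exact absurd h hkb
      have := congrArg (fun f : V →₀ ℝ => f a) ht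
      simp only [ht0, zero_smul, Finsupp.coe_zero, Pi.zero_apply] at this
      rw [hkCapp, if_pos hCa] at this
      exact hka this
    · have : kP = k - (kC + kD) := by rw [hksum]; abel
      rw [this, map_sub]
      apply W.sub_mem (hUW hk.2.1)
      apply hWof
      intro y h1 h2
      simp [hkC0 y h1, hkD0 y h2]
    · intro h hh hsub
      rw [supp_sub_iff] at hsub
      by_contra hnm
      push Not at hnm
      -- lift `h`
      obtain ⟨u, hu, w, hw, huw⟩ := Submodule.mem_sup.1 hh
      obtain ⟨w1, hw1, w2, hw2, hw12⟩ := Submodule.mem_sup.1 hw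
      obtain ⟨x1, hx1, rfl⟩ := mem_spn.1 hw1
      obtain ⟨x2, hx2, rfl⟩ := mem_spn.1 hw2
      set ht : V →₀ ℝ := h - (x1 + x2) with hht
      have htU : sm ht ∈ U := by
        have : sm ht = u := by
          rw [hht, map_sub, map_add, hw12, ← huw]
          abel
        rw [this]
        exact hu
      have hx1' : ∀ y, gC y = 0 → x1 y = 0 := fun y hy => by
        by_contra hne
        exact hx1 y hne hy
      have hx2' : ∀ y, gD y = 0 → x2 y = 0 := fun y hy => by
        by_contra hne
        exact hx2 y hne hy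
      have htout : ∀ y, gC y = 0 → gD y = 0 → ht y = h y := by
        intro y h1 h2
        simp [hht, hx1' y h1, hx2' y h2]
      have hPout : ∀ y, kP y ≠ 0 → gC y = 0 ∧ gD y = 0 := by
        intro y hy
        by_contra hcon
        apply hy
        rw [hkPapp, if_neg hcon]
      have hPk : ∀ y, kP y ≠ 0 → k y = kP y := by
        intro y hy
        rw [hkPapp, if_pos (hPout y hy)]
      have hh0 : h ≠ 0 := by
        intro h0
        apply hnm 0
        rw [h0, zero_smul]
      obtain ⟨p, hp⟩ := Finsupp.ne_iff.1 hh0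
      simp only [Finsupp.coe_zero, Pi.zero_apply] at hp
      have hPp : kP p ≠ 0 := fun h0 => hp (hsub p h0)
      have hpo := hPout p hPp
      set β : ℝ := k p / h p with hβ
      set k' : V →₀ ℝ := k - β • ht with hk'
      have hk'p : k' p = 0 := by
        simp only [hk', Finsupp.coe_sub, Finsupp.coe_smul, Pi.sub_apply, Pi.smul_apply,
          smul_eq_mul, htout p hpo.1 hpo.2, hβ]
        field_simp
        ring
      have hexq : ∃ q, kP q ≠ 0 ∧ k' q ≠ 0 := by
        by_contra hcon
        push Not at hcon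
        have hkp : k p ≠ 0 := by
          rw [hPk p hPp]
          exact hPp
        apply hnm (h p / k p)
        ext y
        by_cases hy : kP y = 0
        · rw [hsub y hy]
          simp [hy]
        · have h1 := hcon y hy
          have hyo := hPout y hy
          simp only [hk', Finsupp.coe_sub, Finsupp.coe_smul, Pi.sub_apply, Pi.smul_apply,
            smul_eq_mul, htout y hyo.1 hyo.2, hβ] at h1
          simp only [Finsupp.coe_smul, Pi.smul_apply, smul_eq_mul]
          rw [← hPk y hy]
          field_simp at h1 ⊢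
          linarith
      obtain ⟨q, hPq, hk'q⟩ := hexq
      have hqo := hPout q hPq
      set α : ℝ := ht q / k' q with hα
      set h'' : V →₀ ℝ := ht - α • k' with hh''
      have hh''q : h'' q = 0 := by
        simp only [hh'', Finsupp.coe_sub, Finsupp.coe_smul, Pi.sub_apply, Pi.smul_apply,
          smul_eq_mul, hα]
        field_simp
        ring
      have hk'U : sm k' ∈ U := by
        rw [hk', map_sub, map_smul]
        exact U.sub_mem hk.2.1 (U.smul_mem _ htU)
      have hh''U : sm h'' ∈ U := by
        rw [hh'', map_sub, map_smul]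
        exact U.sub_mem htU (U.smul_mem _ hk'U)
      have hkout : ∀ y, gC y = 0 → gD y = 0 → kP y = 0 → k y = 0 := by
        intro y h1 h2 h3
        rw [hkPapp, if_pos ⟨h1, h2⟩] at h3
        exact h3
      have hk's : ∀ y, gC y = 0 → gD y = 0 → (kP y = 0 ∨ y = p) → k' y = 0 := by
        rintro y h1 h2 (h3 | rfl)
        · simp [hk', hkout y h1 h2 h3, htout y h1 h2, hsub y h3]
        · exact hk'p
      have hh''s : ∀ y, gC y = 0 → gD y = 0 → (kP y = 0 ∨ y = q) → h'' y = 0 := by
        rintro y h1 h2 (h3 | rfl)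
        · simp [hh'', htout y h1 h2, hsub y h3, hk's y h1 h2 (Or.inl h3)]
        · exact hh''q
      obtain ⟨a1, a2, ha, ha1, ha2, ha3, ha4⟩ := hdec p hPp k' hk'U hk's
      obtain ⟨b1, b2, hb, hb1, hb2, hb3, hb4⟩ := hdec q hPq h'' hh''U hh''s
      set K1 : V →₀ ℝ := (1 + α * β) • a1 + β • b1 with hK1
      set K2 : V →₀ ℝ := (1 + α * β) • a2 + β • b2 with hK2
      have hkk : k = K1 + K2 := by
        have e1 : k = (1 + α * β) • k' + β • h'' := by
          rw [hh'', hk']
          ext y
          simp only [Finsupp.coe_add, Finsupp.coe_smul, Finsupp.coe_sub, Pi.add_apply,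
            Pi.smul_apply, Pi.sub_apply, smul_eq_mul]
          ring
        rw [e1, hK1, hK2]
        conv_lhs => rw [ha, hb]
        ext y
        simp only [Finsupp.coe_add, Finsupp.coe_smul, Pi.add_apply, Pi.smul_apply, smul_eq_mul]
        ring
      have hK1U : sm K1 ∈ U := by
        rw [hK1, map_add, map_smul, map_smul]
        exact U.add_mem (U.smul_mem _ ha4) (U.smul_mem _ hb4)
      have hK1s : ∀ y, k y = 0 → K1 y = 0 := by
        intro y hy
        by_cases hCy : gC y = 0
        · by_cases hDy : gD y = 0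
          · have hPy : kP y = 0 := by
              rw [hkPapp, hy]
              simp
            simp [hK1, ha3 y (hk's y hCy hDy (Or.inl hPy)), hb3 y (hh''s y hCy hDy (Or.inl hPy))]
          · simp [hK1, ha1 y hDy, hb1 y hDy]
        · have h2 : K2 y = 0 := by simp [hK2, ha2 y hCy, hb2 y hCy]
          have := congrArg (fun f : V →₀ ℝ => f y) hkk
          simp only [Finsupp.coe_add, Pi.add_apply, hy, h2, add_zero] at this
          exact this.symm
      obtain ⟨t, htt⟩ := hk.2.2 K1 hK1U (supp_sub_iff.2 hK1s)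
      have htb : t * k b = 0 := by
        have := congrArg (fun f : V →₀ ℝ => f b) htt
        simp only [Finsupp.coe_smul, Pi.smul_apply, smul_eq_mul] at this
        rw [← this]
        simp [hK1, ha1 b hDb, hb1 b hDb]
      have ht0 : t = 0 := by
        rcases mul_eq_zero.1 htb with h | h
        · exact h
        · exact absurd h hkb
      have hK1a : K1 a = 0 := by
        rw [htt, ht0]
        simp
      have hK2a : K2 a = 0 := by simp [hK2, ha2 a hCa, hb2 a hCa]
      apply hka
      rw [hkk]
      simp [hK1a, hK2a]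
  -- not multiples
  have hnC : ∀ t : ℝ, kC ≠ t • gC := by
    intro t ht
    have hat : t * gC a ≠ 0 := by
      have := congrArg (fun f : V →₀ ℝ => f a) ht
      simp only [Finsupp.coe_smul, Pi.smul_apply, smul_eq_mul] at this
      rw [← this, hkCapp, if_pos hCa]
      exact hka
    have ht0 : t ≠ 0 := fun h0 => hat (by rw [h0, zero_mul])
    obtain ⟨t', ht'⟩ := hk.2.2 gC hC.2.1 (supp_sub_iff.2 (fun y hy => by
      by_contra hne
      have := congrArg (fun f : V →₀ ℝ => f y) ht
      simp only [Finsupp.coe_smul, Pi.smul_apply, smul_eq_mul] at this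
      rw [hkCapp, if_pos hne, hy] at this
      exact (mul_ne_zero ht0 hne) this.symm))
    have h1 := congrArg (fun f : V →₀ ℝ => f b) ht'
    simp only [Finsupp.coe_smul, Pi.smul_apply, smul_eq_mul, hCb] at h1
    have ht'0 : t' = 0 := by
      rcases mul_eq_zero.1 h1.symm with h | h
      · exact h
      · exact absurd h hkb
    apply hCa
    rw [ht', ht'0]
    simp
  have hnD : ∀ t : ℝ, kD ≠ t • gD := by
    intro t ht
    have hat : t * gD b ≠ 0 := by
      have := congrArg (fun f : V →₀ ℝ => f b) ht
      simp only [Finsupp.coe_smul, Pi.smul_apply, smul_eq_mul] at this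
      rw [← this, hkDapp, if_pos hDb]
      exact hkb
    have ht0 : t ≠ 0 := fun h0 => hat (by rw [h0, zero_mul])
    obtain ⟨t', ht'⟩ := hk.2.2 gD hD.2.1 (supp_sub_iff.2 (fun y hy => by
      by_contra hne
      have := congrArg (fun f : V →₀ ℝ => f y) ht
      simp only [Finsupp.coe_smul, Pi.smul_apply, smul_eq_mul] at this
      rw [hkDapp, if_pos hne, hy] at this
      exact (mul_ne_zero ht0 hne) this.symm))
    have h1 := congrArg (fun f : V →₀ ℝ => f a) ht'
    simp only [Finsupp.coe_smul, Pi.smul_apply, smul_eq_mul, hDa] at h1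
    have ht'0 : t' = 0 := by
      rcases mul_eq_zero.1 h1.symm with h | h
      · exact h
      · exact absurd h hka
    apply hDb
    rw [ht', ht'0]
    simp
  obtain ⟨s, ⟨i, hiC, hi0⟩, hs⟩ := ratio gC kC hkC0 hnC
  obtain ⟨s', ⟨j, hjD, hj0⟩, hs'⟩ := ratio gD kD hkD0 hnD
  set xC : V →₀ ℝ := kC + s • gC with hxC
  set xD : V →₀ ℝ := kD + s' • gD with hxD
  have hxC0 : ∀ y, gC y = 0 → xC y = 0 := fun y hy => by simp [hxC, hkC0 y hy, hy]
  have hxD0 : ∀ y, gD y = 0 → xD y = 0 := fun y hy => by simp [hxD, hkD0 y hy, hy]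
  have hPd : ∀ y, kP y ≠ 0 → gC y = 0 ∧ gD y = 0 := by
    intro y hy
    by_contra hcon
    apply hy
    rw [hkPapp, if_neg hcon]
  have hcirc : Circ U (kP + (xC + xD)) := by
    apply glue U W hUW kP (xC + xD) hPcirc
    · intro y hy
      simp [hxC0 y (hPd y hy).1, hxD0 y (hPd y hy).2]
    · have : kP + (xC + xD) = k + (s • gC + s' • gD) := by
        conv_rhs => rw [hksum]
        rw [hxC, hxD]
        abel
      rw [this, map_add, map_add, map_smul, map_smul]
      exact U.add_mem hk.2.1 (U.add_mem (U.smul_mem _ hC.2.1) (U.smul_mem _ hD.2.1))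
    · intro h hh
      apply hWof
      intro y h1 h2
      exact hh y (by simp [hxC0 y h1, hxD0 y h2])
    · intro h hh hU
      set hc : V →₀ ℝ := h.filter (fun y => gC y ≠ 0) with hhc
      have hcapp : ∀ y, hc y = if gC y ≠ 0 then h y else 0 := fun y => by
        rw [hhc, Finsupp.filter_apply]
      have hc0 : ∀ y, gC y = 0 → hc y = 0 := fun y hy => by
        rw [hcapp, if_neg]
        push Not
        exact hy
      have hd0 : ∀ y, gD y = 0 → (h - hc) y = 0 := fun y hy => by
        rw [Finsupp.coe_sub, Pi.sub_apply, hcapp]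
        by_cases hg : gC y ≠ 0
        · rw [if_pos hg, sub_self]
        · rw [if_neg hg, sub_zero]
          push Not at hg
          exact hh y (by simp [hxC0 y hg, hxD0 y hy])
      have hcU : sm hc ∈ U := by
        apply hskew hc (h - hc) hc0 hd0
        rw [← map_add]
        have : hc + (h - hc) = h := by abel
        rw [this]
        exact hU
      have hdU : sm (h - hc) ∈ U := by
        rw [map_sub]
        exact U.sub_mem hU hcU
      obtain ⟨t, ht⟩ := hC.2.2 hc hcU (supp_sub_iff.2 hc0)
      obtain ⟨t', ht'⟩ := hD.2.2 (h - hc) hdU (supp_sub_iff.2 hd0)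
      have hi1 : hc i = 0 := by
        rw [hcapp, if_pos hiC]
        exact hh i (by simp [hi0, hxD0 i (hdisj i hiC)])
      have ht0 : t = 0 := by
        rw [ht] at hi1
        simp only [Finsupp.coe_smul, Pi.smul_apply, smul_eq_mul] at hi1
        rcases mul_eq_zero.1 hi1 with h | h
        · exact h
        · exact absurd h hiC
      have hjC : gC j = 0 := by
        by_contra hne
        exact hjD (hdisj j hne)
      have hj1 : (h - hc) j = 0 := by
        rw [Finsupp.coe_sub, Pi.sub_apply, hc0 j hjC, sub_zero]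
        exact hh j (by simp [hj0, hxC0 j hjC])
      have ht'0 : t' = 0 := by
        rw [ht'] at hj1
        simp only [Finsupp.coe_smul, Pi.smul_apply, smul_eq_mul] at hj1
        rcases mul_eq_zero.1 hj1 with h | h
        · exact h
        · exact absurd h hjD
      have e1 : hc = 0 := by rw [ht, ht0, zero_smul]
      have e2 : h - hc = 0 := by rw [ht', ht'0, zero_smul]
      rw [e1, sub_zero] at e2
      exact e2
  refine ⟨_, hcirc, ?_, ?_⟩
  · intro y hy
    by_cases h1 : gC y = 0
    · by_cases h2 : gD y = 0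
      · apply hkS
        intro h0
        apply hy
        have hPy : kP y = 0 := by
          rw [hkPapp, h0]
          simp
        simp [hPy, hxC0 y h1, hxD0 y h2]
      · exact hDS y h2
    · exact hCS y h1
  · have hd1 : Disjoint xC.support xD.support := by
      rw [Finset.disjoint_left]
      intro y h1 h2
      rw [Finsupp.mem_support_iff] at h1 h2
      have hc : gC y ≠ 0 := fun h => h1 (hxC0 y h)
      exact h2 (hxD0 y (hdisj y hc))
    have hd2 : Disjoint kP.support (xC.support ∪ xD.support) := by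
      rw [Finset.disjoint_left]
      intro y h1 h2
      rw [Finset.mem_union, Finsupp.mem_support_iff, Finsupp.mem_support_iff] at h2
      rw [Finsupp.mem_support_iff] at h1
      rcases h2 with h | h
      · exact h (hxC0 y (hPd y h1).1)
      · exact h (hxD0 y (hPd y h1).2)
    have hsubs : kP.support ∪ (xC.support ∪ xD.support) ⊆ (kP + (xC + xD)).support := by
      intro y hy
      rw [Finset.mem_union, Finset.mem_union, Finsupp.mem_support_iff, Finsupp.mem_support_iff,
        Finsupp.mem_support_iff] at hy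
      rw [Finsupp.mem_support_iff, Finsupp.coe_add, Pi.add_apply, Finsupp.coe_add, Pi.add_apply]
      rcases hy with h | h | h
      · rw [hxC0 y (hPd y h).1, hxD0 y (hPd y h).2]
        simpa using h
      · have hc : gC y ≠ 0 := fun h' => h (hxC0 y h')
        have hp : kP y = 0 := by
          by_contra hne
          exact hc (hPd y hne).1
        rw [hp, hxD0 y (hdisj y hc)]
        simpa using h
      · have hd : gD y ≠ 0 := fun h' => h (hxD0 y h')
        have hp : kP y = 0 := by
          by_contra hne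
          exact hd (hPd y hne).2
        have hc : gC y = 0 := by
          by_contra hne
          exact hd (hdisj y hne)
        rw [hp, hxC0 y hc]
        simpa using h
    have hcard := Finset.card_le_card hsubs
    rw [Finset.card_union_of_disjoint hd2, Finset.card_union_of_disjoint hd1] at hcard
    have hP1 : 1 ≤ kP.support.card := by
      rw [Nat.one_le_iff_ne_zero, Ne, Finset.card_eq_zero, Finsupp.support_eq_empty]
      exact hPcirc.1
    omega

end Pool.Agent.Helper59.HD
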