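import Pool.Agent.Helper59.HD.Geo
import Pool.Agent.Helper59.HD.DefsB

/-!
# Structure of centrally symmetric convex bodies with property `Sz(r)`: block forests
-/

open scoped RealInnerProductSpace Topology

namespace Pool.Agent.Helper59.HD

/-- The structure theorem for bodies symmetric about the origin. -/
theorem decomp_of_symBody {n r : ℕ} (hr : 1 ≤ r) {F : Set (EuclideanSpace ℝ (Fin n))}
    (h : SymBody F) (hSz : Sz r F) :
    ∃ (m : ℕ) (e : EuclideanSpace ℝ (Fin n) ≃ₗ[ℝ] (Fin n → ℝ)) (blk : Fin n → Fin m)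
      (le : Fin m → Fin m → Prop), Forest le ∧ Decomp e blk le F ∧
      (∀ x, 1 ≤ bdim blk x ∧ bdim blk x ≤ r) ∧
      ∀ x y, le x y → x ≠ y → bdim blk y + 2 ≤ bdim blk x := by
  classical
  obtain ⟨ι, β, hι, hβ, b, blk, le, ⟨h1, h2, h3, h4⟩, hsz, hdrop, h6, h7, h8⟩ := forest (Nrm F)
    (fun f hf => nrm_neg h hf) _ ⊥ ⊤ (r + 1) bot_le rfl (by
      rw [bot_sup_eq, spn_eq_span]
      have : {f | f ∈ Nrm F ∧ f ∈ (⊤ : Submodule ℝ (EuclideanSpace ℝ (Fin n)))} = Nrm F := by
        ext f
        exact ⟨fun hf => hf.1, fun hf => ⟨hf, trivial⟩⟩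
      rw [this]
      exact nrm_span h) (by omega)
    (fun k hk hkS => circ_le h hr hSz k hk (fun y hy => (hkS y hy).1))
  have hli : LinearIndependent ℝ b := Fintype.linearIndependent_iff.2 (fun c hc i =>
    congrFun (h6 c (by rw [hc]; exact Submodule.zero_mem _)) i)
  have hsp : Submodule.span ℝ (Set.range b) = ⊤ := by
    rw [bot_sup_eq] at h7
    exact h7
  have hcard : Fintype.card ι = n := by
    have := Module.finrank_eq_card_basis (Module.Basis.mk hli hsp.ge)
    rw [finrank_euclideanSpace_fin] at this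
    exact this.symm
  set σ : Fin n ≃ ι := (Fintype.equivFinOfCardEq hcard).symm with hσ
  set L : EuclideanSpace ℝ (Fin n) →ₗ[ℝ] (Fin n → ℝ) :=
    { toFun := fun x i => ⟪b (σ i), x⟫
      map_add' := fun x y => by
        ext i
        simp [inner_add_right]
      map_smul' := fun t x => by
        ext i
        simp [inner_smul_right] } with hL
  have hLapp : ∀ x i, L x i = ⟪b (σ i), x⟫ := fun x i => rfl
  have hperp : ∀ x, (∀ i, ⟪b (σ i), x⟫ = 0) → x = 0 := by
    intro x hx
    have h9 : x ∈ (Submodule.span ℝ (Set.range b))ᗮ := by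
      rw [Submodule.mem_orthogonal]
      intro u hu
      refine Submodule.span_induction (p := fun u _ => ⟪u, x⟫ = 0) ?_ ?_ ?_ ?_ hu
      · rintro _ ⟨i, rfl⟩
        have := hx (σ.symm i)
        rwa [Equiv.apply_symm_apply] at this
      · exact inner_zero_left _
      · intro u v _ _ hu hv
        rw [inner_add_left, hu, hv, add_zero]
      · intro a u _ hu
        rw [inner_smul_left, hu, mul_zero]
    rw [hsp, Submodule.top_orthogonal_eq_bot] at h9
    exact (Submodule.mem_bot ℝ).1 h9
  have hinj : Function.Injective L := by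
    intro x y hxy
    have : x - y = 0 := hperp _ (fun i => by
      have := congrFun hxy i
      rw [hLapp, hLapp] at this
      rw [inner_sub_right, this, sub_self])
    exact sub_eq_zero.1 this
  set e : EuclideanSpace ℝ (Fin n) ≃ₗ[ℝ] (Fin n → ℝ) := L.linearEquivOfInjective hinj (by
    rw [finrank_euclideanSpace_fin, Module.finrank_fin_fun]) with he
  have heapp : ∀ x i, e x i = ⟪b (σ i), x⟫ := fun x i => rfl
  set m := Fintype.card β with hm
  set τ : Fin m ≃ β := (Fintype.equivFin β).symm with hτ
  have hbd : ∀ x : Fin m, bdim (fun i => τ.symm (blk (σ i))) x = (blk ⁻¹' {τ x}).ncard := by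
    intro x
    have h9 : (blk ⁻¹' {τ x}) = σ '' {i | τ.symm (blk (σ i)) = x} := by
      ext j
      constructor
      · intro hj
        refine ⟨σ.symm j, ?_, σ.apply_symm_apply j⟩
        show τ.symm (blk (σ (σ.symm j))) = x
        rw [σ.apply_symm_apply, Equiv.symm_apply_eq]
        exact hj
      · rintro ⟨i, hi, rfl⟩
        show blk (σ i) = τ x
        rw [← Equiv.symm_apply_eq]
        exact hi
    rw [h9, Set.ncard_image_of_injective _ σ.injective]
    unfold bdim
    rw [← Set.ncard_coe_finset]
    congr 1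
    ext i
    simp
  refine ⟨m, e, fun i => τ.symm (blk (σ i)), fun x y => le (τ x) (τ y),
    ⟨fun x => h1 _, fun x y hxy hyx => τ.injective (h2 _ _ hxy hyx),
      fun x y z hxy hyz => h3 _ _ _ hxy hyz, fun x y z hyx hzx => h4 _ _ _ hyx hzx⟩, ?_, ?_, ?_⟩
  · intro x hx
    rw [h.mem_iff]
    by_contra hcon
    push Not at hcon
    obtain ⟨g, hg, hg1⟩ := exists_nrm h x hcon
    rcases h8 g ⟨hg, trivial⟩ with hgb | ⟨i, hi⟩
    · rw [Submodule.mem_bot] at hgb
      rw [hgb, inner_zero_left] at hg1
      linarith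
    · obtain ⟨z, hz, hzj⟩ := hx (τ.symm i)
      rw [bot_sup_eq] at hi
      have h10 : ⟪g, z - x⟫ = 0 := by
        refine Submodule.span_induction (p := fun u _ => ⟪u, z - x⟫ = 0) ?_ ?_ ?_ ?_ hi
        · rintro _ ⟨j, hj, rfl⟩
          have h11 := hzj (σ.symm j) (by
            show le (τ (τ.symm (blk (σ (σ.symm j))))) (τ (τ.symm i))
            rw [Equiv.apply_symm_apply, Equiv.apply_symm_apply, Equiv.apply_symm_apply]
            exact hj)
          rw [heapp, heapp, Equiv.apply_symm_apply] at h11
          rw [inner_sub_right, h11, sub_self]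
        · exact inner_zero_left _
        · intro u v _ _ hu hv
          rw [inner_add_left, hu, hv, add_zero]
        · intro a u _ hu
          rw [inner_smul_left, hu, mul_zero]
      rw [inner_sub_right] at h10
      have h12 := nrm_le h hg z
      have h13 := (h.mem_iff z).1 hz
      linarith
  · intro x
    rw [hbd]
    have := hsz (τ x)
    omega
  · intro x y hxy hne
    rw [hbd, hbd]
    exact hdrop _ _ hxy (fun h' => hne (τ.injective h'))

/-- Recentring. -/
theorem symBody_of {n : ℕ} {F : Set (EuclideanSpace ℝ (Fin n))} (hc : IsCompact F)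
    (hconv : Convex ℝ F) (hint : (interior F).Nonempty) (c : EuclideanSpace ℝ (Fin n))
    (hsymm : ∀ x ∈ F, c + c - x ∈ F) : SymBody {x | x + c ∈ F} := by
  have hcomp : IsCompact {x | x + c ∈ F} := by
    have := (Homeomorph.addRight c).isCompact_preimage.2 hc
    exact this
  have hcv : Convex ℝ {x | x + c ∈ F} := by
    intro x hx y hy a b ha hb hab
    have := hconv hx hy ha hb hab
    show a • x + b • y + c ∈ F
    have e : a • x + b • y + c = a • (x + c) + b • (y + c) := by
      have : c = a • c + b • c := by rw [← add_smul, hab, one_smul]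
      conv_lhs => rw [this]
      rw [smul_add, smul_add]
      abel
    rw [e]
    exact this
  have hs : ∀ x ∈ {x | x + c ∈ F}, -x ∈ {x | x + c ∈ F} := by
    intro x hx
    show -x + c ∈ F
    have := hsymm _ hx
    have e : -x + c = c + c - (x + c) := by abel
    rw [e]
    exact this
  refine ⟨hcomp, hcv, ?_, hs⟩
  obtain ⟨p, hp⟩ := hint
  have h1 : {x | x + c ∈ interior F} ⊆ interior {x | x + c ∈ F} := by
    apply interior_maximal
    · intro x hx
      have hx' : x + c ∈ interior F := hx
      show x + c ∈ F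
      exact interior_subset hx'
    · exact isOpen_interior.preimage (by fun_prop)
  have h2 : p - c ∈ interior {x | x + c ∈ F} := h1 (by
    show p - c + c ∈ interior F
    rw [sub_add_cancel]
    exact hp)
  have h3 : -(p - c) ∈ interior {x | x + c ∈ F} := by
    have h4 : {x | -x ∈ interior {x | x + c ∈ F}} ⊆ interior {x | x + c ∈ F} := by
      apply interior_maximal
      · intro x hx
        have hx' : -x ∈ interior {x | x + c ∈ F} := hx
        have h5 : -x ∈ {x | x + c ∈ F} := interior_subset hx'
        have := hs _ h5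
        rwa [neg_neg] at this
      · exact isOpen_interior.preimage (by fun_prop)
    exact h4 (by
      show - -(p - c) ∈ interior {x | x + c ∈ F}
      rw [neg_neg]
      exact h2)
  have h5 := hcv.interior h2 h3 (by norm_num : (0 : ℝ) ≤ 1 / 2) (by norm_num : (0 : ℝ) ≤ 1 / 2)
    (by norm_num)
  rw [smul_neg, add_neg_cancel] at h5
  exact mem_interior_iff_mem_nhds.1 h5

theorem sz_recentre {n r : ℕ} {F : Set (EuclideanSpace ℝ (Fin n))} (c : EuclideanSpace ℝ (Fin n))
    (h : Sz r F) : Sz r {x | x + c ∈ F} := by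
  intro s v hv
  obtain ⟨x, hx⟩ := h s v (fun J hJ => by
    obtain ⟨x, hx⟩ := hv J hJ
    refine ⟨x + c, fun j hj => ?_⟩
    have h1 : x - v j + c ∈ F := hx j hj
    have : x + c - v j = x - v j + c := by abel
    rw [this]
    exact h1)
  refine ⟨x - c, fun j => ?_⟩
  show x - c - v j + c ∈ F
  have : x - c - v j + c = x - v j := by abel
  rw [this]
  exact hx j

theorem decomp_recentre {n m : ℕ} {F : Set (EuclideanSpace ℝ (Fin n))}
    (c : EuclideanSpace ℝ (Fin n)) {e : EuclideanSpace ℝ (Fin n) ≃ₗ[ℝ] (Fin n → ℝ)}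
    {blk : Fin n → Fin m} {le : Fin m → Fin m → Prop} (hT : Decomp e blk le {x | x + c ∈ F}) :
    Decomp e blk le F := by
  intro x hx
  have h1 := hT (x - c) (fun i => by
    obtain ⟨z, hz, hzj⟩ := hx i
    refine ⟨z - c, ?_, fun j hj => ?_⟩
    · show z - c + c ∈ F
      rw [sub_add_cancel]
      exact hz
    · rw [map_sub, map_sub, Pi.sub_apply, Pi.sub_apply, hzj j hj])
  have h2 : x - c + c ∈ F := h1
  rwa [sub_add_cancel] at h2

end Pool.Agent.Helper59.HD
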