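import Pool.Agent.Helper59.HD.Fam

/-!
# Configurations with circuits of size at most four: a circuit of size four
-/

namespace Pool.Agent.Helper59.HD

variable {V : Type} [AddCommGroup V] [Module ℝ V]

/-- Four vectors with exactly one relation, spanning `T'`. -/
structure Quad (S : Set V) (T' : Submodule ℝ V) (a : Fin 4 → V) : Prop where
  mem : ∀ i, a i ∈ Gs S
  memT : ∀ i, a i ∈ T'
  sum : ∑ i, a i = 0
  min : ∀ y : Fin 4 → ℝ, ∑ i, y i • a i = 0 → ∀ i j, y i = y j
  span : ∀ w ∈ T', ∃ x : Fin 4 → ℝ, w = ∑ i, x i • a i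

theorem Quad.perm {S : Set V} {T' : Submodule ℝ V} {a : Fin 4 → V} (h : Quad S T' a)
    (σ : Equiv.Perm (Fin 4)) : Quad S T' (fun i => a (σ i)) := by
  refine ⟨fun i => h.mem _, fun i => h.memT _, ?_, fun y hy i j => ?_, fun w hw => ?_⟩
  · rw [Equiv.sum_comp σ a]
    exact h.sum
  · have h1 : ∑ i, y (σ.symm i) • a i = 0 := by
      rw [← Equiv.sum_comp σ (fun i => y (σ.symm i) • a i)]
      simp only [Equiv.symm_apply_apply]
      exact hy
    have h2 := h.min _ h1 (σ i) (σ j)
    simpa using h2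
  · obtain ⟨x, hx⟩ := h.span w hw
    refine ⟨fun i => x (σ i), ?_⟩
    rw [hx, ← Equiv.sum_comp σ (fun i => x i • a i)]

/-- Bound for circuits. -/
def MaxFour (S : Set V) : Prop :=
  ∀ k : V →₀ ℝ, Circ ⊥ k → (∀ y, k y ≠ 0 → y ∈ S) → k.support.card ≤ 4

theorem diff_circ {S : Set V} (hmax : MaxFour S) {T' : Submodule ℝ V} {b : V} (hb : b ∉ T')
    {f f' : V} (hf : f ∈ Gs S) (hf' : f' ∈ Gs S) (hfb : f - b ∈ T') (hfb' : f' - b ∈ T')
    {m : ℕ} (v : Fin m → V) (hv : ∀ k, v k ∈ Gs S) (hvT : ∀ k, v k ∈ T')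
    (hind : ∀ y : Fin m → ℝ, ∑ k, y k • v k = 0 → y = 0) (α : Fin m → ℝ) (hα : ∀ k, α k ≠ 0)
    (hrep : f - f' = ∑ k, α k • v k) : m ≤ 2 := by
  have h1 := circ_fam (S := S) (c := 4) (by norm_num) hmax (ι := Fin 2 ⊕ Fin m)
    (Sum.elim ![f, f'] v) (by
      rintro (i | i)
      · fin_cases i
        · exact hf
        · exact hf'
      · exact hv i) (Sum.elim ![1, -1] (fun k => -α k)) (by
      rintro (i | i)
      · fin_cases i <;> simp
      · exact neg_ne_zero.2 (hα i)) (by
      rw [Fintype.sum_sum_type]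
      simp only [Sum.elim_inl, Sum.elim_inr, Fin.sum_univ_two, Matrix.cons_val_zero,
        Matrix.cons_val_one, one_smul, neg_smul, Finset.sum_neg_distrib]
      rw [← hrep]
      abel) (by
      intro y hy
      rw [Fintype.sum_sum_type] at hy
      simp only [Sum.elim_inl, Sum.elim_inr, Fin.sum_univ_two, Matrix.cons_val_zero,
        Matrix.cons_val_one] at hy
      set p := y (Sum.inl 0) with hp
      set q := y (Sum.inl 1) with hq
      have hT : ∑ k, y (Sum.inr k) • v k ∈ T' :=
        T'.sum_mem (fun k _ => T'.smul_mem _ (hvT k))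
      have hpq : (p + q) • b ∈ T' := by
        have e : (p + q) • b = -(∑ k, y (Sum.inr k) • v k) - p • (f - b) - q • (f' - b) := by
          have : ∑ k, y (Sum.inr k) • v k = -(p • f + q • f') := by
            rw [eq_neg_iff_add_eq_zero, add_comm]
            exact hy
          rw [this, add_smul, smul_sub, smul_sub]
          abel
        rw [e]
        exact T'.sub_mem (T'.sub_mem (T'.neg_mem hT) (T'.smul_mem _ hfb)) (T'.smul_mem _ hfb')
      have hpq0 : p + q = 0 := by
        by_contra hne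
        apply hb
        have := T'.smul_mem (p + q)⁻¹ hpq
        rwa [smul_smul, inv_mul_cancel₀ hne, one_smul] at this
      have hqp : q = -p := by linarith
      have h2 : ∑ k, (p * α k + y (Sum.inr k)) • v k = 0 := by
        have : ∑ k, (p * α k + y (Sum.inr k)) • v k =
            p • ∑ k, α k • v k + ∑ k, y (Sum.inr k) • v k := by
          rw [Finset.smul_sum, ← Finset.sum_add_distrib]
          exact Finset.sum_congr rfl (fun k _ => by rw [add_smul, smul_smul])
        rw [this, ← hrep]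
        rw [hqp] at hy
        rw [← hy, smul_sub, neg_smul]
        abel
      have h3 := hind _ h2
      refine ⟨p, ?_⟩
      ext i
      rcases i with i | i
      · fin_cases i
        · show p = p * 1
          ring
        · show q = p * -1
          rw [hqp]
          ring
      · have := congrFun h3 i
        simp only [Pi.zero_apply] at this
        show y (Sum.inr i) = p * -α i
        linarith)
  rw [Fintype.card_sum, Fintype.card_fin, Fintype.card_fin] at h1
  omega

theorem six_circ {S : Set V} (hmax : MaxFour S) {T' : Submodule ℝ V} {b b' : V}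
    (hb : ∀ s t : ℝ, s • b + t • b' ∈ T' → s = 0 ∧ t = 0)
    {f f' g g' u w : V} (hf : f ∈ Gs S) (hf' : f' ∈ Gs S) (hg : g ∈ Gs S) (hg' : g' ∈ Gs S)
    (hu : u ∈ Gs S) (hw : w ∈ Gs S) (hfb : f - b ∈ T') (hfb' : f' - b ∈ T')
    (hgb : g - b' ∈ T') (hgb' : g' - b' ∈ T') (huT : u ∈ T') (hwT : w ∈ T')
    {l α β : ℝ} (hl : l ≠ 0) (hα : α ≠ 0) (hβ : β ≠ 0)
    (hrel : f - f' = l • (g - g') + α • u + β • w)
    (hind : ∀ r s t : ℝ, r • (g - g') + s • u + t • w = 0 → r = 0 ∧ s = 0 ∧ t = 0) : False := by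
  have h1 := circ_fam (S := S) (c := 4) (by norm_num) hmax (ι := Fin 6)
    ![f, f', g, g', u, w] (by
      intro i
      fin_cases i
      · exact hf
      · exact hf'
      · exact hg
      · exact hg'
      · exact hu
      · exact hw) ![1, -1, -l, l, -α, -β] (by
      intro i
      fin_cases i
      · exact one_ne_zero
      · exact neg_ne_zero.2 one_ne_zero
      · exact neg_ne_zero.2 hl
      · exact hl
      · exact neg_ne_zero.2 hα
      · exact neg_ne_zero.2 hβ) (by
      rw [Fin.sum_univ_six]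
      show (1 : ℝ) • f + (-1 : ℝ) • f' + (-l) • g + l • g' + (-α) • u + (-β) • w = 0
      have : (1 : ℝ) • f + (-1 : ℝ) • f' + (-l) • g + l • g' + (-α) • u + (-β) • w =
          (f - f') - (l • (g - g') + α • u + β • w) := by
        rw [smul_sub, neg_smul, neg_smul, neg_smul, neg_smul, one_smul, one_smul]
        abel
      rw [this, hrel, sub_self]) (by
      intro y hy
      rw [Fin.sum_univ_six] at hy
      have hy' : y 0 • f + y 1 • f' + y 2 • g + y 3 • g' + y 4 • u + y 5 • w = 0 := hy
      have hbb : (y 0 + y 1) • b + (y 2 + y 3) • b' ∈ T' := by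
        have e : (y 0 + y 1) • b + (y 2 + y 3) • b' =
            (y 0 • f + y 1 • f' + y 2 • g + y 3 • g' + y 4 • u + y 5 • w) -
            (y 0 • (f - b) + y 1 • (f' - b) + y 2 • (g - b') + y 3 • (g' - b') + y 4 • u +
              y 5 • w) := by
          rw [add_smul, add_smul, smul_sub, smul_sub, smul_sub, smul_sub]
          abel
        rw [e, hy', zero_sub]
        apply T'.neg_mem
        exact T'.add_mem (T'.add_mem (T'.add_mem (T'.add_mem (T'.add_mem (T'.smul_mem _ hfb)
          (T'.smul_mem _ hfb')) (T'.smul_mem _ hgb)) (T'.smul_mem _ hgb')) (T'.smul_mem _ huT))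
          (T'.smul_mem _ hwT)
      obtain ⟨e1, e2⟩ := hb _ _ hbb
      have q1 : y 1 = -y 0 := by linarith
      have q3 : y 3 = -y 2 := by linarith
      rw [q1, q3] at hy'
      have h2 : (y 0 * l + y 2) • (g - g') + (y 0 * α + y 4) • u + (y 0 * β + y 5) • w = 0 := by
        have e : (y 0 * l + y 2) • (g - g') + (y 0 * α + y 4) • u + (y 0 * β + y 5) • w =
            y 0 • (l • (g - g') + α • u + β • w) + y 2 • (g - g') + y 4 • u + y 5 • w := by
          simp only [add_smul, mul_smul, smul_add]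
          abel
        rw [e, ← hrel, ← hy']
        simp only [smul_sub, neg_smul]
        abel
      obtain ⟨k1, k2, k3⟩ := hind _ _ _ h2
      refine ⟨y 0, ?_⟩
      ext i
      fin_cases i
      · show y 0 = y 0 * 1
        ring
      · show y 1 = y 0 * -1
        linarith
      · show y 2 = y 0 * -l
        linarith
      · show y 3 = y 0 * l
        linarith
      · show y 4 = y 0 * -α
        linarith
      · show y 5 = y 0 * -β
        linarith)
  rw [Fintype.card_fin] at h1
  omega

theorem Quad.even {S : Set V} (hmax : MaxFour S) {T' : Submodule ℝ V} {a : Fin 4 → V}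
    (h : Quad S T' a) {b : V} (hb : b ∉ T') {f f' : V} (hf : f ∈ Gs S) (hf' : f' ∈ Gs S)
    (hfb : f - b ∈ T') (hfb' : f' - b ∈ T') {x : Fin 4 → ℝ} (hx : f - f' = ∑ i, x i • a i) :
    ∀ i, ∃ k, k ≠ i ∧ x k = x i := by
  intro i
  by_contra hcon
  push Not at hcon
  have h1 := diff_circ hmax hb hf hf' hfb hfb' (fun k : Fin 3 => a (i.succAbove k))
    (fun k => h.mem _) (fun k => h.memT _) (by
      intro y hy
      have h2 : ∑ k, (i.insertNth (0 : ℝ) y : Fin 4 → ℝ) k • a k = 0 := by
        rw [Fin.sum_univ_succAbove _ i]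
        simp only [Fin.insertNth_apply_same, Fin.insertNth_apply_succAbove, zero_smul, zero_add]
        exact hy
      ext k
      have h3 := h.min _ h2 (i.succAbove k) i
      simpa using h3)
    (fun k => x (i.succAbove k) - x i) (fun k => sub_ne_zero.2 (hcon _ (Fin.succAbove_ne i k))) (by
      have h2 : ∑ k, (x k - x i) • a k = f - f' := by
        have : ∑ k, (x k - x i) • a k = ∑ k, x k • a k - x i • ∑ k, a k := by
          rw [Finset.smul_sum, ← Finset.sum_sub_distrib]
          exact Finset.sum_congr rfl (fun k _ => by rw [sub_smul])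
        rw [this, h.sum, smul_zero, sub_zero, hx]
      rw [← h2, Fin.sum_univ_succAbove _ i, sub_self, zero_smul, zero_add])
  omega

/-- Shape of an even vector. -/
theorem even_cases {x : Fin 4 → ℝ} (h : ∀ i, ∃ k, k ≠ i ∧ x k = x i) :
    (x 0 = x 1 ∧ x 2 = x 3) ∨ (x 0 = x 2 ∧ x 1 = x 3 ∧ x 0 ≠ x 1) ∨
      (x 0 = x 3 ∧ x 1 = x 2 ∧ x 0 ≠ x 1) := by
  obtain ⟨k0, h0, e0⟩ := h 0
  obtain ⟨k1, h1, e1⟩ := h 1
  obtain ⟨k2, h2, e2⟩ := h 2
  obtain ⟨k3, h3, e3⟩ := h 3
  by_cases h01 : x 0 = x 1
  · left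
    refine ⟨h01, ?_⟩
    fin_cases k2
    · fin_cases k3
      · exact e2.symm.trans e3
      · exact (e2.symm.trans h01).trans e3
      · exact e3
      · exact absurd rfl h3
    · fin_cases k3
      · exact e2.symm.trans (h01.symm.trans e3)
      · exact e2.symm.trans e3
      · exact e3
      · exact absurd rfl h3
    · exact absurd rfl h2
    · exact e2.symm
  · right
    fin_cases k0
    · exact absurd rfl h0
    · exact absurd e0.symm h01
    · left
      refine ⟨e0.symm, ?_, h01⟩
      fin_cases k1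
      · exact absurd e1 h01
      · exact absurd rfl h1
      · exact absurd (e0.symm.trans e1) h01
      · exact e1.symm
    · right
      refine ⟨e0.symm, ?_, h01⟩
      fin_cases k1
      · exact absurd e1 h01
      · exact absurd rfl h1
      · exact e1.symm
      · exact absurd (e0.symm.trans e1) h01

/-- A sum of an even vector and a nonzero vector of the first kind is even only if the former is
of the first kind. -/
theorem even_add {v : Fin 4 → ℝ} {p q : ℝ} (hpq : p ≠ q) {x : Fin 4 → ℝ} (hx0 : x 0 = p)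
    (hx1 : x 1 = p) (hx2 : x 2 = q) (hx3 : x 3 = q) (h : ∀ i, ∃ k, k ≠ i ∧ v k = v i)
    (h' : ∀ i, ∃ k, k ≠ i ∧ (v + x) k = (v + x) i) : v 0 = v 1 ∧ v 2 = v 3 := by
  rcases even_cases h with h1 | ⟨h1, h2, h3⟩ | ⟨h1, h2, h3⟩
  · exact h1
  · exfalso
    rcases even_cases h' with ⟨g1, g2⟩ | ⟨g1, g2, g3⟩ | ⟨g1, g2, g3⟩ <;>
      simp only [Pi.add_apply, hx0, hx1, hx2, hx3] at g1 g2
    · exact h3 (by linarith)
    · exact hpq (by linarith)
    · exact hpq (by linarith)
  · exfalso
    rcases even_cases h' with ⟨g1, g2⟩ | ⟨g1, g2, g3⟩ | ⟨g1, g2, g3⟩ <;>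
      simp only [Pi.add_apply, hx0, hx1, hx2, hx3] at g1 g2
    · exact h3 (by linarith)
    · exact hpq (by linarith)
    · exact hpq (by linarith)

theorem even_perm {x : Fin 4 → ℝ} (h : ∀ i, ∃ k, k ≠ i ∧ x k = x i) (hne : ∃ i j, x i ≠ x j) :
    ∃ σ : Equiv.Perm (Fin 4), x (σ 0) = x (σ 1) ∧ x (σ 2) = x (σ 3) ∧ x (σ 0) ≠ x (σ 2) := by
  rcases even_cases h with ⟨h1, h2⟩ | ⟨h1, h2, h3⟩ | ⟨h1, h2, h3⟩
  · refine ⟨Equiv.refl _, h1, h2, ?_⟩
    intro h3
    have h3' : x 0 = x 2 := h3
    obtain ⟨i, j, hij⟩ := hne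
    apply hij
    have hall : ∀ i : Fin 4, x i = x 0 := by
      intro i
      fin_cases i
      · rfl
      · exact h1.symm
      · exact h3'.symm
      · exact (h2.symm.trans h3'.symm)
    rw [hall i, hall j]
  · refine ⟨Equiv.swap 1 2, ?_, ?_, ?_⟩
    · show x (Equiv.swap 1 2 0) = x (Equiv.swap 1 2 1)
      rw [Equiv.swap_apply_of_ne_of_ne (by decide) (by decide), Equiv.swap_apply_left]
      exact h1
    · show x (Equiv.swap 1 2 2) = x (Equiv.swap 1 2 3)
      rw [Equiv.swap_apply_right, Equiv.swap_apply_of_ne_of_ne (by decide) (by decide)]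
      exact h2
    · show x (Equiv.swap 1 2 0) ≠ x (Equiv.swap 1 2 2)
      rw [Equiv.swap_apply_of_ne_of_ne (by decide) (by decide), Equiv.swap_apply_right]
      exact h3
  · refine ⟨Equiv.swap 1 3, ?_, ?_, ?_⟩
    · show x (Equiv.swap 1 3 0) = x (Equiv.swap 1 3 1)
      rw [Equiv.swap_apply_of_ne_of_ne (by decide) (by decide), Equiv.swap_apply_left]
      exact h1
    · show x (Equiv.swap 1 3 2) = x (Equiv.swap 1 3 3)
      rw [Equiv.swap_apply_right, Equiv.swap_apply_of_ne_of_ne (by decide) (by decide)]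
      exact h2.symm
    · show x (Equiv.swap 1 3 0) ≠ x (Equiv.swap 1 3 2)
      rw [Equiv.swap_apply_of_ne_of_ne (by decide) (by decide),
        Equiv.swap_apply_of_ne_of_ne (by decide) (by decide)]
      intro h4
      exact h3 (h4.trans h2.symm)

end Pool.Agent.Helper59.HD
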