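import Pool.Agent.Helper59.HD.Quad

/-!
# Configurations with circuits of size at most four: the common direction
-/

namespace Pool.Agent.Helper59.HD

variable {V : Type} [AddCommGroup V] [Module ℝ V]

theorem Quad.sum4 {S : Set V} {T' : Submodule ℝ V} {a : Fin 4 → V} (h : Quad S T' a) :
    a 3 = -(a 0) - a 1 - a 2 := by
  have := h.sum
  rw [Fin.sum_univ_four] at this
  have e : a 3 = (a 0 + a 1 + a 2 + a 3) - a 0 - a 1 - a 2 := by abel
  rw [e, this, zero_sub]

theorem Quad.ind3 {S : Set V} {T' : Submodule ℝ V} {a : Fin 4 → V} (h : Quad S T' a)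
    {r s t : ℝ} (hrel : r • a 0 + s • a 1 + t • a 2 = 0) : r = 0 ∧ s = 0 ∧ t = 0 := by
  have h1 := h.min ![r, s, t, 0] (by
    rw [Fin.sum_univ_four]
    show r • a 0 + s • a 1 + t • a 2 + (0 : ℝ) • a 3 = 0
    rw [zero_smul, add_zero]
    exact hrel)
  exact ⟨h1 0 3, h1 1 3, h1 2 3⟩

/-- Vectors of the first kind are multiples of `a 0 + a 1`. -/
theorem Quad.first {S : Set V} {T' : Submodule ℝ V} {a : Fin 4 → V} (h : Quad S T' a)
    {x : Fin 4 → ℝ} (h1 : x 0 = x 1) (h2 : x 2 = x 3) :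
    ∑ i, x i • a i = (x 0 - x 2) • (a 0 + a 1) := by
  rw [Fin.sum_univ_four, h.sum4, ← h1, ← h2]
  simp only [smul_sub, smul_neg, sub_smul, smul_add]
  abel

/-- Differences inside the coset of the distinguished pair. -/
theorem Quad.diff_same {S : Set V} (hmax : MaxFour S) {T' : Submodule ℝ V} {a : Fin 4 → V}
    (h : Quad S T' a) {b : V} (hb : b ∉ T') {f0 f0' : V} (hf0 : f0 ∈ Gs S) (hf0' : f0' ∈ Gs S)
    (hf0b : f0 - b ∈ T') (hf0b' : f0' - b ∈ T') {x : Fin 4 → ℝ} (hx01 : x 0 = x 1)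
    (hx23 : x 2 = x 3) (hx02 : x 0 ≠ x 2) (h0 : f0 - f0' = ∑ i, x i • a i)
    {f : V} (hf : f ∈ Gs S) (hfb : f - b ∈ T') : ∃ t : ℝ, f - f0 = t • (a 0 + a 1) := by
  have hT : f - f0 ∈ T' := by
    have : f - f0 = (f - b) - (f0 - b) := by abel
    rw [this]
    exact T'.sub_mem hfb hf0b
  obtain ⟨v, hv⟩ := h.span _ hT
  have e1 := h.even hmax hb hf hf0 hfb hf0b hv
  have e2 := h.even hmax hb hf hf0' hfb hf0b' (x := v + x) (by
    have : f - f0' = (f - f0) + (f0 - f0') := by abel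
    rw [this, hv, h0, ← Finset.sum_add_distrib]
    exact Finset.sum_congr rfl (fun i _ => by rw [Pi.add_apply, add_smul]))
  obtain ⟨g1, g2⟩ := even_add hx02 rfl hx01.symm rfl hx23.symm e1 e2
  exact ⟨v 0 - v 2, by rw [hv, h.first g1 g2]⟩

/-- Differences in another coset. -/
theorem Quad.diff_other {S : Set V} (hmax : MaxFour S) {T' : Submodule ℝ V} {a : Fin 4 → V}
    (h : Quad S T' a) {b b' : V} (hb : ∀ s t : ℝ, s • b + t • b' ∈ T' → s = 0 ∧ t = 0)
    {f0 f0' : V} (hf0 : f0 ∈ Gs S) (hf0' : f0' ∈ Gs S)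
    (hf0b : f0 - b ∈ T') (hf0b' : f0' - b ∈ T') {x : Fin 4 → ℝ} (hx01 : x 0 = x 1)
    (hx23 : x 2 = x 3) (hx02 : x 0 ≠ x 2) (h0 : f0 - f0' = ∑ i, x i • a i)
    {f f' : V} (hf : f ∈ Gs S) (hf' : f' ∈ Gs S) (hfb : f - b' ∈ T') (hfb' : f' - b' ∈ T') :
    ∃ t : ℝ, f - f' = t • (a 0 + a 1) := by
  have hb' : b' ∉ T' := by
    intro hmem
    have := (hb 0 1 (by rw [zero_smul, one_smul, zero_add]; exact hmem)).2
    exact one_ne_zero this
  have hT : f - f' ∈ T' := by
    have : f - f' = (f - b') - (f' - b') := by abel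
    rw [this]
    exact T'.sub_mem hfb hfb'
  obtain ⟨y, hy⟩ := h.span _ hT
  have e1 := h.even hmax hb' hf hf' hfb hfb' hy
  have hd : f0 - f0' = (x 0 - x 2) • (a 0 + a 1) := by rw [h0, h.first hx01 hx23]
  have hp : x 0 - x 2 ≠ 0 := sub_ne_zero.2 hx02
  rcases even_cases e1 with ⟨g1, g2⟩ | ⟨g1, g2, g3⟩ | ⟨g1, g2, g3⟩
  · exact ⟨y 0 - y 2, by rw [hy, h.first g1 g2]⟩
  · exfalso
    have hq : y 0 - y 1 ≠ 0 := sub_ne_zero.2 g3
    have hd' : f - f' = (y 0 - y 1) • (a 0 + a 2) := by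
      rw [hy, Fin.sum_univ_four, h.sum4, ← g1, ← g2]
      simp only [smul_sub, smul_neg, sub_smul, smul_add]
      abel
    apply six_circ hmax hb hf0 hf0' hf hf' (h.mem 1) (h.mem 2) hf0b hf0b' hfb hfb' (h.memT 1)
      (h.memT 2) (l := (x 0 - x 2) / (y 0 - y 1)) (α := x 0 - x 2) (β := -(x 0 - x 2))
      (div_ne_zero hp hq) hp (neg_ne_zero.2 hp)
    · rw [hd, hd', smul_smul, div_mul_cancel₀ _ hq]
      simp only [smul_add, neg_smul]
      abel
    · intro r s t hrst
      rw [hd', smul_smul] at hrst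
      have h3 : (r * (y 0 - y 1)) • a 0 + s • a 1 + (r * (y 0 - y 1) + t) • a 2 = 0 := by
        rw [← hrst]
        simp only [smul_add, add_smul]
        abel
      obtain ⟨k1, k2, k3⟩ := h.ind3 h3
      have hr : r = 0 := by
        rcases mul_eq_zero.1 k1 with h' | h'
        · exact h'
        · exact absurd h' hq
      refine ⟨hr, k2, ?_⟩
      rw [hr] at k3
      linarith
  · exfalso
    have hq : y 0 - y 1 ≠ 0 := sub_ne_zero.2 g3
    have hd' : f - f' = (y 0 - y 1) • (a 0 + a 3) := by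
      rw [hy, Fin.sum_univ_four, h.sum4, ← g1, ← g2]
      simp only [smul_sub, smul_neg, sub_smul, smul_add]
      abel
    apply six_circ hmax hb hf0 hf0' hf hf' (h.mem 1) (h.mem 3) hf0b hf0b' hfb hfb' (h.memT 1)
      (h.memT 3) (l := (x 0 - x 2) / (y 0 - y 1)) (α := x 0 - x 2) (β := -(x 0 - x 2))
      (div_ne_zero hp hq) hp (neg_ne_zero.2 hp)
    · rw [hd, hd', smul_smul, div_mul_cancel₀ _ hq]
      simp only [smul_add, neg_smul]
      abel
    · intro r s t hrst
      rw [hd', smul_smul, h.sum4] at hrst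
      have h3 : (-t) • a 0 + (s - (r * (y 0 - y 1) + t)) • a 1 +
          (-(r * (y 0 - y 1) + t)) • a 2 = 0 := by
        rw [← hrst]
        simp only [smul_add, add_smul, sub_smul, smul_sub, neg_smul, smul_neg]
        abel
      obtain ⟨k1, k2, k3⟩ := h.ind3 h3
      have ht : t = 0 := by linarith
      have hr' : r * (y 0 - y 1) = 0 := by linarith
      have hr : r = 0 := by
        rcases mul_eq_zero.1 hr' with h' | h'
        · exact h'
        · exact absurd h' hq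
      refine ⟨hr, by linarith, ht⟩

/-- The elements inside `T'`. -/
theorem Quad.inside {S : Set V} (hmax : MaxFour S) {T' : Submodule ℝ V} {a : Fin 4 → V}
    (h : Quad S T' a) {b : V} (hb : b ∉ T') {f0 f0' : V} (hf0 : f0 ∈ Gs S) (hf0' : f0' ∈ Gs S)
    (hf0b : f0 - b ∈ T') (hf0b' : f0' - b ∈ T') {x : Fin 4 → ℝ} (hx01 : x 0 = x 1)
    (hx23 : x 2 = x 3) (hx02 : x 0 ≠ x 2) (h0 : f0 - f0' = ∑ i, x i • a i)
    {g : V} (hg : g ∈ Gs S) (hgT : g ∈ T') :
    (∃ s t : ℝ, g = s • (a 0 + a 1) + t • a 0) ∨ (∃ s t : ℝ, g = s • (a 0 + a 1) + t • a 2) := by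
  obtain ⟨y, hy⟩ := h.span _ hgT
  have hd : f0 - f0' = (x 0 - x 2) • (a 0 + a 1) := by rw [h0, h.first hx01 hx23]
  have hp : x 0 - x 2 ≠ 0 := sub_ne_zero.2 hx02
  have hgy : g = (y 0 - y 3) • a 0 + (y 1 - y 3) • a 1 + (y 2 - y 3) • a 2 := by
    rw [hy, Fin.sum_univ_four, h.sum4]
    simp only [smul_sub, smul_neg, sub_smul]
    abel
  by_cases h01 : y 0 = y 1
  · right
    refine ⟨y 0 - y 3, y 2 - y 3, ?_⟩
    rw [hgy, ← h01, smul_add]
  by_cases h23 : y 2 = y 3
  · left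
    refine ⟨y 1 - y 3, y 0 - y 1, ?_⟩
    rw [hgy, h23]
    simp only [smul_add, sub_smul]
    abel
  exfalso
  by_cases h02 : y 0 = y 2
  · have h12 : y 1 - y 2 ≠ 0 := sub_ne_zero.2 (fun h' => h01 (h02.trans h'.symm))
    have h23' : y 2 - y 3 ≠ 0 := sub_ne_zero.2 h23
    have := diff_circ hmax hb hf0 hf0' hf0b hf0b' ![g, a 0, a 3] (by
      intro k
      fin_cases k
      · exact hg
      · exact h.mem 0
      · exact h.mem 3) (by
      intro k
      fin_cases k
      · exact hgT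
      · exact h.memT 0
      · exact h.memT 3) (by
      intro z hz
      rw [Fin.sum_univ_three] at hz
      have hz' : z 0 • g + z 1 • a 0 + z 2 • a 3 = 0 := hz
      rw [hgy, h.sum4] at hz'
      have h3 : (z 0 * (y 0 - y 3) + z 1 - z 2) • a 0 + (z 0 * (y 1 - y 3) - z 2) • a 1 +
          (z 0 * (y 2 - y 3) - z 2) • a 2 = 0 := by
        rw [← hz']
        simp only [smul_add, add_smul, sub_smul, smul_sub, smul_neg, mul_smul]
        abel
      obtain ⟨k1, k2, k3⟩ := h.ind3 h3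
      have k4 : z 0 * (y 1 - y 2) = 0 := by linarith
      have hz0 : z 0 = 0 := by
        rcases mul_eq_zero.1 k4 with h' | h'
        · exact h'
        · exact absurd h' h12
      rw [hz0] at k1 k2
      ext k
      fin_cases k
      · exact hz0
      · show z 1 = 0
        linarith
      · show z 2 = 0
        linarith)
      ![(x 0 - x 2) / (y 1 - y 2), x 0 - x 2, (x 0 - x 2) * (y 2 - y 3) / (y 1 - y 2)] (by
      intro k
      fin_cases k
      · exact div_ne_zero hp h12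
      · exact hp
      · exact div_ne_zero (mul_ne_zero hp h23') h12) (by
      rw [Fin.sum_univ_three]
      show f0 - f0' = ((x 0 - x 2) / (y 1 - y 2)) • g + (x 0 - x 2) • a 0 +
        ((x 0 - x 2) * (y 2 - y 3) / (y 1 - y 2)) • a 3
      rw [hd, hgy, h.sum4, h02]
      have e1 : ((x 0 - x 2) / (y 1 - y 2)) • ((y 2 - y 3) • a 0 + (y 1 - y 3) • a 1 +
          (y 2 - y 3) • a 2) + (x 0 - x 2) • a 0 +
          ((x 0 - x 2) * (y 2 - y 3) / (y 1 - y 2)) • (-a 0 - a 1 - a 2) =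
          ((x 0 - x 2) / (y 1 - y 2) * (y 2 - y 3) + (x 0 - x 2) -
            (x 0 - x 2) * (y 2 - y 3) / (y 1 - y 2)) • a 0 +
          ((x 0 - x 2) / (y 1 - y 2) * (y 1 - y 3) -
            (x 0 - x 2) * (y 2 - y 3) / (y 1 - y 2)) • a 1 +
          ((x 0 - x 2) / (y 1 - y 2) * (y 2 - y 3) -
            (x 0 - x 2) * (y 2 - y 3) / (y 1 - y 2)) • a 2 := by
        simp only [smul_add, add_smul, sub_smul, smul_sub, smul_neg, mul_smul]
        abel
      rw [e1]
      have c0 : (x 0 - x 2) / (y 1 - y 2) * (y 2 - y 3) + (x 0 - x 2) -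
            (x 0 - x 2) * (y 2 - y 3) / (y 1 - y 2) = x 0 - x 2 := by
        field_simp
        ring
      have c1 : (x 0 - x 2) / (y 1 - y 2) * (y 1 - y 3) -
            (x 0 - x 2) * (y 2 - y 3) / (y 1 - y 2) = x 0 - x 2 := by
        field_simp
        ring
      have c2 : (x 0 - x 2) / (y 1 - y 2) * (y 2 - y 3) -
            (x 0 - x 2) * (y 2 - y 3) / (y 1 - y 2) = 0 := by
        field_simp
        ring
      rw [c0, c1, c2, zero_smul, add_zero, smul_add])
    omega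
  · have h02' : y 0 - y 2 ≠ 0 := sub_ne_zero.2 h02
    have h01' : y 0 - y 1 ≠ 0 := sub_ne_zero.2 h01
    have h23' : y 2 - y 3 ≠ 0 := sub_ne_zero.2 h23
    have := diff_circ hmax hb hf0 hf0' hf0b hf0b' ![g, a 1, a 3] (by
      intro k
      fin_cases k
      · exact hg
      · exact h.mem 1
      · exact h.mem 3) (by
      intro k
      fin_cases k
      · exact hgT
      · exact h.memT 1
      · exact h.memT 3) (by
      intro z hz
      rw [Fin.sum_univ_three] at hz
      have hz' : z 0 • g + z 1 • a 1 + z 2 • a 3 = 0 := hz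
      rw [hgy, h.sum4] at hz'
      have h3 : (z 0 * (y 0 - y 3) - z 2) • a 0 + (z 0 * (y 1 - y 3) + z 1 - z 2) • a 1 +
          (z 0 * (y 2 - y 3) - z 2) • a 2 = 0 := by
        rw [← hz']
        simp only [smul_add, add_smul, sub_smul, smul_sub, smul_neg, mul_smul]
        abel
      obtain ⟨k1, k2, k3⟩ := h.ind3 h3
      have k4 : z 0 * (y 0 - y 2) = 0 := by linarith
      have hz0 : z 0 = 0 := by
        rcases mul_eq_zero.1 k4 with h' | h'
        · exact h'
        · exact absurd h' h02'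
      rw [hz0] at k1 k2
      ext k
      fin_cases k
      · exact hz0
      · show z 1 = 0
        linarith
      · show z 2 = 0
        linarith)
      ![(x 0 - x 2) / (y 0 - y 2), (x 0 - x 2) * (y 0 - y 1) / (y 0 - y 2),
        (x 0 - x 2) * (y 2 - y 3) / (y 0 - y 2)] (by
      intro k
      fin_cases k
      · exact div_ne_zero hp h02'
      · exact div_ne_zero (mul_ne_zero hp h01') h02'
      · exact div_ne_zero (mul_ne_zero hp h23') h02') (by
      rw [Fin.sum_univ_three]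
      show f0 - f0' = ((x 0 - x 2) / (y 0 - y 2)) • g +
        ((x 0 - x 2) * (y 0 - y 1) / (y 0 - y 2)) • a 1 +
        ((x 0 - x 2) * (y 2 - y 3) / (y 0 - y 2)) • a 3
      rw [hd, hgy, h.sum4]
      have e1 : ((x 0 - x 2) / (y 0 - y 2)) • ((y 0 - y 3) • a 0 + (y 1 - y 3) • a 1 +
          (y 2 - y 3) • a 2) + ((x 0 - x 2) * (y 0 - y 1) / (y 0 - y 2)) • a 1 +
          ((x 0 - x 2) * (y 2 - y 3) / (y 0 - y 2)) • (-a 0 - a 1 - a 2) =
          ((x 0 - x 2) / (y 0 - y 2) * (y 0 - y 3) -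
            (x 0 - x 2) * (y 2 - y 3) / (y 0 - y 2)) • a 0 +
          ((x 0 - x 2) / (y 0 - y 2) * (y 1 - y 3) + (x 0 - x 2) * (y 0 - y 1) / (y 0 - y 2) -
            (x 0 - x 2) * (y 2 - y 3) / (y 0 - y 2)) • a 1 +
          ((x 0 - x 2) / (y 0 - y 2) * (y 2 - y 3) -
            (x 0 - x 2) * (y 2 - y 3) / (y 0 - y 2)) • a 2 := by
        simp only [smul_add, add_smul, sub_smul, smul_sub, smul_neg, mul_smul]
        abel
      rw [e1]
      have c0 : (x 0 - x 2) / (y 0 - y 2) * (y 0 - y 3) -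
            (x 0 - x 2) * (y 2 - y 3) / (y 0 - y 2) = x 0 - x 2 := by
        field_simp
        ring
      have c1 : (x 0 - x 2) / (y 0 - y 2) * (y 1 - y 3) +
            (x 0 - x 2) * (y 0 - y 1) / (y 0 - y 2) -
            (x 0 - x 2) * (y 2 - y 3) / (y 0 - y 2) = x 0 - x 2 := by
        field_simp
        ring
      have c2 : (x 0 - x 2) / (y 0 - y 2) * (y 2 - y 3) -
            (x 0 - x 2) * (y 2 - y 3) / (y 0 - y 2) = 0 := by
        field_simp
        ring
      rw [c0, c1, c2, zero_smul, add_zero, smul_add])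
    omega

end Pool.Agent.Helper59.HD
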