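import Pool.Agent.Helper59.HD.QuadB
import Pool.Agent.Helper59.HD.ForestB

/-!
# Indecomposable configurations with circuits of size at most four
-/

namespace Pool.Agent.Helper59.HD

variable {V : Type} [AddCommGroup V] [Module ℝ V]

/-- `T` has a basis `d, e k` such that every element of `S` lies in one of the planes spanned by
`d` and `e k`. -/
def Star (T : Submodule ℝ V) (S : Set V) : Prop :=
  ∃ (κ : Type) (_ : Fintype κ) (d : V) (e : κ → V),
    (∀ (t : ℝ) (c : κ → ℝ), t • d + ∑ k, c k • e k = 0 → t = 0 ∧ c = 0) ∧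
    Submodule.span ℝ (insert d (Set.range e)) = T ∧
    ∀ f ∈ S, ∃ k, f ∈ Submodule.span ℝ {d, e k}

/-- A circuit with four elements gives a `Quad`. -/
theorem quad_of_circ {S : Set V} {g : V →₀ ℝ} (hg : Circ ⊥ g) (hgS : ∀ y, g y ≠ 0 → y ∈ S)
    (h4 : g.support.card = 4) : ∃ a : Fin 4 → V, Quad S (⊥ ⊔ spn {y | g y ≠ 0}) a := by
  classical
  set e : Fin 4 ≃ g.support := (Fintype.equivFinOfCardEq (by
    rw [Fintype.card_coe, h4])).symm with he
  have hinj : Function.Injective (fun i => (e i : V)) :=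
    fun i j hij => e.injective (Subtype.ext hij)
  have hne : ∀ i, g (e i) ≠ 0 := fun i => Finsupp.mem_support_iff.1 (e i).2
  have hsur : ∀ y, g y ≠ 0 → ∃ i, (e i : V) = y := by
    intro y hy
    refine ⟨e.symm ⟨y, Finsupp.mem_support_iff.2 hy⟩, ?_⟩
    simp
  have hexp : ∀ h : V →₀ ℝ, (∀ y, g y = 0 → h y = 0) → h = fc (fun i => (e i : V))
      (fun i => h (e i)) := by
    intro h hh
    ext y
    by_cases hy : g y = 0
    · rw [hh y hy, fc_out]
      intro i hi
      exact hne i (by rw [hi]; exact hy)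
    · obtain ⟨i, rfl⟩ := hsur y hy
      exact (fc_val hinj (fun i => h (e i)) i).symm
  refine ⟨fun i => g (e i) • (e i : V), ?_, ?_, ?_, ?_, ?_⟩
  · intro i
    exact ⟨e i, hgS _ (hne i), g (e i), rfl⟩
  · intro i
    apply Submodule.smul_mem
    exact (le_sup_right : spn {y | g y ≠ 0} ≤ _) (subset_spn (hne i))
  · have h1 := hg.2.1
    rw [Submodule.mem_bot, hexp g (fun y hy => hy), sm_fc] at h1
    rw [← h1]
  · intro y hy
    obtain ⟨t, ht⟩ := hg.2.2 (fc (fun i => (e i : V)) (fun i => y i * g (e i))) (by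
      rw [Submodule.mem_bot, sm_fc, ← hy]
      exact Finset.sum_congr rfl (fun i _ => by rw [smul_smul])) (by
      rw [supp_sub_iff]
      intro x hx
      apply fc_out
      intro i hi
      exact hne i (by rw [hi]; exact hx))
    have hyt : ∀ i, y i = t := by
      intro i
      have h1 : (fc (fun i => (e i : V)) (fun i => y i * g (e i))) (e i) = (t • g) (e i) := by
        rw [ht]
      rw [fc_val hinj, Finsupp.smul_apply, smul_eq_mul] at h1
      exact mul_right_cancel₀ (hne i) h1
    intro i j
    rw [hyt i, hyt j]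
  · intro w hw
    rw [bot_sup_eq, mem_spn] at hw
    obtain ⟨h, hh, rfl⟩ := hw
    have hh' : ∀ y, g y = 0 → h y = 0 := by
      intro y hy
      by_contra hne'
      exact hh y hne' hy
    refine ⟨fun i => h (e i) / g (e i), ?_⟩
    rw [hexp h hh', sm_fc]
    refine Finset.sum_congr rfl (fun i _ => ?_)
    rw [smul_smul, div_mul_cancel₀ _ (hne i), ← hexp h hh']

theorem star_of_quad {S : Set V} (hmax : MaxFour S) {T' T : Submodule ℝ V} {a : Fin 4 → V}
    (h : Quad S T' a) (hST : ∀ f ∈ S, f ∈ T) (hspan : Submodule.span ℝ S = T)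
    (hI : Indec ⊥ T S) {ι : Type} [Fintype ι] (j0 : ι) (b : ι → V)
    (hind : ∀ c : ι → ℝ, ∑ i, c i • b i ∈ T' → c = 0)
    (hTb : T' ⊔ Submodule.span ℝ (Set.range b) = T)
    (hcov : ∀ f ∈ S, f ∈ T' ∨ ∃ j, f ∈ T' ⊔ Submodule.span ℝ {b j}) : Star T S := by
  classical
  have hT'T : T' ≤ T := by rw [← hTb]; exact le_sup_left
  -- membership in the cosets
  have hcoset : ∀ j f, f ∈ T' ⊔ Submodule.span ℝ {b j} → f ∈ T' ∨
      ∃ t : ℝ, t ≠ 0 ∧ t⁻¹ • f - b j ∈ T' := by
    intro j f hf
    obtain ⟨w, hw, v, hv, hwv⟩ := Submodule.mem_sup.1 hf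
    obtain ⟨t, rfl⟩ := Submodule.mem_span_singleton.1 hv
    by_cases ht : t = 0
    · left
      rw [← hwv, ht, zero_smul, add_zero]
      exact hw
    · right
      refine ⟨t, ht, ?_⟩
      have e1 : t⁻¹ • f - b j = t⁻¹ • w := by
        rw [← hwv, smul_add, smul_smul, inv_mul_cancel₀ ht, one_smul]
        abel
      rw [e1]
      exact T'.smul_mem _ hw
  set W : ι → Submodule ℝ V := fun j => T' ⊔ Submodule.span ℝ (b '' {i | i ≠ j}) with hW
  have hbW : ∀ j, b j ∉ W j := by
    intro j hj
    obtain ⟨w, hw, v, hv, hwv⟩ := Submodule.mem_sup.1 hj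
    have hv' : ∃ c : ι → ℝ, c j = 0 ∧ v = ∑ i, c i • b i := by
      refine Submodule.span_induction (p := fun v _ => ∃ c : ι → ℝ, c j = 0 ∧
        v = ∑ i, c i • b i) ?_ ?_ ?_ ?_ hv
      · rintro _ ⟨i, hi, rfl⟩
        refine ⟨Pi.single i 1, Pi.single_eq_of_ne (Ne.symm hi) 1, ?_⟩
        rw [Finset.sum_eq_single i]
        · rw [Pi.single_eq_same, one_smul]
        · intro l _ hl
          rw [Pi.single_eq_of_ne hl, zero_smul]
        · intro h'
          exact absurd (Finset.mem_univ i) h'
      · exact ⟨0, rfl, by simp⟩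
      · rintro u v _ _ ⟨c, hc, rfl⟩ ⟨c', hc', rfl⟩
        refine ⟨c + c', by rw [Pi.add_apply, hc, hc', add_zero], ?_⟩
        rw [← Finset.sum_add_distrib]
        exact Finset.sum_congr rfl (fun i _ => by rw [Pi.add_apply, add_smul])
      · rintro t u _ ⟨c, hc, rfl⟩
        refine ⟨t • c, by rw [Pi.smul_apply, hc, smul_zero], ?_⟩
        rw [Finset.smul_sum]
        exact Finset.sum_congr rfl (fun i _ => by rw [Pi.smul_apply, smul_eq_mul, mul_smul])
    obtain ⟨c, hcj, hc⟩ := hv'
    have h1 : ∑ i, (Pi.single j (1 : ℝ) - c : ι → ℝ) i • b i ∈ T' := by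
      have e1 : ∑ i, (Pi.single j (1 : ℝ) - c : ι → ℝ) i • b i = b j - v := by
        rw [hc]
        have e2 : ∀ i, (Pi.single j (1 : ℝ) - c : ι → ℝ) i • b i =
            (Pi.single j (1 : ℝ) : ι → ℝ) i • b i - c i • b i :=
          fun i => by rw [Pi.sub_apply, sub_smul]
        rw [Finset.sum_congr rfl (fun i _ => e2 i), Finset.sum_sub_distrib,
          Finset.sum_eq_single j]
        · rw [Pi.single_eq_same, one_smul]
        · intro l _ hl
          rw [Pi.single_eq_of_ne hl, zero_smul]
        · intro h'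
          exact absurd (Finset.mem_univ j) h'
      rw [e1, ← hwv, add_sub_cancel_right]
      exact hw
    have h2 := congrFun (hind _ h1) j
    rw [Pi.sub_apply, Pi.single_eq_same, hcj, Pi.zero_apply] at h2
    norm_num at h2
  have hbT' : ∀ j, b j ∉ T' := fun j hj => hbW j ((le_sup_left : T' ≤ W j) hj)
  have hlineW : ∀ i j, i ≠ j → T' ⊔ Submodule.span ℝ {b i} ≤ W j := by
    intro i j hij
    apply sup_le le_sup_left
    rw [Submodule.span_le]
    rintro _ rfl
    exact (le_sup_right : _ ≤ W j) (Submodule.subset_span ⟨i, hij, rfl⟩)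
  have hex : ∀ j, ∃ F : V, F ∈ Gs S ∧ F - b j ∈ T' := by
    intro j
    by_contra hcon
    push Not at hcon
    apply hbW j
    have h1 : T ≤ W j := by
      rw [← hspan, Submodule.span_le]
      intro f hf
      rcases hcov f hf with h' | ⟨i, hi⟩
      · exact (le_sup_left : T' ≤ W j) h'
      · by_cases hij : i = j
        · rw [hij] at hi
          rcases hcoset j f hi with h' | ⟨t, ht, h'⟩
          · exact (le_sup_left : T' ≤ W j) h'
          · exact absurd h' (hcon _ (Gs.smul (Gs.of hf) _))
        · exact hlineW i j hij hi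
    apply h1
    rw [← hTb]
    exact (le_sup_right : _ ≤ T' ⊔ Submodule.span ℝ (Set.range b))
      (Submodule.subset_span (Set.mem_range_self j))
  choose F hFG hFb using hex
  -- two different elements in the coset of `j0`
  have htwo : ∃ f0 f0' : V, f0 ∈ Gs S ∧ f0' ∈ Gs S ∧ f0 - b j0 ∈ T' ∧ f0' - b j0 ∈ T' ∧
      f0 ≠ f0' := by
    by_contra hcon
    push Not at hcon
    have hall : ∀ f, f ∈ Gs S → f - b j0 ∈ T' → f = F j0 := fun f hf hfb =>
      hcon f (F j0) hf (hFG j0) hfb (hFb j0)
    have hF0 : F j0 ∉ W j0 := by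
      intro hF
      apply hbW j0
      have : b j0 = F j0 - (F j0 - b j0) := by abel
      rw [this]
      exact (W j0).sub_mem hF ((le_sup_left : T' ≤ W j0) (hFb j0))
    rcases hI (Submodule.span ℝ {F j0}) (W j0) (by
      apply le_antisymm
      · apply sup_le
        · rw [Submodule.span_le]
          rintro _ rfl
          obtain ⟨f, hf, t, hft⟩ := hFG j0
          rw [hft]
          exact T.smul_mem _ (hST f hf)
        · apply sup_le hT'T
          rw [← hTb]
          exact (Submodule.span_mono (Set.image_subset_range _ _)).trans le_sup_right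
      · rw [← hTb]
        apply sup_le (le_sup_left.trans le_sup_right)
        rw [Submodule.span_le]
        rintro _ ⟨i, rfl⟩
        by_cases hi : i = j0
        · rw [hi]
          have : b j0 = F j0 - (F j0 - b j0) := by abel
          rw [this]
          apply Submodule.sub_mem
          · exact (le_sup_left : Submodule.span ℝ {F j0} ≤ _) (Submodule.mem_span_singleton_self _)
          · exact (le_sup_left.trans le_sup_right : T' ≤ Submodule.span ℝ {F j0} ⊔ W j0) (hFb j0)
        · exact (le_sup_right : W j0 ≤ _) ((le_sup_right : _ ≤ W j0)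
            (Submodule.subset_span ⟨i, hi, rfl⟩))) (by
      rw [eq_bot_iff]
      rintro v ⟨hv1, hv2⟩
      obtain ⟨t, rfl⟩ := Submodule.mem_span_singleton.1 hv1
      rw [Submodule.mem_bot]
      by_cases ht : t = 0
      · rw [ht, zero_smul]
      · exfalso
        apply hF0
        have := (W j0).smul_mem t⁻¹ hv2
        rwa [smul_smul, inv_mul_cancel₀ ht, one_smul] at this) (by
      intro f hf
      rcases hcov f hf with h' | ⟨i, hi⟩
      · exact Or.inr ((le_sup_left : T' ≤ W j0) h')
      · by_cases hij : i = j0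
        · rw [hij] at hi
          rcases hcoset j0 f hi with h' | ⟨t, ht, h'⟩
          · exact Or.inr ((le_sup_left : T' ≤ W j0) h')
          · left
            have h1 := hall _ (Gs.smul (Gs.of hf) _) h'
            have h2 : f = t • F j0 := by
              rw [← h1, smul_smul, mul_inv_cancel₀ ht, one_smul]
            rw [h2]
            exact Submodule.smul_mem _ _ (Submodule.mem_span_singleton_self _)
        · exact Or.inr (hlineW i j0 hij hi)) with h1 | h1
    · apply hF0
      have : F j0 ∈ Submodule.span ℝ {F j0} := Submodule.mem_span_singleton_self _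
      rw [h1, Submodule.mem_bot] at this
      rw [this]
      exact (W j0).zero_mem
    · have h2 : a 0 ∈ W j0 := (le_sup_left : T' ≤ W j0) (h.memT 0)
      rw [h1, Submodule.mem_bot] at h2
      have h3 := h.ind3 (r := 1) (s := 0) (t := 0) (by simp [h2])
      exact one_ne_zero h3.1
  obtain ⟨f0, f0', hf0, hf0', hf0b, hf0b', hne⟩ := htwo
  have hT0 : f0 - f0' ∈ T' := by
    have : f0 - f0' = (f0 - b j0) - (f0' - b j0) := by abel
    rw [this]
    exact T'.sub_mem hf0b hf0b'
  obtain ⟨x, hx⟩ := h.span _ hT0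
  have hev := h.even hmax (hbT' j0) hf0 hf0' hf0b hf0b' hx
  obtain ⟨σ, hσ1, hσ2, hσ3⟩ := even_perm hev (by
    by_contra hcon
    push Not at hcon
    apply hne
    have : ∑ i, x i • a i = x 0 • ∑ i, a i := by
      rw [Finset.smul_sum]
      exact Finset.sum_congr rfl (fun i _ => by rw [hcon i 0])
    rw [this, h.sum, smul_zero] at hx
    exact sub_eq_zero.1 hx)
  have hQ := h.perm σ
  have hx' : f0 - f0' = ∑ i, x (σ i) • a (σ i) := by
    rw [hx, ← Equiv.sum_comp σ (fun i => x i • a i)]
  set d : V := a (σ 0) + a (σ 1) with hd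
  have hdT : d ∈ T' := T'.add_mem (h.memT _) (h.memT _)
  -- all differences are multiples of `d`
  have hdiff : ∀ j f, f ∈ Gs S → f - b j ∈ T' → ∃ t : ℝ, f - F j = t • d := by
    intro j f hf hfb
    by_cases hj : j = j0
    · rw [hj] at hfb ⊢
      obtain ⟨t1, ht1⟩ := hQ.diff_same hmax (hbT' j0) hf0 hf0' hf0b hf0b'
        (x := fun i => x (σ i)) hσ1 hσ2 hσ3 hx' hf hfb
      obtain ⟨t2, ht2⟩ := hQ.diff_same hmax (hbT' j0) hf0 hf0' hf0b hf0b'
        (x := fun i => x (σ i)) hσ1 hσ2 hσ3 hx' (hFG j0) (hFb j0)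
      refine ⟨t1 - t2, ?_⟩
      have : f - F j0 = (f - f0) - (F j0 - f0) := by abel
      rw [this, ht1, ht2, sub_smul]
    · obtain ⟨t, ht⟩ := hQ.diff_other hmax (b := b j0) (b' := b j) (by
        intro s t hst
        have h1 := hind (Pi.single j0 s + Pi.single j t) (by
          have e1 : ∀ i, (Pi.single j0 s + Pi.single j t : ι → ℝ) i • b i =
              (Pi.single j0 s : ι → ℝ) i • b i + (Pi.single j t : ι → ℝ) i • b i :=
            fun i => by rw [Pi.add_apply, add_smul]
          rw [Finset.sum_congr rfl (fun i _ => e1 i), Finset.sum_add_distrib,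
            Finset.sum_eq_single j0, Finset.sum_eq_single j, Pi.single_eq_same,
            Pi.single_eq_same]
          · exact hst
          · intro l _ hl
            rw [Pi.single_eq_of_ne hl, zero_smul]
          · intro h'
            exact absurd (Finset.mem_univ j) h'
          · intro l _ hl
            rw [Pi.single_eq_of_ne hl, zero_smul]
          · intro h'
            exact absurd (Finset.mem_univ j0) h')
        have h2 := congrFun h1 j0
        have h3 := congrFun h1 j
        rw [Pi.add_apply, Pi.single_eq_same, Pi.single_eq_of_ne (Ne.symm hj), add_zero,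
          Pi.zero_apply] at h2
        rw [Pi.add_apply, Pi.single_eq_same, Pi.single_eq_of_ne hj, zero_add,
          Pi.zero_apply] at h3
        exact ⟨h2, h3⟩) hf0 hf0' hf0b hf0b' (x := fun i => x (σ i)) hσ1 hσ2 hσ3 hx' hf (hFG j)
        hfb (hFb j)
      exact ⟨t, ht⟩
  refine ⟨Fin 2 ⊕ ι, inferInstance, d, Sum.elim ![a (σ 0), a (σ 2)] F, ?_, ?_, ?_⟩
  · intro t c hc
    rw [Fintype.sum_sum_type, Fin.sum_univ_two] at hc
    have hc' : t • d + ((c (Sum.inl 0) • a (σ 0) + c (Sum.inl 1) • a (σ 2)) +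
        ∑ j, c (Sum.inr j) • F j) = 0 := hc
    have h1 := hind (fun j => c (Sum.inr j)) (by
      have e1 : ∑ j, c (Sum.inr j) • b j = -(t • d + (c (Sum.inl 0) • a (σ 0) +
          c (Sum.inl 1) • a (σ 2))) - ∑ j, c (Sum.inr j) • (F j - b j) := by
        have e2 : ∑ j, c (Sum.inr j) • (F j - b j) =
            ∑ j, c (Sum.inr j) • F j - ∑ j, c (Sum.inr j) • b j := by
          rw [← Finset.sum_sub_distrib]
          exact Finset.sum_congr rfl (fun j _ => by rw [smul_sub])
        have e3 : ∑ j, c (Sum.inr j) • F j = -(t • d + (c (Sum.inl 0) • a (σ 0) +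
          c (Sum.inl 1) • a (σ 2))) := by
          rw [eq_neg_iff_add_eq_zero, ← hc']
          abel
        rw [e2, e3]
        abel
      rw [e1]
      apply T'.sub_mem
      · apply T'.neg_mem
        exact T'.add_mem (T'.smul_mem _ hdT) (T'.add_mem (T'.smul_mem _ (h.memT _))
          (T'.smul_mem _ (h.memT _)))
      · exact T'.sum_mem (fun j _ => T'.smul_mem _ (hFb j)))
    have h2 : ∑ j, c (Sum.inr j) • F j = 0 := by
      apply Finset.sum_eq_zero
      intro j _
      have := congrFun h1 j
      simp only [Pi.zero_apply] at this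
      rw [this, zero_smul]
    rw [h2, add_zero] at hc'
    have h3 : (t + c (Sum.inl 0)) • a (σ 0) + t • a (σ 1) + c (Sum.inl 1) • a (σ 2) = 0 := by
      rw [← hc', hd]
      simp only [smul_add, add_smul]
      abel
    obtain ⟨k1, k2, k3⟩ := hQ.ind3 h3
    refine ⟨k2, ?_⟩
    ext i
    rcases i with i | i
    · fin_cases i
      · show c (Sum.inl 0) = 0
        linarith
      · exact k3
    · exact congrFun h1 i
  · apply le_antisymm
    · rw [Submodule.span_le]
      rintro v (rfl | ⟨i, rfl⟩)
      · exact hT'T hdT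
      · rcases i with i | i
        · fin_cases i
          · exact hT'T (h.memT _)
          · exact hT'T (h.memT _)
        · obtain ⟨f, hf, t, hft⟩ := hFG i
          show F i ∈ T
          rw [hft]
          exact T.smul_mem _ (hST f hf)
    · set Z := Submodule.span ℝ (insert d (Set.range (Sum.elim ![a (σ 0), a (σ 2)] F))) with hZ
      have hdZ : d ∈ Z := Submodule.subset_span (Set.mem_insert _ _)
      have h0Z : a (σ 0) ∈ Z := Submodule.subset_span (Set.mem_insert_of_mem _ ⟨Sum.inl 0, rfl⟩)
      have h2Z : a (σ 2) ∈ Z := Submodule.subset_span (Set.mem_insert_of_mem _ ⟨Sum.inl 1, rfl⟩)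
      have hFZ : ∀ j, F j ∈ Z := fun j =>
        Submodule.subset_span (Set.mem_insert_of_mem _ ⟨Sum.inr j, rfl⟩)
      have h1Z : a (σ 1) ∈ Z := by
        have : a (σ 1) = d - a (σ 0) := by rw [hd]; abel
        rw [this]
        exact Z.sub_mem hdZ h0Z
      have h3Z : a (σ 3) ∈ Z := by
        have := hQ.sum4
        rw [this]
        exact Z.sub_mem (Z.sub_mem (Z.neg_mem h0Z) h1Z) h2Z
      have hTZ : T' ≤ Z := by
        intro w hw
        obtain ⟨y, hy⟩ := hQ.span w hw
        rw [hy]
        apply Z.sum_mem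
        intro i _
        apply Z.smul_mem
        fin_cases i
        · exact h0Z
        · exact h1Z
        · exact h2Z
        · exact h3Z
      rw [← hTb]
      apply sup_le hTZ
      rw [Submodule.span_le]
      rintro _ ⟨j, rfl⟩
      have : b j = F j - (F j - b j) := by abel
      rw [this]
      exact Z.sub_mem (hFZ j) (hTZ (hFb j))
  · have hin : ∀ f ∈ S, f ∈ T' → ∃ k, f ∈ Submodule.span ℝ
        {d, (Sum.elim ![a (σ 0), a (σ 2)] F : Fin 2 ⊕ ι → V) k} := by
      intro f hf hfT
      rcases hQ.inside hmax (hbT' j0) hf0 hf0' hf0b hf0b' (x := fun i => x (σ i)) hσ1 hσ2 hσ3 hx'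
        (Gs.of hf) hfT with ⟨s, t, hst⟩ | ⟨s, t, hst⟩
      · refine ⟨Sum.inl 0, ?_⟩
        rw [Submodule.mem_span_pair]
        exact ⟨s, t, hst.symm⟩
      · refine ⟨Sum.inl 1, ?_⟩
        rw [Submodule.mem_span_pair]
        exact ⟨s, t, hst.symm⟩
    intro f hf
    rcases hcov f hf with h' | ⟨j, hj⟩
    · exact hin f hf h'
    · rcases hcoset j f hj with h' | ⟨t, ht, h'⟩
      · exact hin f hf h'
      · obtain ⟨s, hs⟩ := hdiff j _ (Gs.smul (Gs.of hf) t⁻¹) h'
        refine ⟨Sum.inr j, ?_⟩
        rw [Submodule.mem_span_pair]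
        refine ⟨t * s, t, ?_⟩
        show (t * s) • d + t • F j = f
        have e1 : f = t • (t⁻¹ • f) := by rw [smul_smul, mul_inv_cancel₀ ht, one_smul]
        have e2 : t⁻¹ • f = s • d + F j := by rw [← hs]; abel
        rw [e1, e2, smul_add t (s • d) (F j), smul_smul t s d]

end Pool.Agent.Helper59.HD
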